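import Pool.Agent.Work.MP_8222c7_an.JohnsonU

/-!
Johnson's condition written with bounded bilinear maps.
-/

set_option autoImplicit false

namespace Pool.Hom82

universe u

/-- Amenability: for every Banach `A`-bimodule `E` (in the universe `u`; `l` and `r` are the left and
right actions), every bounded derivation `D` from `A` to the dual of `E` is inner. -/
def IsAmenable (A : Type) [NormedCommRing A] [NormedAlgebra ℂ A] : Prop :=
  ∀ (E : Type u) [NormedAddCommGroup E] [NormedSpace ℂ E] [CompleteSpace E] (l r : A → E → E),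
    IsBoundedBilinearMap ℂ (fun p : A × E => l p.1 p.2) →
    IsBoundedBilinearMap ℂ (fun p : A × E => r p.1 p.2) →
    (∀ a b x, l (a * b) x = l a (l b x)) →
    (∀ a b x, r (a * b) x = r b (r a x)) →
    (∀ a b x, l a (r b x) = r b (l a x)) →
    ∀ D : A → E → ℂ, IsBoundedBilinearMap ℂ (fun p : A × E => D p.1 p.2) →
      (∀ a b x, D (a * b) x = D b (r a x) + D a (l b x)) →
      ∃ f : E →L[ℂ] ℂ, ∀ a x, D a x = f (r a x) - f (l a x)

theorem AmenableU.isAmenable {A : Type} [NormedCommRing A] [NormedAlgebra ℂ A]
    (h : AmenableU.{u} A) : IsAmenable.{u} A := by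
  intro E _ _ _ l r hl hr hll hrr hlr D hD hDD
  obtain ⟨f, hf⟩ := h E hl.toContinuousLinearMap hr.toContinuousLinearMap
    (fun a b => ContinuousLinearMap.ext fun x => hll a b x)
    (fun a b => ContinuousLinearMap.ext fun x => hrr a b x)
    (fun a b => ContinuousLinearMap.ext fun x => hlr a b x)
    hD.toContinuousLinearMap (fun a b x => hDD a b x)
  exact ⟨f, fun a x => hf a x⟩

end Pool.Hom82
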