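import Pool.Agent.Work.MP_8222c7_an.AssemblyDefs

/-!
Assembly: the Banach algebra `AA T` of a tower is semisimple, has a character `chi T` and a closed
ideal `JJ T` such that the quotient map and `chi` differ by quasinilpotent values.
-/

set_option autoImplicit false

namespace Pool.Hom82

open Finset Filter

noncomputable section

variable (T : Tower)

/-- extension of a bounded homomorphism of a seminormed algebra to its completion -/
def extHom {R : Type} [CommRing R] [Algebra ℂ R] (N : AlgSn R) {B : Type} [NormedCommRing B]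
    [NormedAlgebra ℂ B] [CompleteSpace B] (f : R →ₐ[ℂ] B) (hf : ∀ x, ‖f x‖ ≤ N.N x) :
    UniformSpace.Completion N.Ty →ₐ[ℂ] B :=
  have hc : Continuous (f.comp N.to.symm.toAlgHom : N.Ty →ₐ[ℂ] B) := by
    apply AddMonoidHomClass.continuous_of_bound (f.comp N.to.symm.toAlgHom) 1
    intro x
    rw [one_mul]
    exact hf _
  { UniformSpace.Completion.extensionHom (f.comp N.to.symm.toAlgHom : N.Ty →ₐ[ℂ] B).toRingHom hc with
    commutes' := by
      intro c
      rw [UniformSpace.Completion.algebraMap_def]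
      show UniformSpace.Completion.extensionHom (f.comp N.to.symm.toAlgHom).toRingHom hc _ = _
      rw [UniformSpace.Completion.extensionHom_coe]
      exact (f.comp N.to.symm.toAlgHom).commutes c }

theorem extHom_coe {R : Type} [CommRing R] [Algebra ℂ R] (N : AlgSn R) {B : Type} [NormedCommRing B]
    [NormedAlgebra ℂ B] [CompleteSpace B] (f : R →ₐ[ℂ] B) (hf : ∀ x, ‖f x‖ ≤ N.N x) (x : R) :
    extHom N f hf ((N.to x : N.Ty) : UniformSpace.Completion N.Ty) = f x := by
  have hc : Continuous (f.comp N.to.symm.toAlgHom : N.Ty →ₐ[ℂ] B) := by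
    apply AddMonoidHomClass.continuous_of_bound (f.comp N.to.symm.toAlgHom) 1
    intro x
    rw [one_mul]
    exact hf _
  exact UniformSpace.Completion.extensionHom_coe (f.comp N.to.symm.toAlgHom).toRingHom hc _

theorem extHom_continuous {R : Type} [CommRing R] [Algebra ℂ R] (N : AlgSn R) {B : Type}
    [NormedCommRing B] [NormedAlgebra ℂ B] [CompleteSpace B] (f : R →ₐ[ℂ] B)
    (hf : ∀ x, ‖f x‖ ≤ N.N x) : Continuous (extHom N f hf) :=
  UniformSpace.Completion.continuous_extension

theorem extHom_norm_le {R : Type} [CommRing R] [Algebra ℂ R] (N : AlgSn R) {B : Type}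
    [NormedCommRing B] [NormedAlgebra ℂ B] [CompleteSpace B] (f : R →ₐ[ℂ] B)
    (hf : ∀ x, ‖f x‖ ≤ N.N x) (a : UniformSpace.Completion N.Ty) : ‖extHom N f hf a‖ ≤ ‖a‖ := by
  induction a using UniformSpace.Completion.induction_on with
  | hp => exact isClosed_le (extHom_continuous N f hf).norm continuous_norm
  | ih a =>
    have h := extHom_coe N f hf (N.to.symm a)
    rw [AlgEquiv.apply_symm_apply] at h
    rw [h, UniformSpace.Completion.norm_coe]
    exact hf _

/-- level `n` as a Banach algebra -/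
abbrev En (n : ℕ) : Type := UniformSpace.Completion (gn T n).Ty

/-- embedding of functions -/
def jn (n : ℕ) (b : Om (T.I n) → ℂ) : En T n := (((gn T n).to b : (gn T n).Ty) : En T n)

theorem norm_jn (n : ℕ) (b : Om (T.I n) → ℂ) : ‖jn T n b‖ = (gn T n).N b :=
  UniformSpace.Completion.norm_coe _

/-- algebra homomorphism version of `jn` -/
def jnA (n : ℕ) : (Om (T.I n) → ℂ) →ₐ[ℂ] En T n where
  toFun b := jn T n b
  map_one' := UniformSpace.Completion.coe_one _
  map_mul' x y := UniformSpace.Completion.coe_mul _ _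
  map_zero' := UniformSpace.Completion.coe_zero
  map_add' x y := UniformSpace.Completion.coe_add _ _
  commutes' c := by
    rw [UniformSpace.Completion.algebraMap_def]
    rfl

/-- projection of the finite part -/
def prA (n : ℕ) : Afin T →ₐ[ℂ] (Om (T.I n) → ℂ) where
  toFun x := x.1.2 n
  map_one' := rfl
  map_mul' _ _ := rfl
  map_zero' := rfl
  map_add' _ _ := rfl
  commutes' _ := rfl

/-- projection to level `n` -/
def pr (n : ℕ) : AA T →ₐ[ℂ] En T n :=
  extHom (NA T) ((jnA T n).comp (prA T n)) (fun x => by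
    show ‖jn T n (x.1.2 n)‖ ≤ _
    rw [norm_jn]
    exact le_NA T x n)

theorem pr_emb (n : ℕ) (x : Afin T) : pr T n (emb T x) = jn T n (x.1.2 n) :=
  extHom_coe _ _ _ x

theorem pr_norm_le (n : ℕ) (a : AA T) : ‖pr T n a‖ ≤ ‖a‖ := extHom_norm_le _ _ _ a

theorem pr_continuous (n : ℕ) : Continuous (pr T n) := extHom_continuous _ _ _

theorem norm_le_of_pr (a : AA T) {c : ℝ} (h : ∀ n, ‖pr T n a‖ ≤ c) : ‖a‖ ≤ c := by
  apply le_of_forall_pos_le_add
  intro ε hε
  obtain ⟨x, hx⟩ := (dense_emb T).exists_dist_lt a (show (0 : ℝ) < ε / 2 by linarith)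
  rw [dist_eq_norm] at hx
  have h1 : ‖emb T x‖ ≤ c + ε / 2 := by
    rw [norm_emb]
    apply NA_le
    intro n
    rw [← norm_jn, ← pr_emb]
    have h2 : pr T n (emb T x) = pr T n a - pr T n (a - emb T x) := by
      rw [map_sub]; ring
    rw [h2]
    refine (norm_sub_le _ _).trans ?_
    have := pr_norm_le T n (a - emb T x)
    linarith [h n]
  have h3 : a = (a - emb T x) + emb T x := by ring
  calc ‖a‖ = ‖(a - emb T x) + emb T x‖ := by rw [← h3]
    _ ≤ ‖a - emb T x‖ + ‖emb T x‖ := norm_add_le _ _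
    _ ≤ c + ε := by linarith

/-- every element of level `n` is a function -/
theorem jn_surjective (n : ℕ) : Function.Surjective (jn T n) := by
  classical
  have : FiniteDimensional ℂ (Om (T.I n) → ℂ) := inferInstance
  have : FiniteDimensional ℂ (LinearMap.range (jnA T n).toLinearMap) := inferInstance
  have hcl : IsClosed (LinearMap.range (jnA T n).toLinearMap : Set (En T n)) :=
    Submodule.closed_of_finiteDimensional _
  intro y
  have hd : DenseRange ((↑) : (gn T n).Ty → UniformSpace.Completion (gn T n).Ty) :=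
    UniformSpace.Completion.denseRange_coe
  have hy : y ∈ closure (LinearMap.range (jnA T n).toLinearMap : Set (En T n)) := by
    have h1 : Set.range ((↑) : (gn T n).Ty → UniformSpace.Completion (gn T n).Ty) ⊆
        (LinearMap.range (jnA T n).toLinearMap : Set (En T n)) := by
      rintro _ ⟨b, rfl⟩
      exact ⟨(gn T n).to.symm b, rfl⟩
    exact closure_mono h1 (hd y)
  rw [hcl.closure_eq] at hy
  obtain ⟨b, hb⟩ := hy
  exact ⟨b, hb⟩

/-- good points of the cube -/
def Good (n : ℕ) (z : Om (T.I n)) : Prop := ∀ s ∈ SB T n, ‖s z‖ ≤ 1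

theorem eval_le {n : ℕ} {z : Om (T.I n)} (h : Good T n z) (b : Om (T.I n) → ℂ) :
    ‖b z‖ ≤ (gn T n).N b := by
  have := le_gaugeSn (SB T n) (span_SB T n) (LinearMap.proj z : (Om (T.I n) → ℂ) →ₗ[ℂ] ℂ)
    zero_le_one (fun s hs => h s hs) b
  rwa [one_mul] at this

theorem gn_single_bad {n : ℕ} {z : Om (T.I n)} (h : ¬ Good T n z) :
    (gn T n).N (Pi.single z 1) = 0 := by
  classical
  unfold Good at h
  push Not at h
  obtain ⟨s, hs, hz⟩ := h
  have h0 := (gn T n).nonneg (Pi.single z 1)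
  have hsz : s z ≠ 0 := by
    intro h'
    rw [h', norm_zero] at hz
    linarith
  have h1 : (Pi.single z 1 : Om (T.I n) → ℂ) = (s z)⁻¹ • (s * Pi.single z 1) := by
    funext w
    by_cases hw : w = z
    · subst hw
      simp [hsz]
    · simp [Pi.single_eq_of_ne hw]
  have h2 : (gn T n).N (Pi.single z 1) ≤ ‖(s z)⁻¹‖ * (gn T n).N (Pi.single z 1) := by
    conv_lhs => rw [h1]
    refine ((gn T n).smul _ _).trans ?_
    apply mul_le_mul_of_nonneg_left _ (norm_nonneg _)
    refine ((gn T n).mul _ _).trans ?_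
    have := gn_le_one T n hs
    have h3 := (gn T n).nonneg s
    nlinarith
  rw [norm_inv] at h2
  have h4 : ‖s z‖⁻¹ < 1 := inv_lt_one_of_one_lt₀ hz
  by_contra h5
  have h6 : 0 < (gn T n).N (Pi.single z 1) := lt_of_le_of_ne h0 (Ne.symm h5)
  nlinarith

theorem gn_sum {n : ℕ} {ι : Type} (s : Finset ι) (f : ι → (Om (T.I n) → ℂ)) :
    (gn T n).N (∑ i ∈ s, f i) ≤ ∑ i ∈ s, (gn T n).N (f i) :=
  gN_sum _ (span_SB T n) s f

theorem gn_eq_zero {n : ℕ} {b : Om (T.I n) → ℂ} (h : ∀ z, Good T n z → b z = 0) :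
    (gn T n).N b = 0 := by
  classical
  apply le_antisymm _ ((gn T n).nonneg b)
  have : b = ∑ w, b w • (Pi.single w 1 : Om (T.I n) → ℂ) := by
    funext z
    rw [Finset.sum_apply]
    simp [Pi.single_apply]
  rw [this]
  refine (gn_sum T _ _).trans ?_
  apply Finset.sum_nonpos
  intro w _
  by_cases hw : Good T n w
  · rw [h w hw, zero_smul, (gn T n).zero]
  · refine ((gn T n).smul _ _).trans ?_
    rw [gn_single_bad T hw, mul_zero]

/-- evaluation at a good point, as a character of level `n` -/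
def evE {n : ℕ} {z : Om (T.I n)} (h : Good T n z) : En T n →ₐ[ℂ] ℂ :=
  extHom (gn T n) (Pi.evalAlgHom ℂ (fun _ => ℂ) z) (fun b => eval_le T h b)

theorem evE_jn {n : ℕ} {z : Om (T.I n)} (h : Good T n z) (b : Om (T.I n) → ℂ) :
    evE T h (jn T n b) = b z := extHom_coe _ _ _ b

/-- characters separate the points of the algebra -/
theorem ss (a : AA T) (h : ∀ θ : AA T →ₐ[ℂ] ℂ, θ a = 0) : a = 0 := by
  rw [← norm_le_zero_iff]
  apply norm_le_of_pr
  intro n
  obtain ⟨b, hb⟩ := jn_surjective T n (pr T n a)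
  rw [← hb, norm_jn]
  apply le_of_eq
  apply gn_eq_zero
  intro z hz
  have h3 : evE T hz (pr T n a) = 0 := h ((evE T hz).comp (pr T n))
  rw [← hb, evE_jn] at h3
  exact h3

/-- the algebra is semisimple: an element with spectrum `{0}` vanishes -/
theorem semisimple (a : AA T) (h : spectrum ℂ a ⊆ {0}) : a = 0 := by
  rw [← norm_le_zero_iff]
  apply norm_le_of_pr
  intro n
  obtain ⟨b, hb⟩ := jn_surjective T n (pr T n a)
  rw [← hb, norm_jn]
  apply le_of_eq
  apply gn_eq_zero
  intro z hz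
  have h1 : (evE T hz).comp (pr T n) a ∈ spectrum ℂ a :=
    AlgHom.apply_mem_spectrum _ _
  have h2 := h h1
  have h3 : evE T hz (pr T n a) = 0 := h2
  rw [← hb, evE_jn] at h3
  exact h3

/-! ### the augmentation -/

theorem σ_z (n : ℕ) (p : P) : T.σ n p (T.z n) = MvPolynomial.constantCoeff p := by
  have h : (Pi.evalAlgHom ℂ (fun _ : Om (T.I n) => ℂ) (T.z n)).comp (T.σ n) =
      MvPolynomial.aeval (fun _ : ℕ => (0 : ℂ)) := by
    apply MvPolynomial.algHom_ext
    intro i
    rw [MvPolynomial.aeval_X]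
    exact T.hz n i
  have h1 := congrArg (fun f : P →ₐ[ℂ] ℂ => f p) h
  have h2 : (MvPolynomial.aeval (fun _ : ℕ => (0 : ℂ)) : P →ₐ[ℂ] ℂ) p =
      MvPolynomial.constantCoeff p := by
    simp
  rw [← h2]
  exact h1

theorem good_z (n : ℕ) : Good T n (T.z n) := by
  intro s hs
  induction hs using Submonoid.closure_induction with
  | mem x hx =>
    rcases hx with ⟨g, rfl⟩ | ⟨p, hp, rfl⟩
    · exact (walsh_norm g _).le
    · rw [σ_z, T.hF0 n p hp, norm_zero]
      exact zero_le_one
  | one => simp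
  | mul x y _ _ hx hy =>
    rw [Pi.mul_apply, norm_mul]
    exact mul_le_one₀ hx (norm_nonneg _) hy

/-- the augmentation on the finite part -/
def chiA : Afin T →ₐ[ℂ] ℂ where
  toFun x := MvPolynomial.constantCoeff x.1.1
  map_one' := map_one _
  map_mul' _ _ := map_mul _ _ _
  map_zero' := map_zero _
  map_add' _ _ := map_add _ _ _
  commutes' c := MvPolynomial.constantCoeff_C _ c

theorem chiA_le (x : Afin T) : ‖chiA T x‖ ≤ (NA T).N x := by
  obtain ⟨M, hM⟩ := x.2
  have h1 : chiA T x = x.1.2 M (T.z M) := by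
    rw [hM M le_rfl, σ_z]
    rfl
  rw [h1]
  exact (eval_le T (good_z T M) _).trans (le_NA T x M)

/-- the augmentation, a character -/
def chi : AA T →ₐ[ℂ] ℂ := extHom (NA T) (chiA T) (chiA_le T)

theorem chi_emb (x : Afin T) : chi T (emb T x) = MvPolynomial.constantCoeff x.1.1 :=
  extHom_coe _ _ _ x

theorem chi_continuous : Continuous (chi T) := extHom_continuous _ _ _

instance : Nontrivial (AA T) := by
  refine ⟨⟨1, 0, fun h => ?_⟩⟩
  have := congrArg (chi T) h
  rw [map_one, map_zero] at this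
  exact one_ne_zero this

/-! ### the ideal of null sequences -/

/-- the closed ideal -/
def JJ : Ideal (AA T) where
  carrier := {a | Tendsto (fun n => ‖pr T n a‖) atTop (nhds 0)}
  zero_mem' := by
    show Tendsto (fun n => ‖pr T n 0‖) atTop (nhds 0)
    simp
  add_mem' := by
    intro a b ha hb
    show Tendsto (fun n => ‖pr T n (a + b)‖) atTop (nhds 0)
    have h := Tendsto.add (show Tendsto (fun n => ‖pr T n a‖) atTop (nhds 0) from ha)
      (show Tendsto (fun n => ‖pr T n b‖) atTop (nhds 0) from hb)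
    rw [add_zero] at h
    apply squeeze_zero (fun _ => norm_nonneg _) _ h
    intro n
    rw [map_add]
    exact norm_add_le _ _
  smul_mem' := by
    intro c a ha
    show Tendsto (fun n => ‖pr T n (c * a)‖) atTop (nhds 0)
    have h := Tendsto.const_mul ‖c‖ (show Tendsto (fun n => ‖pr T n a‖) atTop (nhds 0) from ha)
    rw [mul_zero] at h
    apply squeeze_zero (fun _ => norm_nonneg _) _ h
    intro n
    rw [map_mul]
    refine (norm_mul_le _ _).trans ?_
    exact mul_le_mul_of_nonneg_right (pr_norm_le T n c) (norm_nonneg _)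

theorem mem_JJ (a : AA T) : a ∈ JJ T ↔ Tendsto (fun n => ‖pr T n a‖) atTop (nhds 0) := Iff.rfl

instance JJ_closed : IsClosed (JJ T : Set (AA T)) := by
  apply isClosed_of_closure_subset
  intro a ha
  rw [SetLike.mem_coe, mem_JJ, Metric.tendsto_atTop]
  intro ε hε
  obtain ⟨b, hb, hab⟩ := Metric.mem_closure_iff.1 ha (ε / 2) (by linarith)
  obtain ⟨N, hN⟩ := Metric.tendsto_atTop.1 ((mem_JJ T b).1 hb) (ε / 2) (by linarith)
  refine ⟨N, fun n hn => ?_⟩
  have h1 := hN n hn
  rw [dist_zero_right, norm_norm] at h1 ⊢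
  rw [dist_eq_norm] at hab
  have h2 : pr T n a = pr T n (a - b) + pr T n b := by
    rw [map_sub]; ring
  rw [h2]
  refine (norm_add_le _ _).trans_lt ?_
  have h3 := pr_norm_le T n (a - b)
  linarith

theorem emb_mem_JJ (x : Afin T) {M : ℕ} (h : ∀ n, M ≤ n → x.1.2 n = 0) : emb T x ∈ JJ T := by
  rw [mem_JJ]
  apply tendsto_atTop_of_eventually_const (i₀ := M)
  intro n hn
  rw [pr_emb, h n hn, norm_jn, (gn T n).zero]

/-- the quotient algebra -/
abbrev BB : Type := AA T ⧸ JJ T

/-- the polynomial part -/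
def eP : P →ₐ[ℂ] Afin T where
  toFun p := ⟨(p, fun n => T.σ n p), ⟨0, fun _ _ => rfl⟩⟩
  map_one' := by
    apply Subtype.ext
    show ((1 : P), fun n => T.σ n 1) = (1, 1)
    simp only [map_one]
    rfl
  map_mul' p q := by
    apply Subtype.ext
    show ((p * q : P), fun n => T.σ n (p * q)) = (p, fun n => T.σ n p) * (q, fun n => T.σ n q)
    simp only [map_mul]
    rfl
  map_zero' := by
    apply Subtype.ext
    show ((0 : P), fun n => T.σ n 0) = (0, 0)
    simp only [map_zero]
    rfl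
  map_add' p q := by
    apply Subtype.ext
    show ((p + q : P), fun n => T.σ n (p + q)) = (p, fun n => T.σ n p) + (q, fun n => T.σ n q)
    simp only [map_add]
    rfl
  commutes' c := by
    apply Subtype.ext
    show ((algebraMap ℂ P c : P), fun n => T.σ n (algebraMap ℂ P c)) = _
    simp only [AlgHom.commutes]
    rfl

/-- quotient map -/
def phi : AA T →ₐ[ℂ] BB T := Ideal.Quotient.mkₐ ℂ (JJ T)

theorem phi_surjective : Function.Surjective (phi T) := Ideal.Quotient.mkₐ_surjective ℂ (JJ T)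

theorem phi_norm_le (a : AA T) : ‖phi T a‖ ≤ ‖a‖ := Ideal.Quotient.norm_mk_le (JJ T) a

theorem phi_continuous : Continuous (phi T) := by
  apply AddMonoidHomClass.continuous_of_bound (phi T) 1
  intro a
  rw [one_mul]
  exact phi_norm_le T a

theorem phi_eq_zero (a : AA T) : phi T a = 0 ↔ a ∈ JJ T := Ideal.Quotient.eq_zero_iff_mem

/-- the trivial homomorphism through the augmentation -/
def psi : AA T →ₐ[ℂ] BB T := (Algebra.ofId ℂ (BB T)).comp (chi T)

theorem psi_apply (a : AA T) : psi T a = algebraMap ℂ (BB T) (chi T a) := rfl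

theorem psi_continuous : Continuous (psi T) := by
  have : Continuous (fun a => algebraMap ℂ (BB T) (chi T a)) :=
    (continuous_algebraMap ℂ (BB T)).comp (chi_continuous T)
  exact this

theorem F_mono {n m : ℕ} (h : n ≤ m) : T.F n ⊆ T.F m := by
  induction m, h using Nat.le_induction with
  | base => exact subset_rfl
  | succ k _ ih => exact ih.trans (T.hF k)

theorem r_mono : StrictMono T.r := strictMono_nat_of_lt_succ T.hr

theorem norm_phi_pow_le (n i L : ℕ)
    (h : ((((n + 1 : ℕ) : ℂ)) ^ L) • (MvPolynomial.X i : P) ^ L ∈ T.F n) :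
    ‖phi T (emb T (eP T (MvPolynomial.X i)) ^ L)‖ ≤ (1 / ((n : ℝ) + 1)) ^ L := by
  set y : Afin T := ⟨((MvPolynomial.X i) ^ L,
    fun m => if m < n then 0 else T.σ m ((MvPolynomial.X i) ^ L)),
    ⟨n, fun m hm => if_neg (not_lt.2 hm)⟩⟩ with hy
  have h1 : phi T (emb T (eP T (MvPolynomial.X i)) ^ L) = phi T (emb T y) := by
    rw [← sub_eq_zero, ← map_sub, phi_eq_zero, ← map_pow, ← map_pow, ← map_sub]
    apply emb_mem_JJ T _ (M := n)
    intro m hm
    show T.σ m ((MvPolynomial.X i) ^ L) - (if m < n then 0 else T.σ m ((MvPolynomial.X i) ^ L)) = 0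
    rw [if_neg (not_lt.2 hm), sub_self]
  rw [h1]
  refine (phi_norm_le T _).trans ?_
  rw [norm_emb]
  apply NA_le
  intro m
  show (gn T m).N (if m < n then 0 else T.σ m ((MvPolynomial.X i) ^ L)) ≤ _
  split_ifs with hm
  · rw [(gn T m).zero]; positivity
  · rw [not_lt] at hm
    have h2 : (gn T m).N (T.σ m (((((n + 1 : ℕ) : ℂ)) ^ L) • (MvPolynomial.X i : P) ^ L)) ≤ 1 :=
      gn_le_one T m (σ_mem_SB T m (F_mono T hm h))
    have hne : ((((n + 1 : ℕ) : ℂ)) ^ L) ≠ 0 := pow_ne_zero _ (Nat.cast_ne_zero.2 (by omega))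
    have h3 : T.σ m ((MvPolynomial.X i : P) ^ L) = ((((n + 1 : ℕ) : ℂ)) ^ L)⁻¹ •
        T.σ m (((((n + 1 : ℕ) : ℂ)) ^ L) • (MvPolynomial.X i : P) ^ L) := by
      rw [map_smul, smul_smul, inv_mul_cancel₀ hne, one_smul]
    rw [h3]
    refine ((gn T m).smul _ _).trans ?_
    have h4 : ‖((((n + 1 : ℕ) : ℂ)) ^ L)⁻¹‖ = (1 / ((n : ℝ) + 1)) ^ L := by
      rw [norm_inv, norm_pow, Complex.norm_natCast, one_div, inv_pow]
      push_cast
      rfl
    rw [h4]
    have h5 : (0 : ℝ) ≤ (1 / ((n : ℝ) + 1)) ^ L := by positivity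
    nlinarith

theorem algHom_phi_X (f : BB T →ₐ[ℂ] ℂ) (i : ℕ) :
    f (phi T (emb T (eP T (MvPolynomial.X i)))) = 0 := by
  have hf : ∀ b : BB T, ‖f b‖ ≤ ‖b‖ * ‖(1 : BB T)‖ := fun b =>
    AlgHom.norm_apply_le_self_mul_norm_one f b
  have h1 : ‖(1 : BB T)‖ ≤ 1 := by
    have h2 : (1 : BB T) = phi T (emb T 1) := by rw [map_one, map_one]
    rw [h2]
    refine (phi_norm_le T _).trans ?_
    rw [norm_emb]
    apply NA_le
    intro n
    exact gn_one_le T n
  have hf' : ∀ b : BB T, ‖f b‖ ≤ ‖b‖ := by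
    intro b
    have := hf b
    nlinarith [norm_nonneg b]
  have key : ∀ n, i < T.r n → ‖f (phi T (emb T (eP T (MvPolynomial.X i))))‖ ≤ 1 / ((n : ℝ) + 1) := by
    intro n hn
    obtain ⟨L, hL, h⟩ := T.nil n i hn
    have h3 := norm_phi_pow_le T n i L h
    have h4 := hf' (phi T (emb T (eP T (MvPolynomial.X i)) ^ L))
    rw [map_pow, map_pow, norm_pow, ← map_pow] at h4
    exact le_of_pow_le_pow_left₀ (by omega) (by positivity) (h4.trans h3)
  rw [← norm_le_zero_iff]
  apply le_of_forall_pos_le_add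
  intro ε hε
  obtain ⟨n, hn⟩ := exists_nat_gt (1 / ε)
  have h5 : i < T.r (max (i + 1) n) := by
    have := (r_mono T).le_apply (x := max (i + 1) n)
    have := le_max_left (i + 1) n
    omega
  refine (key _ h5).trans ?_
  rw [zero_add, one_div_le (by positivity) hε]
  have h6 : (n : ℝ) ≤ ((max (i + 1) n : ℕ) : ℝ) := by exact_mod_cast le_max_right _ _
  linarith

theorem algHom_phi (f : BB T →ₐ[ℂ] ℂ) (hf : Continuous f) (a : AA T) :
    f (phi T a) = chi T a := by
  have h1 : ((f.comp (phi T)).comp (emb T)).comp (eP T) =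
      MvPolynomial.aeval (fun _ : ℕ => (0 : ℂ)) := by
    apply MvPolynomial.algHom_ext
    intro i
    rw [MvPolynomial.aeval_X]
    exact algHom_phi_X T f i
  have h2 : ∀ x : Afin T, f (phi T (emb T x)) = chi T (emb T x) := by
    intro x
    have h3 : phi T (emb T x) = phi T (emb T (eP T x.1.1)) := by
      rw [← sub_eq_zero, ← map_sub, phi_eq_zero, ← map_sub]
      obtain ⟨M, hM⟩ := x.2
      apply emb_mem_JJ T _ (M := M)
      intro n hn
      show x.1.2 n - T.σ n x.1.1 = 0
      rw [hM n hn, sub_self]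
    rw [h3, chi_emb]
    have h4 := congrArg (fun g : P →ₐ[ℂ] ℂ => g x.1.1) h1
    have h5 : (MvPolynomial.aeval (fun _ : ℕ => (0 : ℂ)) : P →ₐ[ℂ] ℂ) x.1.1 =
        MvPolynomial.constantCoeff x.1.1 := by
      simp
    rw [← h5]
    exact h4
  have h6 : (fun a => f (phi T a)) = fun a => chi T a :=
    (dense_emb T).equalizer (hf.comp (phi_continuous T)) (chi_continuous T) (funext h2)
  exact congrFun h6 a

theorem phi_X0_ne : phi T (emb T (eP T (MvPolynomial.X 0))) ≠ 0 := by
  rw [Ne, phi_eq_zero, mem_JJ]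
  intro h
  have h1 : ∀ n, 1 / 4 ≤ ‖pr T n (emb T (eP T (MvPolynomial.X 0)))‖ := by
    intro n
    rw [pr_emb, norm_jn]
    have h2 := le_gaugeSn (SB T n) (span_SB T n) (T.Φ n) (zero_le_two) (T.hΦ n)
      (T.σ n (MvPolynomial.X 0))
    have h3 := T.hΦ0 n
    show 1 / 4 ≤ (gaugeSn (SB T n) (span_SB T n)).N (T.σ n (MvPolynomial.X 0))
    linarith
  have h4 := ge_of_tendsto' h h1
  norm_num at h4

theorem algHom_phi' (f : BB T →ₐ[ℂ] ℂ) (a : AA T) : f (phi T a) = chi T a :=
  algHom_phi T f (map_continuous f) a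

theorem phi_X0_ne_chi : phi T (emb T (eP T (MvPolynomial.X 0))) ≠
    algebraMap ℂ (BB T) (chi T (emb T (eP T (MvPolynomial.X 0)))) := by
  rw [chi_emb]
  show _ ≠ algebraMap ℂ (BB T) (MvPolynomial.constantCoeff (MvPolynomial.X 0 : P))
  rw [MvPolynomial.constantCoeff_X, map_zero]
  exact phi_X0_ne T

theorem spectrum_sub (a : AA T) : spectrum ℂ (phi T a - psi T a) ⊆ {0} := by
  intro z hz
  by_cases hB : Nontrivial (BB T)
  · obtain ⟨f, hf⟩ := (WeakDual.CharacterSpace.mem_spectrum_iff_exists).1 hz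
    have h1 := algHom_phi T (WeakDual.CharacterSpace.toAlgHom f) f.1.continuous a
    have h2 : f (psi T a) = chi T a := by
      rw [psi_apply]
      exact (WeakDual.CharacterSpace.toAlgHom f).commutes _
    have h3 : f (phi T a) = chi T a := h1
    rw [map_sub, h3, h2, sub_self] at hf
    exact hf.symm
  · exfalso
    have : Subsingleton (BB T) := not_nontrivial_iff_subsingleton.1 hB
    rw [spectrum.of_subsingleton] at hz
    exact hz

theorem phi_ne_psi : phi T ≠ psi T := by
  intro h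
  apply phi_X0_ne T
  rw [h, psi_apply, chi_emb]
  show algebraMap ℂ (BB T) (MvPolynomial.constantCoeff (MvPolynomial.X 0 : P)) = 0
  rw [MvPolynomial.constantCoeff_X, map_zero]

/-- summary: everything except amenability -/
theorem assembly (T : Tower) : (∀ a : AA T, spectrum ℂ a ⊆ {0} → a = 0) ∧
    Continuous (phi T) ∧ Function.Surjective (phi T) ∧ Continuous (psi T) ∧
    (∀ a, psi T a = algebraMap ℂ (BB T) (chi T a)) ∧
    (∀ a, spectrum ℂ (phi T a - psi T a) ⊆ {0}) ∧ phi T ≠ psi T :=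
  ⟨semisimple T, phi_continuous T, phi_surjective T, psi_continuous T, psi_apply T,
    spectrum_sub T, phi_ne_psi T⟩

end

end Pool.Hom82
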