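import Pool.Agent.Work.MP_8222c7_an.Gauge

/-!
The algebra built from a `Tower`: eventually constant-type sequences, their norm, the completion.
-/

set_option autoImplicit false

namespace Pool.Hom82

open Finset Filter

noncomputable section

section walsh

variable {I : Type} [Fintype I]

theorem walshU_add (g h : Gp I) (z : Om I) : walshU (g + h) z = walshU g z * walshU h z := by
  unfold walshU
  rw [← Finset.prod_mul_distrib]
  refine Finset.prod_congr rfl fun k _ => ?_
  rw [Pi.add_apply, ZMod.val_add, ← pow_add]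
  exact (Int.units_pow_eq_pow_mod_two (z k) _).symm

theorem walsh_add (g h : Gp I) : walsh (g + h) = walsh g * walsh h := by
  funext z
  simp only [walsh, Pi.mul_apply, walshU_add]
  push_cast
  ring

theorem walsh_zero : walsh (0 : Gp I) = 1 := by
  funext z
  simp [walsh, walshU]

theorem walsh_uv [DecidableEq I] (k : I) (z : Om I) : walsh (uv k) z = ((z k : ℤ) : ℂ) := by
  unfold walsh walshU uv
  rw [Finset.prod_eq_single k]
  · have : (1 : ZMod 2).val = 1 := rfl
    simp [this]
  · intro j _ hj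
    simp [Pi.single_eq_of_ne hj]
  · intro h; exact absurd (Finset.mem_univ k) h

theorem walsh_norm (g : Gp I) (z : Om I) : ‖walsh g z‖ = 1 := by
  unfold walsh
  rcases Int.units_eq_one_or (walshU g z) with h | h <;> simp [h]

/-- the Walsh functions form a submonoid -/
def walshM (I : Type) [Fintype I] : Submonoid (Om I → ℂ) where
  carrier := Set.range (walsh (I := I))
  one_mem' := ⟨0, walsh_zero⟩
  mul_mem' := by
    rintro _ _ ⟨g, rfl⟩ ⟨h, rfl⟩
    exact ⟨g + h, walsh_add g h⟩

theorem span_walsh (I : Type) [Fintype I] :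
    Submodule.span ℂ (Set.range (walsh (I := I))) = ⊤ := by
  classical
  have h0 : Submodule.span ℂ (Set.range (walsh (I := I))) =
      Subalgebra.toSubmodule (Algebra.adjoin ℂ (Set.range (walsh (I := I)))) := by
    rw [Algebra.adjoin_eq_span]
    have : (Submonoid.closure (Set.range (walsh (I := I))) : Submonoid (Om I → ℂ)) = walshM I :=
      Submonoid.closure_eq (walshM I)
    rw [this]
    rfl
  rw [h0, eq_top_iff]
  rintro f -
  show f ∈ Algebra.adjoin ℂ (Set.range (walsh (I := I)))
  have hco : ∀ k : I, (fun z : Om I => ((z k : ℤ) : ℂ)) ∈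
      Algebra.adjoin ℂ (Set.range (walsh (I := I))) := by
    intro k
    apply Algebra.subset_adjoin
    exact ⟨uv k, by funext z; exact walsh_uv k z⟩
  have hind : ∀ w : Om I, (Pi.single w 1 : Om I → ℂ) ∈
      Algebra.adjoin ℂ (Set.range (walsh (I := I))) := by
    intro w
    have : (Pi.single w 1 : Om I → ℂ) =
        ∏ k, ((1 / 2 : ℂ) • ((1 : Om I → ℂ) +
          (((w k : ℤ) : ℂ)) • (fun z : Om I => ((z k : ℤ) : ℂ)))) := by
      funext z
      rw [Finset.prod_apply]
      by_cases hz : z = w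
      · subst hz
        rw [Pi.single_eq_same]
        symm
        apply Finset.prod_eq_one
        intro k _
        rcases Int.units_eq_one_or (z k) with h | h <;> simp [h] <;> norm_num
      · rw [Pi.single_eq_of_ne hz]
        obtain ⟨k, hk⟩ : ∃ k, z k ≠ w k := by
          by_contra h
          push Not at h
          exact hz (funext h)
        symm
        apply Finset.prod_eq_zero (Finset.mem_univ k)
        rcases Int.units_eq_one_or (z k) with h | h <;>
          rcases Int.units_eq_one_or (w k) with h' | h' <;> simp_all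
    rw [this]
    apply Subalgebra.prod_mem
    intro k _
    apply Subalgebra.smul_mem
    apply Subalgebra.add_mem _ (Subalgebra.one_mem _)
    exact Subalgebra.smul_mem _ (hco k) _
  have : f = ∑ w, f w • (Pi.single w 1 : Om I → ℂ) := by
    funext z
    rw [Finset.sum_apply]
    simp [Pi.single_apply]
  rw [this]
  exact Subalgebra.sum_mem _ fun w _ => Subalgebra.smul_mem _ (hind w) _

end walsh

variable (T : Tower)

/-- the monoid of level `n` -/
def SB (n : ℕ) : Submonoid (Om (T.I n) → ℂ) :=
  Submonoid.closure (Set.range (walsh (I := T.I n)) ∪ (T.σ n) '' (T.F n))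

theorem span_SB (n : ℕ) : Submodule.span ℂ (SB T n : Set (Om (T.I n) → ℂ)) = ⊤ := by
  rw [eq_top_iff, ← span_walsh (T.I n)]
  apply Submodule.span_mono
  exact Set.subset_union_left.trans Submonoid.subset_closure

/-- gauge of level `n` -/
def gn (n : ℕ) : AlgSn (Om (T.I n) → ℂ) := gaugeSn (SB T n) (span_SB T n)

theorem gn_le_one (n : ℕ) {s : Om (T.I n) → ℂ} (hs : s ∈ SB T n) : (gn T n).N s ≤ 1 :=
  gaugeSn_le_one _ _ hs

theorem walsh_mem_SB (n : ℕ) (g : Gp (T.I n)) : walsh g ∈ SB T n :=
  Submonoid.subset_closure (Or.inl ⟨g, rfl⟩)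

theorem σ_mem_SB (n : ℕ) {p : P} (hp : p ∈ T.F n) : T.σ n p ∈ SB T n :=
  Submonoid.subset_closure (Or.inr ⟨p, hp, rfl⟩)

theorem gn_one_le (n : ℕ) : (gn T n).N 1 ≤ 1 := gn_le_one T n (SB T n).one_mem

theorem gn_X_le (n i : ℕ) : (gn T n).N (T.σ n (MvPolynomial.X i)) ≤ 1 := by
  by_cases h : i < T.r n
  · exact gn_le_one T n (σ_mem_SB T n (T.hX n i h))
  · rw [T.hσ n i (not_lt.1 h), (gn T n).zero]
    exact zero_le_one

/-- bound for polynomials, uniform in the level -/
theorem exists_poly_bound (p : P) : ∃ C : ℝ, 0 ≤ C ∧ ∀ n, (gn T n).N (T.σ n p) ≤ C := by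
  induction p using MvPolynomial.induction_on with
  | C a =>
    refine ⟨‖a‖, norm_nonneg _, fun n => ?_⟩
    have h1 : T.σ n (MvPolynomial.C a) = a • (1 : Om (T.I n) → ℂ) := by
      have : (MvPolynomial.C a : P) = algebraMap ℂ P a := rfl
      rw [this, AlgHom.commutes, Algebra.algebraMap_eq_smul_one]
    rw [h1]
    refine ((gn T n).smul a 1).trans ?_
    have := gn_one_le T n
    nlinarith [norm_nonneg a]
  | add p q hp hq =>
    obtain ⟨C, hC, h⟩ := hp
    obtain ⟨D, hD, h'⟩ := hq
    refine ⟨C + D, by positivity, fun n => ?_⟩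
    rw [map_add]
    exact ((gn T n).add _ _).trans (add_le_add (h n) (h' n))
  | mul_X p i hp =>
    obtain ⟨C, hC, h⟩ := hp
    refine ⟨C, hC, fun n => ?_⟩
    rw [map_mul]
    refine ((gn T n).mul _ _).trans ?_
    have h1 := gn_X_le T n i
    have h2 := (gn T n).nonneg (T.σ n p)
    have h3 := (gn T n).nonneg (T.σ n (MvPolynomial.X i))
    have h4 := h n
    nlinarith

/-- pairs (polynomial, sequence of functions), eventually compatible -/
def Afin : Subalgebra ℂ (P × (∀ n, Om (T.I n) → ℂ)) where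
  carrier := {x | ∃ M, ∀ n, M ≤ n → x.2 n = T.σ n x.1}
  mul_mem' := by
    rintro x y ⟨M, h⟩ ⟨M', h'⟩
    refine ⟨max M M', fun n hn => ?_⟩
    show x.2 n * y.2 n = T.σ n (x.1 * y.1)
    rw [map_mul, h n (le_of_max_le_left hn), h' n (le_of_max_le_right hn)]
  add_mem' := by
    rintro x y ⟨M, h⟩ ⟨M', h'⟩
    refine ⟨max M M', fun n hn => ?_⟩
    show x.2 n + y.2 n = T.σ n (x.1 + y.1)
    rw [map_add, h n (le_of_max_le_left hn), h' n (le_of_max_le_right hn)]
  algebraMap_mem' := by
    intro c
    refine ⟨0, fun n _ => ?_⟩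
    show algebraMap ℂ (Om (T.I n) → ℂ) c = T.σ n (algebraMap ℂ P c)
    rw [AlgHom.commutes]

theorem mem_Afin {x : P × (∀ n, Om (T.I n) → ℂ)} :
    x ∈ Afin T ↔ ∃ M, ∀ n, M ≤ n → x.2 n = T.σ n x.1 := Iff.rfl

theorem Afin_bdd (x : Afin T) : BddAbove (Set.range fun n => (gn T n).N (x.1.2 n)) := by
  obtain ⟨M, hM⟩ := x.2
  obtain ⟨C, hC, h⟩ := exists_poly_bound T x.1.1
  refine ⟨C + ∑ n ∈ range M, (gn T n).N (x.1.2 n), ?_⟩
  rintro _ ⟨n, rfl⟩
  by_cases hn : M ≤ n
  · show (gn T n).N (x.1.2 n) ≤ _
    rw [hM n hn]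
    have := Finset.sum_nonneg (s := range M) fun n _ => (gn T n).nonneg (x.1.2 n)
    linarith [h n]
  · have h1 := Finset.single_le_sum (f := fun n => (gn T n).N (x.1.2 n))
      (fun n _ => (gn T n).nonneg (x.1.2 n)) (Finset.mem_range.2 (not_le.1 hn))
    show (gn T n).N (x.1.2 n) ≤ _
    linarith

/-- sup norm -/
def NA : AlgSn (Afin T) where
  N x := ⨆ n, (gn T n).N (x.1.2 n)
  nonneg x := Real.iSup_nonneg fun n => (gn T n).nonneg _
  zero := le_antisymm (ciSup_le fun n => le_of_eq (gn T n).zero)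
    (Real.iSup_nonneg fun n => (gn T n).nonneg _)
  add x y := by
    apply ciSup_le
    intro n
    refine ((gn T n).add _ _).trans ?_
    exact add_le_add (le_ciSup (Afin_bdd T x) n) (le_ciSup (Afin_bdd T y) n)
  smul c x := by
    apply ciSup_le
    intro n
    refine ((gn T n).smul c _).trans ?_
    exact mul_le_mul_of_nonneg_left (le_ciSup (Afin_bdd T x) n) (norm_nonneg c)
  mul x y := by
    apply ciSup_le
    intro n
    refine ((gn T n).mul _ _).trans ?_
    exact mul_le_mul (le_ciSup (Afin_bdd T x) n) (le_ciSup (Afin_bdd T y) n)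
      ((gn T n).nonneg _) (Real.iSup_nonneg fun n => (gn T n).nonneg _)

theorem le_NA (x : Afin T) (n : ℕ) : (gn T n).N (x.1.2 n) ≤ (NA T).N x :=
  le_ciSup (Afin_bdd T x) n

theorem NA_le (x : Afin T) {c : ℝ} (h : ∀ n, (gn T n).N (x.1.2 n) ≤ c) : (NA T).N x ≤ c :=
  ciSup_le h

/-- the Banach algebra -/
abbrev AA : Type := UniformSpace.Completion (NA T).Ty

/-- the embedding of the dense subalgebra -/
def emb : Afin T →ₐ[ℂ] AA T where
  toFun x := (((NA T).to x : (NA T).Ty) : UniformSpace.Completion (NA T).Ty)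
  map_one' := UniformSpace.Completion.coe_one _
  map_mul' x y := UniformSpace.Completion.coe_mul _ _
  map_zero' := UniformSpace.Completion.coe_zero
  map_add' x y := UniformSpace.Completion.coe_add _ _
  commutes' c := by
    rw [UniformSpace.Completion.algebraMap_def]
    rfl

theorem norm_emb (x : Afin T) : ‖emb T x‖ = (NA T).N x :=
  UniformSpace.Completion.norm_coe _

theorem dense_emb : DenseRange (emb T) := by
  have h : DenseRange ((↑) : (NA T).Ty → UniformSpace.Completion (NA T).Ty) :=
    UniformSpace.Completion.denseRange_coe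
  exact h.comp ((NA T).to.surjective.denseRange) (UniformSpace.Completion.continuous_coe _)

end

end Pool.Hom82
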