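import Pool.Agent.Work.MP_8222c7_an.Step
import Pool.Agent.Work.MP_8222c7_an.AssemblyDefs

/-!
The chart of a state: a homomorphism of the polynomials into a cube algebra and a functional.
-/

set_option autoImplicit false

namespace Pool.Hom82

open Finset MvPolynomial

noncomputable section

section wbasis

variable (I : Type) [Fintype I] [DecidableEq I]

def walshBasis : Module.Basis (Gp I) ℂ (Om I → ℂ) :=
  basisOfTopLeSpanOfCardEqFinrank walsh (span_walsh I).ge (by
    rw [Module.finrank_fintype_fun_eq_card]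
    simp [ZMod.card])

theorem walshBasis_apply (g : Gp I) : walshBasis I g = walsh g := by
  simp [walshBasis]

end wbasis

section defs

variable (S : State) {δ κ : ℝ} (K : Kern S.L δ κ)

/-- the homomorphism -/
def sg : P →ₐ[ℂ] (Om (Fin S.r × K.I) → ℂ) :=
  aeval (fun i => if h : i < S.r then
    ∑ k, ((K.b k : ℝ) : ℂ) • walsh (uv ((⟨i, h⟩ : Fin S.r), k)) else 0)

theorem sg_X (j : Fin S.r) :
    sg S K (X (j : ℕ)) = ∑ k, ((K.b k : ℝ) : ℂ) • walsh (uv (j, k)) := by
  unfold sg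
  rw [aeval_X, dif_pos j.2]

theorem sg_X_ge {i : ℕ} (h : S.r ≤ i) : sg S K (X i) = 0 := by
  unfold sg
  rw [aeval_X, dif_neg (by omega)]

/-- the point -/
def zz : Om (Fin S.r × K.I) := fun p => K.z0 p.2

theorem sg_zz (i : ℕ) : sg S K (X i) (zz S K) = 0 := by
  rcases Nat.lt_or_ge i S.r with h | h
  · have h1 := sg_X S K ⟨i, h⟩
    simp only at h1
    rw [h1, Finset.sum_apply]
    have h2 : ∀ k, (((K.b k : ℝ) : ℂ) • walsh (uv ((⟨i, h⟩ : Fin S.r), k))) (zz S K)
        = ((K.b k * ((K.z0 k : ℤ) : ℝ) : ℝ) : ℂ) := by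
      intro k
      rw [Pi.smul_apply, walsh_uv, smul_eq_mul]
      simp [zz]
    simp_rw [h2]
    rw [← Complex.ofReal_sum, K.hz0]
    simp
  · rw [sg_X_ge S K h]
    rfl

/-- the functionals -/
def Ph (c : Fin S.r → ℕ) (g : GG S K) (a : P) : (Om (Fin S.r × K.I) → ℂ) →ₗ[ℂ] ℂ :=
  (walshBasis (Fin S.r × K.I)).constr ℂ (fun g' => hh S K c (g + g') a)

theorem Ph_walsh (c : Fin S.r → ℕ) (g : GG S K) (a : P) (g' : GG S K) :
    Ph S K c g a (walsh g') = hh S K c (g + g') a := by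
  have := (walshBasis (Fin S.r × K.I)).constr_basis ℂ (fun g' => hh S K c (g + g') a) g'
  rwa [walshBasis_apply] at this

theorem Ph_one (c : Fin S.r → ℕ) (g : GG S K) (a : P) : Ph S K c g a 1 = hh S K c g a := by
  rw [← walsh_zero, Ph_walsh, add_zero]

theorem w_ext {I : Type} [Fintype I] [DecidableEq I] {f g : (Om I → ℂ) →ₗ[ℂ] ℂ}
    (h : ∀ g', f (walsh g') = g (walsh g')) (Y : Om I → ℂ) : f Y = g Y := by
  have : f = g := by
    apply (walshBasis I).ext
    intro g'
    rw [walshBasis_apply]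
    exact h g'
  rw [this]

theorem Ph_mul_walsh (c : Fin S.r → ℕ) (g : GG S K) (a : P) (g' : GG S K)
    (Y : Om (Fin S.r × K.I) → ℂ) :
    Ph S K c g a (Y * walsh g') = Ph S K c (g + g') a Y := by
  have := w_ext (f := (Ph S K c g a).comp (LinearMap.mulRight ℂ (walsh g')))
    (g := Ph S K c (g + g') a) (fun g'' => by
      simp only [LinearMap.comp_apply, LinearMap.mulRight_apply]
      rw [← walsh_add, Ph_walsh, Ph_walsh]
      congr 1
      abel) Y
  simpa using this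

theorem Ph_mul_X (c : Fin S.r → ℕ) (g : GG S K) (a : P) (j : Fin S.r)
    (Y : Om (Fin S.r × K.I) → ℂ) :
    Ph S K c g a (Y * sg S K (X (j : ℕ)))
      = Ph S K c g (X (j : ℕ) * a) Y - Ph S K (c + Pi.single j 1) g a Y := by
  have := w_ext (f := (Ph S K c g a).comp (LinearMap.mulRight ℂ (sg S K (X (j : ℕ)))))
    (g := Ph S K c g (X (j : ℕ) * a) - Ph S K (c + Pi.single j 1) g a) (fun g'' => by
      simp only [LinearMap.comp_apply, LinearMap.mulRight_apply, LinearMap.sub_apply]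
      rw [sg_X, Finset.mul_sum, map_sum, Ph_walsh, Ph_walsh, hh_succ, sub_sub_cancel]
      apply Finset.sum_congr rfl
      intro k _
      rw [mul_smul_comm, map_smul, ← walsh_add, Ph_walsh, smul_eq_mul, add_assoc]) Y
  simpa using this

theorem Ph_add (c : Fin S.r → ℕ) (g : GG S K) (a b : P) (Y : Om (Fin S.r × K.I) → ℂ) :
    Ph S K c g (a + b) Y = Ph S K c g a Y + Ph S K c g b Y := by
  have := w_ext (f := Ph S K c g (a + b)) (g := Ph S K c g a + Ph S K c g b) (fun g' => by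
      rw [LinearMap.add_apply, Ph_walsh, Ph_walsh, Ph_walsh, hh_add]) Y
  simpa using this

theorem Ph_smul (c : Fin S.r → ℕ) (g : GG S K) (t : ℂ) (a : P) (Y : Om (Fin S.r × K.I) → ℂ) :
    Ph S K c g (t • a) Y = t * Ph S K c g a Y := by
  have := w_ext (f := Ph S K c g (t • a)) (g := t • Ph S K c g a) (fun g' => by
      rw [LinearMap.smul_apply, Ph_walsh, Ph_walsh, hh_smul, smul_eq_mul]) Y
  simpa using this

theorem Ph_kill (c : Fin S.r → ℕ) (g : GG S K) {a : P} (h : Ord S.L a)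
    (Y : Om (Fin S.r × K.I) → ℂ) : Ph S K c g a Y = 0 := by
  have := w_ext (f := Ph S K c g a) (g := 0) (fun g' => by
      rw [Ph_walsh, hh_kill S K c _ h]; rfl) Y
  simpa using this

theorem Ph_sum (c : Fin S.r → ℕ) (g : GG S K) {ι : Type} (s : Finset ι) (f : ι → P)
    (Y : Om (Fin S.r × K.I) → ℂ) :
    Ph S K c g (∑ i ∈ s, f i) Y = ∑ i ∈ s, Ph S K c g (f i) Y := by
  classical
  induction s using Finset.induction_on with
  | empty =>
    have := Ph_smul S K c g 0 0 Y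
    simpa using this
  | insert i s hi ih => rw [Finset.sum_insert hi, Finset.sum_insert hi, Ph_add, ih]

theorem mono_mem {d : ℕ →₀ ℕ} (hd : ∀ i, d i ≠ 0 → i < S.r) : (monomial d 1 : P) ∈ S.M := by
  rw [monomial_eq, map_one, one_mul]
  apply Submonoid.prod_mem
  intro i hi
  exact pow_mem (S.X_mem (hd i (Finsupp.mem_support_iff.1 hi))) _

theorem mono_err (hκ : 0 ≤ κ) {Y : Om (Fin S.r × K.I) → ℂ} {v : ℕ} {B : ℝ} (hB : 0 ≤ B)
    (hY : ∀ (c : Fin S.r → ℕ) (g : GG S K) (a : P), a ∈ S.M → Ord v a →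
      ‖Ph S K c g a Y‖ ≤ B * κ ^ (∑ j, c j)) (n : ℕ) :
    ∀ (d : ℕ →₀ ℕ), d.degree = n → (∀ i, d i ≠ 0 → i < S.r) →
      ∀ (c : Fin S.r → ℕ) (g : GG S K) (a : P), a ∈ S.M → Ord v a →
      ‖Ph S K c g a (Y * sg S K (monomial d 1)) - Ph S K c g (monomial d 1 * a) Y‖
        ≤ ((1 + κ) ^ n - 1) * (B * κ ^ (∑ j, c j)) := by
  induction n with
  | zero =>
    intro d hd _ c g a _ _
    rw [Finsupp.degree_eq_zero_iff] at hd
    subst hd
    have h1 : (monomial (0 : ℕ →₀ ℕ) (1 : ℂ) : P) = 1 := rfl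
    rw [h1, map_one, mul_one, one_mul, sub_self, norm_zero]
    simp
  | succ n ih =>
    intro d hd hdr c g a ha hv
    obtain ⟨i, hi⟩ : ∃ i, d i ≠ 0 := by
      by_contra h
      push Not at h
      have : d = 0 := Finsupp.ext h
      rw [this] at hd
      simp at hd
    have hir := hdr i hi
    obtain ⟨d', hd'⟩ : ∃ d', d = d' + Finsupp.single i 1 := by
      refine ⟨d - Finsupp.single i 1, ?_⟩
      rw [tsub_add_cancel_of_le]
      rw [Finsupp.single_le_iff]
      omega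
    have hdeg : d'.degree = n := by
      rw [hd', map_add, Finsupp.degree_single] at hd
      omega
    have hdr' : ∀ i, d' i ≠ 0 → i < S.r := by
      intro i' hi'
      apply hdr i'
      rw [hd']
      simp only [Finsupp.add_apply]
      omega
    have e1 : (monomial d 1 : P) = monomial d' 1 * X ((⟨i, hir⟩ : Fin S.r) : ℕ) := by
      rw [hd', X, monomial_mul, one_mul]
    have e2 : Y * sg S K (monomial d 1) = (Y * sg S K (monomial d' 1)) *
        sg S K (X ((⟨i, hir⟩ : Fin S.r) : ℕ)) := by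
      rw [e1, map_mul, mul_assoc]
    have e3 : (monomial d 1 : P) * a = monomial d' 1 * (X ((⟨i, hir⟩ : Fin S.r) : ℕ) * a) := by
      rw [e1, mul_assoc]
    rw [e2, e3, Ph_mul_X]
    set j : Fin S.r := ⟨i, hir⟩
    have h1 := ih d' hdeg hdr' c g (X (j : ℕ) * a) (mul_mem (S.X_mem hir) ha) (hv.mul_left _)
    have h2 := ih d' hdeg hdr' (c + Pi.single j 1) g a ha hv
    have h3 := hY (c + Pi.single j 1) g (monomial d' 1 * a) (mul_mem (mono_mem S hdr') ha)
      (hv.mul_left _)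
    have e4 : ∑ j', (c + Pi.single j 1 : Fin S.r → ℕ) j' = ∑ j, c j + 1 := by
      simp [Finset.sum_add_distrib]
    rw [e4] at h2 h3
    set x1 := Ph S K c g (X (j : ℕ) * a) (Y * sg S K (monomial d' 1))
    set x2 := Ph S K c g (monomial d' 1 * (X (j : ℕ) * a)) Y
    set y1 := Ph S K (c + Pi.single j 1) g a (Y * sg S K (monomial d' 1))
    set y2 := Ph S K (c + Pi.single j 1) g (monomial d' 1 * a) Y
    have e5 : x1 - y1 - x2 = (x1 - x2) - (y1 - y2) - y2 := by ring
    rw [e5]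
    calc ‖(x1 - x2) - (y1 - y2) - y2‖ ≤ ‖x1 - x2‖ + ‖y1 - y2‖ + ‖y2‖ :=
          (norm_sub_le _ _).trans (add_le_add_left (norm_sub_le _ _) _)
      _ ≤ ((1 + κ) ^ n - 1) * (B * κ ^ (∑ j, c j)) +
          ((1 + κ) ^ n - 1) * (B * κ ^ (∑ j, c j + 1)) + B * κ ^ (∑ j, c j + 1) :=
          add_le_add (add_le_add h1 h2) h3
      _ = ((1 + κ) ^ (n + 1) - 1) * (B * κ ^ (∑ j, c j)) := by
          rw [pow_succ, pow_succ]; ring

/-- weight of a polynomial -/
def wt (κ : ℝ) (s : P) : ℝ := ∑ d ∈ s.support, ‖coeff d s‖ * ((1 + κ) ^ d.degree - 1)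

theorem poly_err (hκ : 0 ≤ κ) {Y : Om (Fin S.r × K.I) → ℂ} {v : ℕ} {B : ℝ} (hB : 0 ≤ B)
    (hY : ∀ (c : Fin S.r → ℕ) (g : GG S K) (a : P), a ∈ S.M → Ord v a →
      ‖Ph S K c g a Y‖ ≤ B * κ ^ (∑ j, c j)) {s : P} (hs : s ∈ supported ℂ (Set.Iio S.r))
    (c : Fin S.r → ℕ) (g : GG S K) (a : P) (ha : a ∈ S.M) (hv : Ord v a) :
    ‖Ph S K c g a (Y * sg S K s) - Ph S K c g (s * a) Y‖ ≤ wt κ s * (B * κ ^ (∑ j, c j)) := by
  have hd : ∀ d ∈ s.support, ∀ i, d i ≠ 0 → i < S.r := by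
    intro d hd i hi
    have h1 : i ∈ s.vars := by
      rw [mem_vars_iff_mem_support]
      exact ⟨d, hd, by simpa using hi⟩
    exact (mem_supported.1 hs) h1
  have e0 := MvPolynomial.as_sum s
  have e1 : ∀ d, (monomial d (coeff d s) : P) = coeff d s • monomial d (1 : ℂ) := by
    intro d
    rw [smul_monomial, smul_eq_mul, mul_one]
  have e2 : Ph S K c g a (Y * sg S K s)
      = ∑ d ∈ s.support, coeff d s * Ph S K c g a (Y * sg S K (monomial d 1)) := by
    conv_lhs => rw [e0]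
    rw [map_sum, Finset.mul_sum, map_sum]
    apply Finset.sum_congr rfl
    intro d _
    rw [e1, map_smul, mul_smul_comm, map_smul, smul_eq_mul]
  have e3 : Ph S K c g (s * a) Y
      = ∑ d ∈ s.support, coeff d s * Ph S K c g (monomial d 1 * a) Y := by
    conv_lhs => rw [e0]
    rw [Finset.sum_mul, Ph_sum]
    apply Finset.sum_congr rfl
    intro d _
    rw [e1, smul_mul_assoc, Ph_smul]
  rw [e2, e3, ← Finset.sum_sub_distrib]
  refine (norm_sum_le _ _).trans ?_
  unfold wt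
  rw [Finset.sum_mul]
  apply Finset.sum_le_sum
  intro d hds
  rw [← mul_sub, norm_mul, mul_assoc]
  apply mul_le_mul_of_nonneg_left _ (norm_nonneg _)
  exact mono_err S K hκ hB hY d.degree d rfl (hd d hds) c g a ha hv

theorem Ph_bound (hδ : 0 ≤ δ) (hκ : 0 ≤ κ) {θ : ℝ} (hθ : 0 ≤ θ)
    (hw : ∀ s ∈ S.F, (1 + θ) * wt κ s ≤ θ) {Y : Om (Fin S.r × K.I) → ℂ}
    (hY : Y ∈ Submonoid.closure (Set.range (walsh (I := Fin S.r × K.I)) ∪ sg S K '' S.F)) :
    ∀ (v : ℕ) (c : Fin S.r → ℕ) (g : GG S K) (a : P), a ∈ S.M → Ord v a →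
      ‖Ph S K c g a Y‖ ≤ S.C * (1 + δ) ^ S.r * (1 + θ) ^ (S.L - v) * κ ^ (∑ j, c j) := by
  have hC : 0 ≤ S.C * (1 + δ) ^ S.r := mul_nonneg S.C_nonneg (by positivity)
  induction hY using Submonoid.closure_induction_right with
  | one =>
    intro v c g a ha _
    rw [Ph_one]
    refine (hh_bound S K c g ha).trans ?_
    apply mul_le_mul_of_nonneg_right _ (by positivity)
    exact le_mul_of_one_le_right hC (one_le_pow₀ (by linarith))
  | mul_right x hx y hy ih =>
    intro v c g a ha hv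
    rcases hy with ⟨g', rfl⟩ | ⟨s, hs, rfl⟩
    · rw [Ph_mul_walsh]
      exact ih v c (g + g') a ha hv
    · rcases Nat.lt_or_ge v S.L with h | h
      · obtain ⟨q, hq⟩ : ∃ q, S.L - v = q + 1 := ⟨S.L - v - 1, by omega⟩
        have hq' : S.L - (v + 1) = q := by omega
        have h1 := poly_err S K hκ (B := S.C * (1 + δ) ^ S.r * (1 + θ) ^ (S.L - v))
          (mul_nonneg hC (by positivity)) (ih v) (S.hFv s hs) c g a ha hv
        have h2 := ih (v + 1) c g (s * a) (mul_mem (Submonoid.subset_closure hs) ha) (by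
          rw [add_comm]; exact (ord_one_of (S.hF0 s hs)).mul hv)
        rw [hq'] at h2
        rw [hq] at h1 ⊢
        have h3 := hw s hs
        have h4 : Ph S K c g a (x * sg S K s)
            = (Ph S K c g a (x * sg S K s) - Ph S K c g (s * a) x) + Ph S K c g (s * a) x := by
          ring
        rw [h4]
        refine (norm_add_le _ _).trans ((add_le_add h1 h2).trans ?_)
        have hp : 0 ≤ S.C * (1 + δ) ^ S.r * (1 + θ) ^ q * κ ^ (∑ j, c j) :=
          mul_nonneg (mul_nonneg hC (by positivity)) (by positivity)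
        calc wt κ s * (S.C * (1 + δ) ^ S.r * (1 + θ) ^ (q + 1) * κ ^ (∑ j, c j)) +
              S.C * (1 + δ) ^ S.r * (1 + θ) ^ q * κ ^ (∑ j, c j)
            = ((1 + θ) * wt κ s + 1) * (S.C * (1 + δ) ^ S.r * (1 + θ) ^ q * κ ^ (∑ j, c j)) := by
              rw [pow_succ]; ring
          _ ≤ (θ + 1) * (S.C * (1 + δ) ^ S.r * (1 + θ) ^ q * κ ^ (∑ j, c j)) :=
              mul_le_mul_of_nonneg_right (by linarith) hp
          _ = _ := by rw [pow_succ]; ring
      · rw [Ph_kill S K c g (hv.mono h), norm_zero]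
        exact mul_nonneg (mul_nonneg hC (by positivity)) (by positivity)

end defs

end

end Pool.Hom82
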