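import Mathlib

/-!
A smooth cut-off with small differences.
-/

set_option autoImplicit false

namespace Pool.Hom82

noncomputable section

/-- `b`-th difference of the cut-off `l ↦ C(m-l,L)/C(m,L)` -/
def cutC (L m : ℕ) : ℕ → ℕ → ℝ
  | 0, l => ((m - l).choose L : ℝ) / (m.choose L : ℝ)
  | b + 1, l => cutC L m b l - cutC L m b (l + 1)

theorem cutC_zero_zero {L m : ℕ} (h : L ≤ m) : cutC L m 0 0 = 1 := by
  have : (0 : ℝ) < (m.choose L : ℝ) := by exact_mod_cast Nat.choose_pos h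
  simp only [cutC, Nat.sub_zero]
  exact div_self this.ne'

theorem cutC_eq_zero {L m : ℕ} (hL : 1 ≤ L) (b : ℕ) : ∀ l, m ≤ l → cutC L m b l = 0 := by
  induction b with
  | zero =>
    intro l hl
    have : m - l = 0 := by omega
    simp only [cutC, this]
    rw [Nat.choose_eq_zero_of_lt (by omega)]
    simp
  | succ b ih =>
    intro l hl
    simp only [cutC]
    rw [ih l hl, ih (l + 1) (by omega), sub_zero]

theorem cutC_formula {L m : ℕ} (b : ℕ) (hb : b < L) :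
    ∀ l, cutC L m b l = ((m - l - b).choose (L - b) : ℝ) / (m.choose L : ℝ) := by
  induction b with
  | zero => intro l; simp [cutC]
  | succ b ih =>
    intro l
    simp only [cutC]
    rw [ih (by omega) l, ih (by omega) (l + 1), ← sub_div]
    congr 1
    obtain ⟨q, hq⟩ : ∃ q, L - b = q + 1 := ⟨L - b - 1, by omega⟩
    have hq1 : L - (b + 1) = q := by omega
    have hq0 : 1 ≤ q := by omega
    rcases Nat.eq_zero_or_pos (m - l - b) with h0 | h0
    · have h1 : m - (l + 1) - b = 0 := by omega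
      have h2 : m - l - (b + 1) = 0 := by omega
      rw [h0, h1, h2, hq1]
      rw [Nat.choose_eq_zero_of_lt (by omega : 0 < q)]
      simp
    · obtain ⟨n, hn⟩ : ∃ n, m - l - b = n + 1 := ⟨m - l - b - 1, by omega⟩
      have h1 : m - (l + 1) - b = n := by omega
      have h2 : m - l - (b + 1) = n := by omega
      rw [hn, h1, h2, hq, hq1, Nat.choose_succ_succ]
      push_cast
      ring

theorem choose_ratio (L m : ℕ) (hL : L ≤ m) (b : ℕ) (hb : b ≤ L) :
    ((m - b).choose (L - b) : ℝ) * (m : ℝ) ^ b ≤ (L : ℝ) ^ b * (m.choose L : ℝ) := by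
  induction b with
  | zero => simp
  | succ b ih =>
    have ih' := ih (by omega)
    obtain ⟨n, hn⟩ : ∃ n, m - b = n + 1 := ⟨m - b - 1, by omega⟩
    obtain ⟨q, hq⟩ : ∃ q, L - b = q + 1 := ⟨L - b - 1, by omega⟩
    have h1 : m - (b + 1) = n := by omega
    have h2 : L - (b + 1) = q := by omega
    rw [h1, h2]
    rw [hn, hq] at ih'
    have h3 : ((n + 1 : ℕ) : ℝ) * (n.choose q : ℝ)
        = ((n + 1).choose (q + 1) : ℝ) * ((q + 1 : ℕ) : ℝ) := by
      exact_mod_cast Nat.add_one_mul_choose_eq n q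
    -- m * (q+1) ≤ L * (n+1)
    have h4 : (m : ℝ) * ((q + 1 : ℕ) : ℝ) ≤ (L : ℝ) * ((n + 1 : ℕ) : ℝ) := by
      rw [← hn, ← hq, Nat.cast_sub (by omega), Nat.cast_sub (by omega)]
      have : (L : ℝ) ≤ (m : ℝ) := by exact_mod_cast hL
      have hb0 : (0 : ℝ) ≤ (b : ℝ) := Nat.cast_nonneg b
      nlinarith
    have hn0 : (0 : ℝ) < ((n + 1 : ℕ) : ℝ) := by positivity
    have h5 : (n.choose q : ℝ) * (m : ℝ) ^ (b + 1) * ((n + 1 : ℕ) : ℝ)
        ≤ (L : ℝ) ^ (b + 1) * (m.choose L : ℝ) * ((n + 1 : ℕ) : ℝ) := by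
      calc (n.choose q : ℝ) * (m : ℝ) ^ (b + 1) * ((n + 1 : ℕ) : ℝ)
          = (((n + 1 : ℕ) : ℝ) * (n.choose q : ℝ)) * (m : ℝ) ^ b * m := by ring
        _ = (((n + 1).choose (q + 1) : ℝ) * (m : ℝ) ^ b) * (m * ((q + 1 : ℕ) : ℝ)) := by
            rw [h3]; ring
        _ ≤ ((L : ℝ) ^ b * (m.choose L : ℝ)) * ((L : ℝ) * ((n + 1 : ℕ) : ℝ)) := by
            apply mul_le_mul ih' h4 (by positivity) (by positivity)
        _ = (L : ℝ) ^ (b + 1) * (m.choose L : ℝ) * ((n + 1 : ℕ) : ℝ) := by ring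
    exact le_of_mul_le_mul_right h5 hn0

theorem cutC_bound {L m : ℕ} {ε : ℝ} (hε : 0 < ε) (hm : L ≤ m) (hm' : (L : ℝ) ≤ ε * m)
    (hm0 : 0 < m) (b : ℕ) (hb : b < L) (l : ℕ) : |cutC L m b l| ≤ ε ^ b := by
  rw [cutC_formula b hb]
  have hc : (0 : ℝ) < (m.choose L : ℝ) := by exact_mod_cast Nat.choose_pos hm
  rw [abs_of_nonneg (by positivity), div_le_iff₀ hc]
  have h1 : ((m - l - b).choose (L - b) : ℝ) ≤ ((m - b).choose (L - b) : ℝ) := by
    exact_mod_cast Nat.choose_le_choose _ (by omega)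
  have h2 := choose_ratio L m hm b hb.le
  have hmb : (0 : ℝ) < (m : ℝ) ^ b := by positivity
  have h3 : ((m - b).choose (L - b) : ℝ) * (m : ℝ) ^ b ≤ (ε ^ b * (m.choose L : ℝ)) * (m : ℝ) ^ b := by
    refine h2.trans ?_
    calc (L : ℝ) ^ b * (m.choose L : ℝ) ≤ (ε * m) ^ b * (m.choose L : ℝ) := by
          apply mul_le_mul_of_nonneg_right _ hc.le
          exact pow_le_pow_left₀ (Nat.cast_nonneg _) hm' _
      _ = (ε ^ b * (m.choose L : ℝ)) * (m : ℝ) ^ b := by rw [mul_pow]; ring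
  exact h1.trans (le_of_mul_le_mul_right h3 hmb)

theorem exists_cut (L : ℕ) {ε : ℝ} (hε : 0 < ε) :
    ∃ m : ℕ, 0 < m ∧ L ≤ m ∧ (L : ℝ) ≤ ε * m := by
  obtain ⟨n, hn⟩ := exists_nat_ge ((L : ℝ) / ε)
  refine ⟨max (max n L) 1, by positivity, ?_, ?_⟩
  · exact (le_max_right n L).trans (le_max_left _ _)
  · have h1 : (L : ℝ) ≤ ε * n := by
      rw [div_le_iff₀ hε] at hn
      linarith [mul_comm ε (n : ℝ)]
    refine h1.trans ?_
    apply mul_le_mul_of_nonneg_left _ hε.le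
    exact_mod_cast (le_max_left n L).trans (le_max_left _ _)

end

end Pool.Hom82
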