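import Mathlib

/-!
Common definitions for MP_8222c7_an: a commutative, unital, semisimple, amenable Banach algebra A
with two continuous homomorphisms into a commutative Banach algebra whose difference takes
quasinilpotent values and which are different.
-/

set_option autoImplicit false

namespace Pool.Hom82

open Finset

noncomputable section

/-- polynomials in countably many variables -/
abbrev P := MvPolynomial ℕ ℂ

/-- points of the finite cube -/
abbrev Om (I : Type) := I → ℤˣ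

/-- its dual group -/
abbrev Gp (I : Type) := I → ZMod 2

section walsh

variable {I : Type} [Fintype I]

/-- Walsh function (a sign) -/
def walshU (g : Gp I) (z : Om I) : ℤˣ := ∏ k, (z k) ^ (g k).val

/-- Walsh function, complex valued -/
def walsh (g : Gp I) (z : Om I) : ℂ := ((walshU g z : ℤˣ) : ℤ)

/-- unit vector -/
def uv [DecidableEq I] (k : I) : Gp I := Pi.single k 1

end walsh

/-- The output of the analytic part.  `tau c i g`, `c` = number of factors `D = x - F`, `i` = power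
of the nilpotent variable, `g` = element of the dual group of the cube. -/
structure Kern (L : ℕ) (δ κ : ℝ) where
  I : Type
  [fin : Fintype I]
  [dec : DecidableEq I]
  /-- coefficients of `F z = ∑ b k * z k` -/
  b : I → ℝ
  tau : ℕ → ℕ → Gp I → ℝ
  /-- a point where `F` vanishes -/
  z0 : Om I
  hz0 : ∑ k, b k * ((z0 k : ℤ) : ℝ) = 0
  rec0 : ∀ c g, tau (c + 1) 0 g = - ∑ k, b k * tau c 0 (g + uv k)
  rec1 : ∀ c i g, tau (c + 1) (i + 1) g = tau c i g - ∑ k, b k * tau c (i + 1) (g + uv k)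
  bound : ∀ c g, ∑ i ∈ range L, |tau c i g| ≤ (1 + δ) * κ ^ c
  one : tau 0 0 0 = 1

attribute [instance] Kern.fin Kern.dec

section algSn

/-- submultiplicative seminorm on a commutative complex algebra -/
structure AlgSn (T : Type) [CommRing T] [Algebra ℂ T] where
  N : T → ℝ
  nonneg : ∀ a, 0 ≤ N a
  zero : N 0 = 0
  add : ∀ a b, N (a + b) ≤ N a + N b
  smul : ∀ (c : ℂ) a, N (c • a) ≤ ‖c‖ * N a
  mul : ∀ a b, N (a * b) ≤ N a * N b

end algSn

/-- Johnson's condition, literally as in the frozen statement. -/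
def Amenable (A : Type) [NonUnitalNormedCommRing A] [NormedSpace ℂ A] [IsScalarTower ℂ A A]
    [SMulCommClass ℂ A A] : Prop :=
  ∀ (E : Type) [NormedAddCommGroup E] [NormedSpace ℂ E] [CompleteSpace E]
    (l r : A →L[ℂ] (E →L[ℂ] E)),
    (∀ a b : A, l (a * b) = (l a).comp (l b)) →
    (∀ a b : A, r (a * b) = (r b).comp (r a)) →
    (∀ a b : A, (l a).comp (r b) = (r b).comp (l a)) →
    ∀ D : A →L[ℂ] (E →L[ℂ] ℂ),
      (∀ (a b : A) (x : E), D (a * b) x = D b (r a x) + D a (l b x)) →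
      ∃ f : E →L[ℂ] ℂ, ∀ (a : A) (x : E), D a x = f (r a x) - f (l a x)

/-- Finite families `lam j • (b j ⊗ c j)` (index type `J k`), bounded, asymptotically a diagonal. -/
structure ApproxDiag (A : Type) [NormedCommRing A] [NormedAlgebra ℂ A] where
  J : ℕ → Type
  [fin : ∀ k, Fintype (J k)]
  lam : ∀ k, J k → ℂ
  b : ∀ k, J k → A
  c : ∀ k, J k → A
  C : ℝ
  bdd : ∀ k, ∑ j, ‖lam k j‖ * ‖b k j‖ * ‖c k j‖ ≤ C
  unit : Filter.Tendsto (fun k => ∑ j, lam k j • (b k j * c k j)) Filter.atTop (nhds 1)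
  comm : ∀ a : A, ∀ β : A →L[ℂ] A →L[ℂ] ℂ,
    Filter.Tendsto (fun k => ∑ j, lam k j * (β (a * b k j) (c k j) - β (b k j) (c k j * a)))
      Filter.atTop (nhds 0)

/-- The combinatorial tower from which the algebras are built. -/
structure Tower where
  r : ℕ → ℕ
  hr : ∀ n, r n < r (n + 1)
  F : ℕ → Set P
  hF : ∀ n, F n ⊆ F (n + 1)
  hX : ∀ n, ∀ i < r n, (MvPolynomial.X i : P) ∈ F n
  hF0 : ∀ n, ∀ s ∈ F n, MvPolynomial.constantCoeff s = 0
  I : ℕ → Type
  [finI : ∀ n, Fintype (I n)]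
  [decI : ∀ n, DecidableEq (I n)]
  σ : ∀ n, P →ₐ[ℂ] (Om (I n) → ℂ)
  hσ : ∀ n, ∀ i, r n ≤ i → σ n (MvPolynomial.X i) = 0
  z : ∀ n, Om (I n)
  hz : ∀ n i, σ n (MvPolynomial.X i) (z n) = 0
  Φ : ∀ n, (Om (I n) → ℂ) →ₗ[ℂ] ℂ
  hΦ : ∀ n, ∀ s ∈ Submonoid.closure (Set.range (walsh (I := I n)) ∪ (σ n) '' (F n)), ‖Φ n s‖ ≤ 2
  hΦ0 : ∀ n, 1 / 2 ≤ ‖Φ n (σ n (MvPolynomial.X 0))‖
  nil : ∀ n, ∀ i < r n, ∃ L : ℕ, 1 ≤ L ∧
    ((((n + 1 : ℕ) : ℂ)) ^ L) • (MvPolynomial.X i : P) ^ L ∈ F n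
  /-- group of level n, its new variables -/
  H : ℕ → Type
  [finH : ∀ n, Fintype (H n)]
  [decH : ∀ n, DecidableEq (H n)]
  e : ∀ n, Gp (H n) → ℕ
  he : ∀ n g, e n g < r (n + 1)
  d1 : ∀ n, ∀ i < r n, ((n + 1 : ℕ) : ℂ) •
    (((1 : P) - MvPolynomial.X (e n 0)) * MvPolynomial.X i) ∈ F (n + 1)
  d2 : ∀ n, ∀ i < r n, ∃ (c : H n → ℂ), ∀ g, ((n + 1 : ℕ) : ℂ) •
    ((MvPolynomial.X (e n g) : P) * MvPolynomial.X i
      - ∑ k, c k • MvPolynomial.X (e n (g + uv k))) ∈ F (n + 1)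
  d3 : ∀ n, ∀ g : Gp (H n), ((n + 1 : ℕ) : ℂ) •
    ((MvPolynomial.X (e n g) : P) * MvPolynomial.X (e n g)
      - MvPolynomial.X (e n 0) * MvPolynomial.X (e n 0)) ∈ F (n + 1)

attribute [instance] Tower.finI Tower.decI Tower.finH Tower.decH ApproxDiag.fin

end

end Pool.Hom82
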