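import Pool.Agent.Work.MP_8222c7_an.Gauge

/-!
The Banach algebra (completion) of an `AlgSn`, and extension of homomorphisms and linear maps.
-/

set_option autoImplicit false

namespace Pool.Hom82

open Filter Topology UniformSpace

noncomputable section

section basic

variable {T : Type} [CommRing T] [Algebra ℂ T] (N : AlgSn T)

theorem AlgSn.sub (a b : T) : N.N (a - b) ≤ N.N a + N.N b := by
  rw [sub_eq_add_neg, ← N.neg b]
  exact N.add _ _

theorem AlgSn.sum {ι : Type} (s : Finset ι) (f : ι → T) :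
    N.N (∑ i ∈ s, f i) ≤ ∑ i ∈ s, N.N (f i) := by
  classical
  induction s using Finset.induction_on with
  | empty => simp [N.zero]
  | insert i s hi ih =>
    rw [Finset.sum_insert hi, Finset.sum_insert hi]
    exact (N.add _ _).trans (by linarith)

theorem AlgSn.pow (a : T) (n : ℕ) (hn : 0 < n) : N.N (a ^ n) ≤ N.N a ^ n := by
  induction n, hn using Nat.le_induction with
  | base => simp
  | succ n hn ih =>
    rw [pow_succ, pow_succ]
    exact (N.mul _ _).trans (mul_le_mul_of_nonneg_right ih (N.nonneg a))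

/-- the Banach algebra of a seminorm -/
abbrev AlgSn.Comp : Type := Completion N.Ty

/-- the dense image -/
def AlgSn.emb : T →ₐ[ℂ] N.Comp where
  toFun a := ((N.to a : N.Ty) : Completion N.Ty)
  map_one' := Completion.coe_one _
  map_mul' a b := by rw [map_mul]; exact Completion.coe_mul _ _
  map_zero' := Completion.coe_zero
  map_add' a b := by rw [map_add]; exact Completion.coe_add _ _
  commutes' c := rfl

theorem AlgSn.emb_def (a : T) : N.emb a = ((N.to a : N.Ty) : Completion N.Ty) := rfl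

theorem AlgSn.norm_emb (a : T) : ‖N.emb a‖ = N.N a := Completion.norm_coe (N.to a)

theorem AlgSn.dense_emb : DenseRange N.emb :=
  (Completion.denseRange_coe : DenseRange ((↑) : N.Ty → Completion N.Ty))

/-- closed conditions on the completion can be checked on the dense image -/
theorem AlgSn.induction {p : N.Comp → Prop} (hp : IsClosed {x | p x}) (h : ∀ a : T, p (N.emb a))
    (x : N.Comp) : p x :=
  Completion.induction_on x hp h

/-- every element of the completion is approximated by the dense image -/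
theorem AlgSn.approx (x : N.Comp) {ε : ℝ} (hε : 0 < ε) : ∃ a : T, ‖x - N.emb a‖ < ε := by
  obtain ⟨a, ha⟩ := N.dense_emb.exists_dist_lt x hε
  exact ⟨a, by rwa [dist_eq_norm] at ha⟩

theorem AlgSn.emb_eq_zero {a : T} (h : N.N a = 0) : N.emb a = 0 := by
  rw [← norm_eq_zero, N.norm_emb, h]

end basic

section ext

variable {T : Type} [CommRing T] [Algebra ℂ T] (N : AlgSn T)
variable {B : Type} [NormedCommRing B] [NormedAlgebra ℂ B]

theorem AlgSn.ext_cont (f : T →ₐ[ℂ] B) (C : ℝ) (h : ∀ a, ‖f a‖ ≤ C * N.N a) :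
    Continuous (fun a : N.Ty => f (N.to.symm a)) := by
  have : Continuous (LinearMap.mkContinuous (f.comp (N.to.symm : N.Ty →ₐ[ℂ] T)).toLinearMap C h) :=
    ContinuousLinearMap.continuous _
  exact this

variable [CompleteSpace B]

/-- extension of a bounded algebra homomorphism into a Banach algebra -/
def AlgSn.ext (f : T →ₐ[ℂ] B) (C : ℝ) (h : ∀ a, ‖f a‖ ≤ C * N.N a) : N.Comp →ₐ[ℂ] B where
  __ := Completion.extensionHom (α := N.Ty) (β := B) (f.comp (N.to.symm : N.Ty →ₐ[ℂ] T)).toRingHom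
    (N.ext_cont f C h)
  commutes' c := by
    have h1 : (algebraMap ℂ N.Comp c) = ((algebraMap ℂ N.Ty c : N.Ty) : Completion N.Ty) := rfl
    rw [h1]
    refine (Completion.extensionHom_coe _ (N.ext_cont f C h) _).trans ?_
    exact f.commutes c

theorem AlgSn.ext_emb (f : T →ₐ[ℂ] B) (C : ℝ) (h : ∀ a, ‖f a‖ ≤ C * N.N a) (a : T) :
    N.ext f C h (N.emb a) = f a :=
  Completion.extensionHom_coe (α := N.Ty) (β := B) _ (N.ext_cont f C h) (N.to a)

theorem AlgSn.ext_continuous (f : T →ₐ[ℂ] B) (C : ℝ) (h : ∀ a, ‖f a‖ ≤ C * N.N a) :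
    Continuous (N.ext f C h) :=
  Completion.continuous_extension

theorem AlgSn.norm_ext_le (f : T →ₐ[ℂ] B) (C : ℝ) (h : ∀ a, ‖f a‖ ≤ C * N.N a) (x : N.Comp) :
    ‖N.ext f C h x‖ ≤ C * ‖x‖ := by
  refine N.induction (p := fun x => ‖N.ext f C h x‖ ≤ C * ‖x‖) ?_ ?_ x
  · exact isClosed_le (N.ext_continuous f C h).norm (continuous_const.mul continuous_norm)
  · intro a
    rw [N.ext_emb, N.norm_emb]
    exact h a

variable {T' : Type} [CommRing T'] [Algebra ℂ T'] (N' : AlgSn T')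

theorem AlgSn.map_aux (f : T →ₐ[ℂ] T') (C : ℝ) (h : ∀ a, N'.N (f a) ≤ C * N.N a) (a : T) :
    ‖(N'.emb.comp f) a‖ ≤ C * N.N a := by
  rw [AlgHom.comp_apply, N'.norm_emb]
  exact h a

/-- functoriality of the completion -/
def AlgSn.map (f : T →ₐ[ℂ] T') (C : ℝ) (h : ∀ a, N'.N (f a) ≤ C * N.N a) : N.Comp →ₐ[ℂ] N'.Comp :=
  N.ext (N'.emb.comp f) C (N.map_aux N' f C h)

theorem AlgSn.map_emb (f : T →ₐ[ℂ] T') (C : ℝ) (h : ∀ a, N'.N (f a) ≤ C * N.N a) (a : T) :
    N.map N' f C h (N.emb a) = N'.emb (f a) :=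
  N.ext_emb _ _ _ a

theorem AlgSn.map_continuous (f : T →ₐ[ℂ] T') (C : ℝ) (h : ∀ a, N'.N (f a) ≤ C * N.N a) :
    Continuous (N.map N' f C h) :=
  N.ext_continuous _ _ _

theorem AlgSn.norm_map_le (f : T →ₐ[ℂ] T') (C : ℝ) (h : ∀ a, N'.N (f a) ≤ C * N.N a)
    (x : N.Comp) : ‖N.map N' f C h x‖ ≤ C * ‖x‖ :=
  N.norm_ext_le _ _ _ x

/-- extension of a bounded linear map into a Banach space -/
def AlgSn.extL {W : Type} [NormedAddCommGroup W] [NormedSpace ℂ W] [CompleteSpace W]
    (f : T →ₗ[ℂ] W) (C : ℝ) (h : ∀ a, ‖f a‖ ≤ C * N.N a) : N.Comp →L[ℂ] W :=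
  (LinearMap.mkContinuous (f.comp (N.to.symm : N.Ty →ₐ[ℂ] T).toLinearMap) C h).extend
    (Completion.toComplL (𝕜 := ℂ) (E := N.Ty))

theorem AlgSn.extL_emb {W : Type} [NormedAddCommGroup W] [NormedSpace ℂ W] [CompleteSpace W]
    (f : T →ₗ[ℂ] W) (C : ℝ) (h : ∀ a, ‖f a‖ ≤ C * N.N a) (a : T) :
    N.extL f C h (N.emb a) = f a := by
  have := ContinuousLinearMap.extend_eq
    (LinearMap.mkContinuous (f.comp (N.to.symm : N.Ty →ₐ[ℂ] T).toLinearMap) C h)
    (e := Completion.toComplL (𝕜 := ℂ) (E := N.Ty))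
    (Completion.denseRange_coe) (Completion.isUniformInducing_coe _) (N.to a)
  exact this

theorem AlgSn.norm_extL_le {W : Type} [NormedAddCommGroup W] [NormedSpace ℂ W] [CompleteSpace W]
    (f : T →ₗ[ℂ] W) (C : ℝ) (h : ∀ a, ‖f a‖ ≤ C * N.N a) (x : N.Comp) :
    ‖N.extL f C h x‖ ≤ C * ‖x‖ := by
  refine N.induction (p := fun x => ‖N.extL f C h x‖ ≤ C * ‖x‖) ?_ ?_ x
  · exact isClosed_le (N.extL f C h).continuous.norm (continuous_const.mul continuous_norm)
  · intro a
    rw [N.extL_emb, N.norm_emb]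
    exact h a

end ext

section gaugeMore

variable {T : Type} [CommRing T] [Algebra ℂ T]

/-- a linear map from a gauge seminorm into another `AlgSn`, bounded on the submonoid -/
theorem gaugeSn_map_le {T' : Type} [CommRing T'] [Algebra ℂ T'] (S : Submonoid T)
    (h : Submodule.span ℂ (S : Set T) = ⊤) (N' : AlgSn T') (f : T →ₗ[ℂ] T') {C : ℝ} (hC : 0 ≤ C)
    (hf : ∀ s ∈ S, N'.N (f s) ≤ C) (a : T) : N'.N (f a) ≤ C * (gaugeSn S h).N a := by
  have key : ∀ x ∈ GRep S a, N'.N (f a) ≤ C * x := by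
    rintro x ⟨g, hg, rfl⟩
    rw [← hg, Finsupp.sum, Finsupp.sum, map_sum, Finset.mul_sum]
    refine (N'.sum _ _).trans (Finset.sum_le_sum fun s _ => ?_)
    rw [map_smul]
    refine (N'.smul _ _).trans ?_
    have := hf s s.2
    nlinarith [norm_nonneg (g s)]
  apply le_of_forall_pos_lt_add
  intro ε hε
  have hc : 0 < C + 1 := by positivity
  obtain ⟨x, hx, hx'⟩ := exists_lt_of_gN_lt S h
    (show gN S a < gN S a + ε / (C + 1) by linarith [div_pos hε hc])
  have h1 := key x hx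
  have h2 : C * x ≤ C * (gN S a + ε / (C + 1)) := mul_le_mul_of_nonneg_left hx'.le hC
  have h3 : C * (ε / (C + 1)) < ε := by
    rw [mul_div_assoc', div_lt_iff₀ hc]
    nlinarith
  show N'.N (f a) < C * gN S a + ε
  nlinarith

end gaugeMore

end

end Pool.Hom82
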