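import Pool.Agent.Work.MP_8222c7_an.DiagA
import Pool.Agent.Work.MP_8222c7_an.AssemblyDefs
import Pool.Agent.Work.MP_8222c7_an.Ext

/-!
# The approximate diagonal of the algebra of a tower
-/

set_option autoImplicit false

namespace Pool.Hom82

open Finset Filter Topology

noncomputable section

section seminorm

variable {T : Type} [CommRing T] [Algebra ℂ T] (G : AlgSn T)

theorem AlgSn.of_smul {t : ℝ} (ht : 0 < t) {a : T} (h : G.N ((t : ℂ) • a) ≤ 1) :
    G.N a ≤ 1 / t := by
  have h1 : a = ((1 / t : ℝ) : ℂ) • ((t : ℂ) • a) := by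
    rw [smul_smul, ← Complex.ofReal_mul, one_div_mul_cancel ht.ne', Complex.ofReal_one, one_smul]
  have h2 := G.smul ((1 / t : ℝ) : ℂ) ((t : ℂ) • a)
  rw [← h1, Complex.norm_real, Real.norm_of_nonneg (by positivity)] at h2
  refine h2.trans ?_
  calc 1 / t * G.N ((t : ℂ) • a) ≤ 1 / t * 1 := mul_le_mul_of_nonneg_left h (by positivity)
    _ = 1 / t := mul_one _

end seminorm

/-- The data: a dense image of the algebra of eventually polynomial sequences. -/
structure DData (T : Tower) where
  R : Subalgebra ℂ (P × (∀ n, Om (T.I n) → ℂ))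
  hR : ∀ x : P × (∀ n, Om (T.I n) → ℂ), x ∈ R ↔ ∃ M, ∀ n, M ≤ n → x.2 n = T.σ n x.1
  G : ∀ n, AlgSn (Om (T.I n) → ℂ)
  hG : ∀ n, ∀ s ∈ Submonoid.closure (Set.range (walsh (I := T.I n)) ∪ (T.σ n) '' (T.F n)),
    (G n).N s ≤ 1
  hw : ∀ n, Submodule.span ℂ (Set.range (walsh (I := T.I n))) = ⊤

namespace DData

variable {T : Tower} (Q : DData T)

/-- The tail of a polynomial. -/
def tail (M : ℕ) (p : P) : Q.R :=
  ⟨(p, fun n => if n < M then 0 else T.σ n p), (Q.hR _).2 ⟨M, fun n hn => by
    simp only [not_lt.2 hn, if_false]⟩⟩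

/-- Finitely supported sequences. -/
def head (M : ℕ) (f : ∀ n, Om (T.I n) → ℂ) : Q.R :=
  ⟨(0, fun n => if n < M then f n else 0), (Q.hR _).2 ⟨M, fun n hn => by
    simp only [not_lt.2 hn, if_false, map_zero]⟩⟩

theorem tail_mul (M : ℕ) (p q : P) : Q.tail M (p * q) = Q.tail M p * Q.tail M q := by
  refine Subtype.ext (Prod.ext rfl (funext fun n => ?_))
  show (if n < M then 0 else T.σ n (p * q)) =
    (if n < M then 0 else T.σ n p) * (if n < M then 0 else T.σ n q)
  split_ifs
  · rw [zero_mul]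
  · rw [map_mul]

theorem tail_add (M : ℕ) (p q : P) : Q.tail M (p + q) = Q.tail M p + Q.tail M q := by
  refine Subtype.ext (Prod.ext rfl (funext fun n => ?_))
  show (if n < M then 0 else T.σ n (p + q)) =
    (if n < M then 0 else T.σ n p) + (if n < M then 0 else T.σ n q)
  split_ifs
  · rw [zero_add]
  · rw [map_add]

theorem tail_smul (M : ℕ) (c : ℂ) (p : P) : Q.tail M (c • p) = c • Q.tail M p := by
  refine Subtype.ext (Prod.ext rfl (funext fun n => ?_))
  show (if n < M then 0 else T.σ n (c • p)) = c • (if n < M then 0 else T.σ n p)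
  split_ifs
  · rw [smul_zero]
  · rw [map_smul]

/-- The tail as a linear map. -/
def tailL (M : ℕ) : P →ₗ[ℂ] Q.R where
  toFun := Q.tail M
  map_add' := Q.tail_add M
  map_smul' := Q.tail_smul M

@[simp] theorem tailL_apply (M : ℕ) (p : P) : Q.tailL M p = Q.tail M p := rfl

theorem head_mul (M : ℕ) (f g : ∀ n, Om (T.I n) → ℂ) :
    Q.head M (f * g) = Q.head M f * Q.head M g := by
  refine Subtype.ext (Prod.ext (by simp [head]) (funext fun n => ?_))
  show (if n < M then (f * g) n else 0) = (if n < M then f n else 0) * (if n < M then g n else 0)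
  split_ifs
  · rfl
  · rw [zero_mul]

theorem head_add (M : ℕ) (f g : ∀ n, Om (T.I n) → ℂ) :
    Q.head M (f + g) = Q.head M f + Q.head M g := by
  refine Subtype.ext (Prod.ext (by simp [head]) (funext fun n => ?_))
  show (if n < M then (f + g) n else 0) = (if n < M then f n else 0) + (if n < M then g n else 0)
  split_ifs
  · rfl
  · rw [zero_add]

theorem head_smul (M : ℕ) (c : ℂ) (f : ∀ n, Om (T.I n) → ℂ) :
    Q.head M (c • f) = c • Q.head M f := by
  refine Subtype.ext (Prod.ext (by simp [head]) (funext fun n => ?_))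
  show (if n < M then (c • f) n else 0) = c • (if n < M then f n else 0)
  split_ifs
  · rfl
  · rw [smul_zero]

theorem head_mul_tail (M : ℕ) (f : ∀ n, Om (T.I n) → ℂ) (p : P) :
    Q.head M f * Q.tail M p = 0 := by
  refine Subtype.ext (Prod.ext (by simp [head, tail]) (funext fun n => ?_))
  show (if n < M then f n else 0) * (if n < M then 0 else T.σ n p) = 0
  split_ifs
  · rw [mul_zero]
  · rw [zero_mul]

theorem tail_mul_head (M : ℕ) (f : ∀ n, Om (T.I n) → ℂ) (p : P) :
    Q.tail M p * Q.head M f = 0 := by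
  rw [mul_comm, head_mul_tail]

theorem head_add_tail_one (M : ℕ) : Q.head M 1 + Q.tail M 1 = 1 := by
  refine Subtype.ext (Prod.ext (by simp [head, tail]) (funext fun n => ?_))
  show (if n < M then (1 : ∀ n, Om (T.I n) → ℂ) n else 0) + (if n < M then 0 else T.σ n 1) = 1
  split_ifs
  · rw [add_zero]
    rfl
  · rw [zero_add, map_one]

theorem tail_zero_eq (M : ℕ) (p : P) :
    Q.tail 0 p = Q.head M (fun n => T.σ n p) + Q.tail M p := by
  refine Subtype.ext (Prod.ext (by simp [head, tail]) (funext fun n => ?_))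
  show (if n < 0 then 0 else T.σ n p) =
    (if n < M then T.σ n p else 0) + (if n < M then 0 else T.σ n p)
  simp only [Nat.not_lt_zero, if_false]
  split_ifs
  · rw [add_zero]
  · rw [zero_add]

theorem exists_head (x : Q.R) : ∃ M f, x = Q.tail 0 x.1.1 + Q.head M f := by
  obtain ⟨M, hM⟩ := (Q.hR x.1).1 x.2
  refine ⟨M, fun n => x.1.2 n - T.σ n x.1.1, Subtype.ext (Prod.ext ?_ (funext fun n => ?_))⟩
  · show x.1.1 = x.1.1 + 0
    rw [add_zero]
  · show x.1.2 n = (if n < 0 then 0 else T.σ n x.1.1) +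
      (if n < M then x.1.2 n - T.σ n x.1.1 else 0)
    simp only [Nat.not_lt_zero, if_false]
    split_ifs with h
    · ring
    · rw [add_zero]
      exact hM n (not_lt.1 h)

/-- `F m ⊆ F n` for `m ≤ n`. -/
theorem F_mono {m n : ℕ} (h : m ≤ n) : T.F m ⊆ T.F n :=
  monotone_nat_of_le_succ T.hF h

theorem N_sigma_le {m n : ℕ} (h : m ≤ n) {s : P} (hs : s ∈ T.F m) :
    (Q.G n).N (T.σ n s) ≤ 1 :=
  Q.hG n _ (Submonoid.subset_closure (Or.inr ⟨s, F_mono h hs, rfl⟩))

theorem N_sigma_le' {m n k : ℕ} (h : m ≤ n) {s : P} (hs : ((k + 1 : ℕ) : ℂ) • s ∈ T.F m) :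
    (Q.G n).N (T.σ n s) ≤ 1 / ((k : ℝ) + 1) := by
  refine (Q.G n).of_smul (by positivity) ?_
  have h1 := Q.N_sigma_le h hs
  rw [map_smul] at h1
  have h2 : (((k : ℝ) + 1 : ℝ) : ℂ) = ((k + 1 : ℕ) : ℂ) := by push_cast; rfl
  rw [h2]
  exact h1

theorem N_one (n : ℕ) : (Q.G n).N 1 ≤ 1 := Q.hG n _ (one_mem _)

theorem N_walsh (n : ℕ) (g : Gp (T.I n)) : (Q.G n).N (walsh g) ≤ 1 :=
  Q.hG n _ (Submonoid.subset_closure (Or.inl ⟨g, rfl⟩))

/-! ### The elements `u_w` -/

/-- The group of signs and Walsh functions. -/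
abbrev W (T : Tower) (M : ℕ) : Type := ∀ n : Fin M, ℤˣ × Multiplicative (Gp (T.I n))

theorem W_sq {M : ℕ} (w : W T M) : w * w = 1 := by
  funext n
  refine Prod.ext (Int.units_mul_self _) ?_
  show Multiplicative.ofAdd ((w n).2.toAdd + (w n).2.toAdd) = 1
  have : (w n).2.toAdd + (w n).2.toAdd = 0 := by
    funext i
    exact CharTwo.add_self_eq_zero _
  rw [this]
  rfl

/-- The function of an element of the group. -/
def wf {M : ℕ} (w : W T M) (n : ℕ) : Om (T.I n) → ℂ :=
  if h : n < M then (((w ⟨n, h⟩).1 : ℤ) : ℂ) • walsh (w ⟨n, h⟩).2.toAdd else 0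

theorem wf_mul {M : ℕ} (w w' : W T M) : wf (w * w') = wf w * wf w' := by
  funext n
  show wf (w * w') n = wf w n * wf w' n
  unfold wf
  split_ifs with h
  · show (((((w ⟨n, h⟩).1 * (w' ⟨n, h⟩).1 : ℤˣ) : ℤ) : ℂ)) •
      walsh ((w ⟨n, h⟩).2.toAdd + (w' ⟨n, h⟩).2.toAdd) = _
    rw [walsh_add, Units.val_mul, smul_mul_smul_comm]
    push_cast
    rfl
  · rw [zero_mul]

/-- The element `u_w`. -/
def u {M : ℕ} (w : W T M) : Q.R := Q.head M (wf w)

theorem u_mul {M : ℕ} (w w' : W T M) : Q.u (w * w') = Q.u w * Q.u w' := by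
  unfold u
  rw [wf_mul, head_mul]

theorem u_one (M : ℕ) : Q.u (1 : W T M) = Q.head M 1 := by
  refine Subtype.ext (Prod.ext rfl (funext fun n => ?_))
  show (if n < M then wf (1 : W T M) n else 0) = (if n < M then (1 : ∀ n, Om (T.I n) → ℂ) n else 0)
  split_ifs with h
  · unfold wf
    rw [dif_pos h]
    show (((1 : ℤˣ) : ℤ) : ℂ) • walsh (0 : Gp (T.I n)) = 1
    rw [walsh_zero]
    simp
  · rfl

theorem head_single_mem (M n₀ : ℕ) (h₀ : n₀ < M) (g : Gp (T.I n₀)) :
    Q.head M (Pi.single n₀ (walsh g)) ∈ Submodule.span ℂ (Set.range (Q.u (M := M))) := by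
  classical
  set v : W T M := fun n => (1, if h : (n : ℕ) = n₀ then
    Multiplicative.ofAdd (h ▸ g : Gp (T.I n)) else 1) with hv
  set v' : W T M := fun n => (if (n : ℕ) = n₀ then 1 else -1, if h : (n : ℕ) = n₀ then
    Multiplicative.ofAdd (h ▸ g : Gp (T.I n)) else 1) with hv'
  have h1 : Q.head M (Pi.single n₀ (walsh g)) = (1 / 2 : ℂ) • (Q.u v + Q.u v') := by
    refine Subtype.ext (Prod.ext ?_ (funext fun n => ?_))
    · show (0 : P) = (1 / 2 : ℂ) • ((0 : P) + 0)
      simp
    · show (if n < M then (Pi.single n₀ (walsh g) : ∀ n, Om (T.I n) → ℂ) n else 0) =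
        (1 / 2 : ℂ) • ((if n < M then wf v n else 0) + (if n < M then wf v' n else 0))
      split_ifs with h
      · unfold wf
        rw [dif_pos h, dif_pos h]
        by_cases hn : n = n₀
        · subst hn
          rw [Pi.single_eq_same]
          simp only [hv, hv', dif_pos, if_true, toAdd_ofAdd]
          rw [← add_smul, smul_smul]
          norm_num
        · rw [Pi.single_eq_of_ne hn]
          simp only [hv, hv', hn, dif_neg, not_false_eq_true, if_false]
          rw [← add_smul]
          simp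
      · rw [add_zero, smul_zero]
  rw [h1]
  exact Submodule.smul_mem _ _ (Submodule.add_mem _ (Submodule.subset_span ⟨v, rfl⟩)
    (Submodule.subset_span ⟨v', rfl⟩))

/-- The head as a linear map. -/
def headL (M : ℕ) : (∀ n, Om (T.I n) → ℂ) →ₗ[ℂ] Q.R where
  toFun := Q.head M
  map_add' := Q.head_add M
  map_smul' := Q.head_smul M

theorem head_mem (M : ℕ) (f : ∀ n, Om (T.I n) → ℂ) :
    Q.head M f ∈ Submodule.span ℂ (Set.range (Q.u (M := M))) := by
  classical
  have h1 : Q.head M f = ∑ n ∈ Finset.range M, Q.head M (Pi.single n (f n)) := by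
    have h2 : Q.head M f = Q.headL M (∑ n ∈ Finset.range M, Pi.single n (f n)) := by
      refine Subtype.ext (Prod.ext rfl (funext fun n => ?_))
      show (if n < M then f n else 0) = (if n < M then
        (∑ n ∈ Finset.range M, (Pi.single n (f n) : ∀ n, Om (T.I n) → ℂ)) n else 0)
      split_ifs with h
      · rw [Finset.sum_apply, Finset.sum_eq_single n]
        · rw [Pi.single_eq_same]
        · intro m _ hm
          rw [Pi.single_eq_of_ne hm.symm]
        · intro h'
          exact absurd (Finset.mem_range.2 h) h'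
      · rfl
    rw [h2, map_sum]
    rfl
  rw [h1]
  refine Submodule.sum_mem _ fun n hn => ?_
  have hfn : f n ∈ Submodule.span ℂ (Set.range (walsh (I := T.I n))) := by
    rw [Q.hw n]
    trivial
  have h3 : ∀ h : Om (T.I n) → ℂ, h ∈ Submodule.span ℂ (Set.range (walsh (I := T.I n))) →
      Q.head M (Pi.single n h) ∈ Submodule.span ℂ (Set.range (Q.u (M := M))) := by
    intro h hh
    induction hh using Submodule.span_induction with
    | mem x hx =>
      obtain ⟨g, rfl⟩ := hx
      exact Q.head_single_mem M n (Finset.mem_range.1 hn) g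
    | zero =>
      rw [Pi.single_zero]
      have : Q.head M 0 = 0 := map_zero (Q.headL M)
      rw [this]
      exact Submodule.zero_mem _
    | add x y _ _ hx hy =>
      rw [Pi.single_add, head_add]
      exact Submodule.add_mem _ hx hy
    | smul c x _ hx =>
      rw [Pi.single_smul, head_smul]
      exact Submodule.smul_mem _ _ hx
  exact h3 _ hfn

end DData

end

end Pool.Hom82
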