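import Pool.Agent.Work.MP_8222c7_an.Defs

/-!
# Approximate diagonals: general part
-/

set_option autoImplicit false

namespace Pool.Hom82

open Finset Filter Topology

noncomputable section

/-- Families as in `ApproxDiag`, without the asymptotic conditions. -/
structure PreDiag (A : Type) [NormedCommRing A] [NormedAlgebra ℂ A] where
  J : ℕ → Type
  [fin : ∀ k, Fintype (J k)]
  lam : ∀ k, J k → ℂ
  b : ∀ k, J k → A
  c : ∀ k, J k → A
  C : ℝ
  bdd : ∀ k, ∑ j, ‖lam k j‖ * ‖b k j‖ * ‖c k j‖ ≤ C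

attribute [instance] PreDiag.fin

namespace PreDiag

variable {A : Type} [NormedCommRing A] [NormedAlgebra ℂ A] (D : PreDiag A)

/-- The commutator functional. -/
def cm (k : ℕ) (a : A) (β : A →L[ℂ] A →L[ℂ] ℂ) : ℂ :=
  ∑ j, D.lam k j * (β (a * D.b k j) (D.c k j) - β (D.b k j) (D.c k j * a))

theorem C_nonneg : 0 ≤ D.C :=
  (Finset.sum_nonneg fun _ _ => by positivity).trans (D.bdd 0)

theorem norm_cm_le (k : ℕ) (a : A) (β : A →L[ℂ] A →L[ℂ] ℂ) :
    ‖D.cm k a β‖ ≤ 2 * ‖β‖ * D.C * ‖a‖ := by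
  unfold cm
  refine (norm_sum_le _ _).trans ?_
  have h1 : ∀ j, ‖D.lam k j * (β (a * D.b k j) (D.c k j) - β (D.b k j) (D.c k j * a))‖ ≤
      (2 * ‖β‖ * ‖a‖) * (‖D.lam k j‖ * ‖D.b k j‖ * ‖D.c k j‖) := by
    intro j
    rw [norm_mul]
    have e1 : ‖β (a * D.b k j) (D.c k j)‖ ≤ ‖β‖ * (‖a‖ * ‖D.b k j‖) * ‖D.c k j‖ := by
      refine (β.le_opNorm₂ _ _).trans ?_
      gcongr
      exact norm_mul_le _ _
    have e2 : ‖β (D.b k j) (D.c k j * a)‖ ≤ ‖β‖ * ‖D.b k j‖ * (‖D.c k j‖ * ‖a‖) := by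
      refine (β.le_opNorm₂ _ _).trans ?_
      gcongr
      exact norm_mul_le _ _
    have e3 := norm_sub_le (β (a * D.b k j) (D.c k j)) (β (D.b k j) (D.c k j * a))
    calc ‖D.lam k j‖ * ‖β (a * D.b k j) (D.c k j) - β (D.b k j) (D.c k j * a)‖
        ≤ ‖D.lam k j‖ * (‖β‖ * (‖a‖ * ‖D.b k j‖) * ‖D.c k j‖ +
          ‖β‖ * ‖D.b k j‖ * (‖D.c k j‖ * ‖a‖)) := by
          gcongr
          linarith
      _ = (2 * ‖β‖ * ‖a‖) * (‖D.lam k j‖ * ‖D.b k j‖ * ‖D.c k j‖) := by ring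
  refine (Finset.sum_le_sum fun j _ => h1 j).trans ?_
  rw [← Finset.mul_sum]
  calc (2 * ‖β‖ * ‖a‖) * ∑ j, ‖D.lam k j‖ * ‖D.b k j‖ * ‖D.c k j‖ ≤ (2 * ‖β‖ * ‖a‖) * D.C :=
        mul_le_mul_of_nonneg_left (D.bdd k) (by positivity)
    _ = 2 * ‖β‖ * D.C * ‖a‖ := by ring

theorem cm_add (k : ℕ) (a a' : A) (β : A →L[ℂ] A →L[ℂ] ℂ) :
    D.cm k (a + a') β = D.cm k a β + D.cm k a' β := by
  unfold cm
  rw [← Finset.sum_add_distrib]
  refine Finset.sum_congr rfl fun j _ => ?_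
  rw [add_mul, mul_add, map_add, map_add, add_apply]
  ring

theorem cm_smul (k : ℕ) (r : ℂ) (a : A) (β : A →L[ℂ] A →L[ℂ] ℂ) :
    D.cm k (r • a) β = r * D.cm k a β := by
  unfold cm
  rw [Finset.mul_sum]
  refine Finset.sum_congr rfl fun j _ => ?_
  rw [smul_mul_assoc, mul_smul_comm, map_smul, map_smul, smul_apply,
    smul_eq_mul, smul_eq_mul]
  ring

theorem cm_sub (k : ℕ) (a a' : A) (β : A →L[ℂ] A →L[ℂ] ℂ) :
    D.cm k (a - a') β = D.cm k a β - D.cm k a' β := by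
  have h := D.cm_add k (a - a') a' β
  rw [sub_add_cancel] at h
  rw [h]
  ring

theorem cm_algebraMap (k : ℕ) (r : ℂ) (β : A →L[ℂ] A →L[ℂ] ℂ) :
    D.cm k (algebraMap ℂ A r) β = 0 := by
  unfold cm
  refine Finset.sum_eq_zero fun j _ => ?_
  rw [Algebra.algebraMap_eq_smul_one, smul_mul_assoc, one_mul, mul_smul_comm, mul_one, map_smul,
    map_smul, smul_apply]
  ring

/-- The left translate of a bilinear form. -/
def bl (a : A) (β : A →L[ℂ] A →L[ℂ] ℂ) : A →L[ℂ] A →L[ℂ] ℂ :=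
  β.comp (ContinuousLinearMap.mul ℂ A a)

/-- The right translate of a bilinear form. -/
def br (a : A) (β : A →L[ℂ] A →L[ℂ] ℂ) : A →L[ℂ] A →L[ℂ] ℂ :=
  ((ContinuousLinearMap.compL ℂ A A ℂ).flip (ContinuousLinearMap.mul ℂ A a)).comp β

@[simp] theorem bl_apply (a : A) (β : A →L[ℂ] A →L[ℂ] ℂ) (x y : A) :
    bl a β x y = β (a * x) y := rfl

@[simp] theorem br_apply (a : A) (β : A →L[ℂ] A →L[ℂ] ℂ) (x y : A) :
    br a β x y = β x (a * y) := rfl

theorem cm_mul (k : ℕ) (a a' : A) (β : A →L[ℂ] A →L[ℂ] ℂ) :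
    D.cm k (a * a') β = D.cm k a' (bl a β) + D.cm k a (br a' β) := by
  unfold cm
  rw [← Finset.sum_add_distrib]
  refine Finset.sum_congr rfl fun j _ => ?_
  simp only [bl_apply, br_apply]
  have e1 : a * a' * D.b k j = a * (a' * D.b k j) := by ring
  have e2 : a' * (D.c k j * a) = D.c k j * (a * a') := by ring
  have e3 : a' * D.c k j = D.c k j * a' := by ring
  rw [e1, e2, e3]
  ring

/-- The elements which commute asymptotically with the family. -/
def good : Subalgebra ℂ A where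
  carrier := {a | ∀ β : A →L[ℂ] A →L[ℂ] ℂ, Tendsto (fun k => D.cm k a β) atTop (𝓝 0)}
  mul_mem' := by
    intro a a' ha ha' β
    have h := (ha' (bl a β)).add (ha (br a' β))
    rw [add_zero] at h
    refine h.congr fun k => ?_
    rw [cm_mul]
  add_mem' := by
    intro a a' ha ha' β
    have h := (ha β).add (ha' β)
    rw [add_zero] at h
    refine h.congr fun k => ?_
    rw [cm_add]
  algebraMap_mem' := by
    intro r β
    simp only [cm_algebraMap]
    exact tendsto_const_nhds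

theorem mem_good {a : A} : a ∈ D.good ↔
    ∀ β : A →L[ℂ] A →L[ℂ] ℂ, Tendsto (fun k => D.cm k a β) atTop (𝓝 0) := Iff.rfl

theorem mem_good_of_le {a : A} {u : ℕ → ℝ} (hu : Tendsto u atTop (𝓝 0)) {k₀ : ℕ}
    (h : ∀ k, k₀ ≤ k → ∀ β : A →L[ℂ] A →L[ℂ] ℂ, ‖D.cm k a β‖ ≤ ‖β‖ * u k) : a ∈ D.good := by
  intro β
  have h1 : Tendsto (fun k => ‖β‖ * u k) atTop (𝓝 0) := by
    have := hu.const_mul ‖β‖
    rwa [mul_zero] at this
  refine squeeze_zero_norm' ?_ h1
  exact eventually_atTop.2 ⟨k₀, fun k hk => h k hk β⟩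

theorem isClosed_good : IsClosed (D.good : Set A) := by
  refine isClosed_of_closure_subset fun a ha β => ?_
  rw [Metric.mem_closure_iff] at ha
  rw [Metric.tendsto_atTop]
  intro ε hε
  have hC := D.C_nonneg
  have hK : 0 < 2 * ‖β‖ * D.C + 1 := by positivity
  obtain ⟨a', ha', hd⟩ := ha (ε / 2 / (2 * ‖β‖ * D.C + 1)) (by positivity)
  obtain ⟨N, hN⟩ := Metric.tendsto_atTop.1 (ha' β) (ε / 2) (by positivity)
  refine ⟨N, fun k hk => ?_⟩
  have h1 := hN k hk
  rw [dist_zero_right] at h1 ⊢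
  have h2 : D.cm k a β = D.cm k a' β + D.cm k (a - a') β := by
    rw [cm_sub]
    ring
  have h3 := D.norm_cm_le k (a - a') β
  rw [dist_eq_norm] at hd
  have h4 : 2 * ‖β‖ * D.C * ‖a - a'‖ ≤ (2 * ‖β‖ * D.C + 1) * ‖a - a'‖ := by
    refine mul_le_mul_of_nonneg_right (by linarith) (norm_nonneg _)
  have h5 : (2 * ‖β‖ * D.C + 1) * ‖a - a'‖ < ε / 2 := by
    rw [lt_div_iff₀ hK] at hd
    linarith
  rw [h2]
  have h6 := norm_add_le (D.cm k a' β) (D.cm k (a - a') β)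
  linarith

theorem good_of_dense {S : Set A} (hS : ∀ a ∈ S, a ∈ D.good)
    (hd : Dense (Algebra.adjoin ℂ S : Set A)) (a : A) : a ∈ D.good := by
  have h1 : (Algebra.adjoin ℂ S : Set A) ⊆ D.good := Algebra.adjoin_le hS
  have h2 : closure (Algebra.adjoin ℂ S : Set A) ⊆ D.good :=
    closure_minimal h1 D.isClosed_good
  rw [hd.closure_eq] at h2
  exact h2 (Set.mem_univ a)

/-- The approximate diagonal. -/
def toApproxDiag (hu : Tendsto (fun k => ∑ j, D.lam k j • (D.b k j * D.c k j)) atTop (𝓝 1))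
    (hg : ∀ a, a ∈ D.good) : ApproxDiag A where
  J := D.J
  lam := D.lam
  b := D.b
  c := D.c
  C := D.C
  bdd := D.bdd
  unit := hu
  comm := hg

end PreDiag

section group

variable {A : Type} [NormedCommRing A] [NormedAlgebra ℂ A]

/-- Exact commutation with the elements of a finite group of exponent 2. -/
theorem sum_group {W : Type} [Fintype W] [CommGroup W] (hW : ∀ w : W, w * w = 1) (u : W → A)
    (hu : ∀ w w', u (w * w') = u w * u w') (β : A →L[ℂ] A →L[ℂ] ℂ) (v : W) :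
    ∑ w, β (u v * u w) (u w) = ∑ w, β (u w) (u w * u v) := by
  rw [← Equiv.sum_comp (Equiv.mulLeft v)]
  refine Finset.sum_congr rfl fun w _ => ?_
  have e1 : v * (v * w) = w := by
    rw [← mul_assoc, hW, one_mul]
  rw [Equiv.coe_mulLeft, ← hu, e1, ← hu, mul_comm w v]

/-- The symmetry of the second part. -/
theorem sum_shift {H : Type} [Fintype H] [DecidableEq H] (E : Gp H → A) (c : H → ℂ) (z : A)
    (β : A →L[ℂ] A →L[ℂ] ℂ) :
    ∑ g, β (∑ h, c h • E (g + uv h)) (E g * z) =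
      ∑ g, β (E g) ((∑ h, c h • E (g + uv h)) * z) := by
  have h1 : ∀ g, β (∑ h, c h • E (g + uv h)) (E g * z) =
      ∑ h, c h * β (E (g + uv h)) (E g * z) := by
    intro g
    rw [map_sum, _root_.sum_apply]
    refine Finset.sum_congr rfl fun h _ => ?_
    rw [map_smul, smul_apply, smul_eq_mul]
  have h2 : ∀ g, β (E g) ((∑ h, c h • E (g + uv h)) * z) =
      ∑ h, c h * β (E g) (E (g + uv h) * z) := by
    intro g
    rw [Finset.sum_mul, map_sum]
    refine Finset.sum_congr rfl fun h _ => ?_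
    rw [smul_mul_assoc, map_smul, smul_eq_mul]
  simp only [h1, h2]
  rw [Finset.sum_comm, Finset.sum_comm (s := univ (α := Gp H))]
  refine Finset.sum_congr rfl fun h _ => ?_
  rw [← Equiv.sum_comp (Equiv.addRight (uv h))]
  refine Finset.sum_congr rfl fun g _ => ?_
  have e1 : g + uv h + uv h = g := by
    rw [add_assoc]
    have : (uv h : Gp H) + uv h = 0 := by
      funext i
      exact CharTwo.add_self_eq_zero _
    rw [this, add_zero]
  rw [Equiv.coe_addRight, e1]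

end group

end

end Pool.Hom82
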