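import Pool.Agent.Work.MP_8222c7_an.Diag

/-!
# The approximate diagonal of the algebra of a tower: the three parts
-/

set_option autoImplicit false

namespace Pool.Hom82

open Finset Filter Topology

noncomputable section

namespace DData

variable {T : Tower} (Q : DData T)

/-- The variables of level `k`. -/
def ev (T : Tower) (k : ℕ) (g : Gp (T.H k)) : P := MvPolynomial.X (T.e k g)

/-- `2 - e₀ ^ 2`. -/
def zv (T : Tower) (k : ℕ) : P := 2 - ev T k 0 * ev T k 0

/-- `1 - e₀ ^ 2`. -/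
def yv (T : Tower) (k : ℕ) : P := 1 - ev T k 0 * ev T k 0

section norms

variable {k n : ℕ} (hn : k + 1 ≤ n)

include hn

theorem N_ev (g : Gp (T.H k)) : (Q.G n).N (T.σ n (ev T k g)) ≤ 1 :=
  Q.N_sigma_le hn (T.hX _ _ (T.he k g))

theorem N_ev_mul (g g' : Gp (T.H k)) : (Q.G n).N (T.σ n (ev T k g * ev T k g')) ≤ 1 := by
  rw [map_mul]
  refine ((Q.G n).mul _ _).trans ?_
  exact mul_le_one₀ (Q.N_ev hn g) ((Q.G n).nonneg _) (Q.N_ev hn g')

theorem N_yv : (Q.G n).N (T.σ n (yv T k)) ≤ 2 := by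
  unfold yv
  rw [map_sub, map_one]
  have h1 := (Q.G n).sub 1 (T.σ n (ev T k 0 * ev T k 0))
  have h2 := Q.N_one n
  have h3 := Q.N_ev_mul hn 0 0
  linarith

theorem N_zv : (Q.G n).N (T.σ n (zv T k)) ≤ 3 := by
  have e : zv T k = 1 + yv T k := by
    unfold zv yv
    ring
  rw [e, map_add, map_one]
  have h1 := (Q.G n).add 1 (T.σ n (yv T k))
  have h2 := Q.N_one n
  have h3 := Q.N_yv hn
  linarith

theorem N_ev_zv (g : Gp (T.H k)) : (Q.G n).N (T.σ n (ev T k g * zv T k)) ≤ 3 := by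
  rw [map_mul]
  refine ((Q.G n).mul _ _).trans ?_
  calc (Q.G n).N (T.σ n (ev T k g)) * (Q.G n).N (T.σ n (zv T k)) ≤ 1 * 3 :=
        mul_le_mul (Q.N_ev hn g) (Q.N_zv hn) ((Q.G n).nonneg _) zero_le_one
    _ = 3 := by norm_num

theorem N_d3 (g : Gp (T.H k)) :
    (Q.G n).N (T.σ n (ev T k g * ev T k g - ev T k 0 * ev T k 0)) ≤ 1 / ((k : ℝ) + 1) :=
  Q.N_sigma_le' hn (T.d3 k g)

theorem N_d1 {i : ℕ} (hi : i < T.r k) :
    (Q.G n).N (T.σ n ((1 - ev T k 0) * MvPolynomial.X i)) ≤ 1 / ((k : ℝ) + 1) :=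
  Q.N_sigma_le' hn (T.d1 k i hi)

theorem N_xy {i : ℕ} (hi : i < T.r k) :
    (Q.G n).N (T.σ n (MvPolynomial.X i * yv T k)) ≤ 2 / ((k : ℝ) + 1) := by
  have e : MvPolynomial.X i * yv T k =
      ((1 - ev T k 0) * MvPolynomial.X i) * (1 + ev T k 0) := by
    unfold yv
    ring
  rw [e, map_mul]
  refine ((Q.G n).mul _ _).trans ?_
  have h1 := Q.N_d1 hn hi
  have h2 : (Q.G n).N (T.σ n (1 + ev T k 0)) ≤ 2 := by
    rw [map_add, map_one]
    have h1 := (Q.G n).add 1 (T.σ n (ev T k 0))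
    have h2 := Q.N_one n
    have h3 := Q.N_ev hn 0
    linarith
  calc _ ≤ 1 / ((k : ℝ) + 1) * 2 := mul_le_mul h1 h2 ((Q.G n).nonneg _) (by positivity)
    _ = 2 / ((k : ℝ) + 1) := by ring

end norms

variable {A : Type} [NormedCommRing A] [NormedAlgebra ℂ A] (emb : Q.R →ₐ[ℂ] A)

/-- The bound of the norm of `A`. -/
def Bd : Prop := ∀ (x : Q.R) (c : ℝ), (∀ n, (Q.G n).N (x.1.2 n) ≤ c) → ‖emb x‖ ≤ c

variable {Q emb}

theorem norm_tail_le (hb : Q.Bd emb) {M : ℕ} {p : P} {c : ℝ} (hc : 0 ≤ c)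
    (h : ∀ n, M ≤ n → (Q.G n).N (T.σ n p) ≤ c) : ‖emb (Q.tail M p)‖ ≤ c := by
  refine hb _ c fun n => ?_
  show (Q.G n).N (if n < M then 0 else T.σ n p) ≤ c
  split_ifs with hn
  · rw [(Q.G n).zero]
    exact hc
  · exact h n (not_lt.1 hn)

theorem norm_u_le (hb : Q.Bd emb) {M : ℕ} (w : W T M) : ‖emb (Q.u w)‖ ≤ 1 := by
  refine hb _ 1 fun n => ?_
  show (Q.G n).N (if n < M then wf w n else 0) ≤ 1
  split_ifs with hn
  · unfold wf
    rw [dif_pos hn]
    refine ((Q.G n).smul _ _).trans ?_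
    have h1 : ‖(((w ⟨n, hn⟩).1 : ℤ) : ℂ)‖ = 1 := by
      rcases Int.units_eq_one_or (w ⟨n, hn⟩).1 with h | h <;> rw [h] <;> simp
    rw [h1, one_mul]
    exact Q.N_walsh n _
  · rw [(Q.G n).zero]
    exact zero_le_one

variable (Q emb)

/-- The family: `J k = W ⊕ Gp (H k) ⊕ Unit`. -/
def pre (hb : Q.Bd emb) : PreDiag A where
  J k := W T (k + 1) ⊕ (Gp (T.H k) ⊕ Unit)
  lam k := Sum.elim (fun _ => (1 / Fintype.card (W T (k + 1)) : ℂ))
    (Sum.elim (fun _ => (1 / Fintype.card (Gp (T.H k)) : ℂ)) (fun _ => 1))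
  b k := Sum.elim (fun w => emb (Q.u w))
    (Sum.elim (fun g => emb (Q.tail (k + 1) (ev T k g))) (fun _ => emb (Q.tail (k + 1) (yv T k))))
  c k := Sum.elim (fun w => emb (Q.u w))
    (Sum.elim (fun g => emb (Q.tail (k + 1) (ev T k g * zv T k)))
      (fun _ => emb (Q.tail (k + 1) (yv T k))))
  C := 8
  bdd k := by
    rw [Fintype.sum_sum_type, Fintype.sum_sum_type]
    simp only [Sum.elim_inl, Sum.elim_inr]
    have h1 : ∑ w : W T (k + 1), ‖(1 / Fintype.card (W T (k + 1)) : ℂ)‖ * ‖emb (Q.u w)‖ *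
        ‖emb (Q.u w)‖ ≤ 1 := by
      calc _ ≤ ∑ _w : W T (k + 1), ‖(1 / Fintype.card (W T (k + 1)) : ℂ)‖ := by
            refine Finset.sum_le_sum fun w _ => ?_
            have h := norm_u_le hb w
            have h0 := norm_nonneg (emb (Q.u w))
            rw [mul_assoc]
            refine mul_le_of_le_one_right (norm_nonneg _) ?_
            exact mul_le_one₀ h h0 h
        _ = 1 := by
            rw [Finset.sum_const, Finset.card_univ, nsmul_eq_mul, norm_div, norm_one,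
              Complex.norm_natCast]
            have : (Fintype.card (W T (k + 1)) : ℝ) ≠ 0 := by
              exact_mod_cast Fintype.card_ne_zero
            field_simp
    have h2 : ∑ g : Gp (T.H k), ‖(1 / Fintype.card (Gp (T.H k)) : ℂ)‖ *
        ‖emb (Q.tail (k + 1) (ev T k g))‖ * ‖emb (Q.tail (k + 1) (ev T k g * zv T k))‖ ≤ 3 := by
      calc _ ≤ ∑ _g : Gp (T.H k), ‖(1 / Fintype.card (Gp (T.H k)) : ℂ)‖ * 3 := by
            refine Finset.sum_le_sum fun g _ => ?_
            have h3 := norm_tail_le hb zero_le_one (M := k + 1) (p := ev T k g)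
              (fun n hn => Q.N_ev hn g)
            have h4 := norm_tail_le hb (by norm_num : (0 : ℝ) ≤ 3) (M := k + 1)
              (p := ev T k g * zv T k) (fun n hn => Q.N_ev_zv hn g)
            rw [mul_assoc]
            refine mul_le_mul_of_nonneg_left ?_ (norm_nonneg _)
            calc _ ≤ (1 : ℝ) * 3 := mul_le_mul h3 h4 (norm_nonneg _) zero_le_one
              _ = 3 := by norm_num
        _ = 3 := by
            rw [Finset.sum_const, Finset.card_univ, nsmul_eq_mul, norm_div, norm_one,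
              Complex.norm_natCast]
            have : (Fintype.card (Gp (T.H k)) : ℝ) ≠ 0 := by
              exact_mod_cast Fintype.card_ne_zero
            field_simp
    have h3 : ∑ _x : Unit, ‖(1 : ℂ)‖ * ‖emb (Q.tail (k + 1) (yv T k))‖ *
        ‖emb (Q.tail (k + 1) (yv T k))‖ ≤ 4 := by
      have h4 := norm_tail_le hb (by norm_num : (0 : ℝ) ≤ 2) (M := k + 1) (p := yv T k)
        (fun n hn => Q.N_yv hn)
      have h5 := norm_nonneg (emb (Q.tail (k + 1) (yv T k)))
      simp only [Finset.univ_unique, Finset.sum_singleton, norm_one, one_mul]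
      nlinarith
    linarith

variable {Q emb}

/-- The commutator functional in its three parts. -/
theorem cm_pre (hb : Q.Bd emb) (k : ℕ) (a : A) (β : A →L[ℂ] A →L[ℂ] ℂ) :
    (Q.pre emb hb).cm k a β =
      (1 / Fintype.card (W T (k + 1)) : ℂ) * ∑ w : W T (k + 1),
        (β (a * emb (Q.u w)) (emb (Q.u w)) - β (emb (Q.u w)) (emb (Q.u w) * a)) +
      ((1 / Fintype.card (Gp (T.H k)) : ℂ) * ∑ g : Gp (T.H k),
        (β (a * emb (Q.tail (k + 1) (ev T k g))) (emb (Q.tail (k + 1) (ev T k g * zv T k))) -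
          β (emb (Q.tail (k + 1) (ev T k g))) (emb (Q.tail (k + 1) (ev T k g * zv T k)) * a)) +
      (β (a * emb (Q.tail (k + 1) (yv T k))) (emb (Q.tail (k + 1) (yv T k))) -
          β (emb (Q.tail (k + 1) (yv T k))) (emb (Q.tail (k + 1) (yv T k)) * a))) := by
  unfold PreDiag.cm pre
  simp only
  rw [Fintype.sum_sum_type, Fintype.sum_sum_type]
  simp only [Sum.elim_inl, Sum.elim_inr, Finset.univ_unique, Finset.sum_singleton, one_mul,
    Finset.mul_sum]

/-- Exact commutation with the heads. -/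
theorem cm_head (hb : Q.Bd emb) {k : ℕ} (f : ∀ n, Om (T.I n) → ℂ) (β : A →L[ℂ] A →L[ℂ] ℂ) :
    (Q.pre emb hb).cm k (emb (Q.head (k + 1) f)) β = 0 := by
  have h1 : ∀ p, emb (Q.head (k + 1) f) * emb (Q.tail (k + 1) p) = 0 := by
    intro p
    rw [← map_mul, head_mul_tail, map_zero]
  have h2 : ∀ p, emb (Q.tail (k + 1) p) * emb (Q.head (k + 1) f) = 0 := by
    intro p
    rw [← map_mul, tail_mul_head, map_zero]
  rw [cm_pre]
  simp only [h1, h2, map_zero, zero_apply, sub_zero, Finset.sum_const_zero,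
    mul_zero, add_zero]
  have h3 : ∀ x ∈ Submodule.span ℂ (Set.range (Q.u (M := k + 1))),
      ∑ w : W T (k + 1), (β (emb x * emb (Q.u w)) (emb (Q.u w)) -
        β (emb (Q.u w)) (emb (Q.u w) * emb x)) = 0 := by
    intro x hx
    induction hx using Submodule.span_induction with
    | mem x hx =>
      obtain ⟨v, rfl⟩ := hx
      rw [Finset.sum_sub_distrib, sub_eq_zero]
      exact sum_group W_sq (fun w => emb (Q.u w)) (fun w w' => by rw [u_mul, map_mul]) β v
    | zero => simp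
    | add x y _ _ hx hy =>
      rw [← add_zero (0 : ℂ)]
      nth_rewrite 1 [← hx]
      rw [← hy, ← Finset.sum_add_distrib]
      refine Finset.sum_congr rfl fun w _ => ?_
      rw [map_add, add_mul, mul_add, map_add, map_add, add_apply]
      ring
    | smul c x _ hx =>
      rw [← mul_zero c, ← hx, Finset.mul_sum]
      refine Finset.sum_congr rfl fun w _ => ?_
      rw [map_smul, smul_mul_assoc, mul_smul_comm, map_smul, map_smul, smul_apply, smul_eq_mul,
        smul_eq_mul]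
      ring
  rw [h3 _ (Q.head_mem (k + 1) f), mul_zero]

theorem head_succ (M M' : ℕ) (h : M ≤ M') (f : ∀ n, Om (T.I n) → ℂ) :
    Q.head M f = Q.head M' (fun n => if n < M then f n else 0) := by
  refine Subtype.ext (Prod.ext rfl (funext fun n => ?_))
  show (if n < M then f n else 0) = (if n < M' then (if n < M then f n else 0) else 0)
  split_ifs with h1 h2
  · rfl
  · omega
  · rfl
  · rfl

theorem head_good (hb : Q.Bd emb) (M : ℕ) (f : ∀ n, Om (T.I n) → ℂ) :
    emb (Q.head M f) ∈ (Q.pre emb hb).good := by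
  refine PreDiag.mem_good_of_le _ (u := fun _ => 0) tendsto_const_nhds (k₀ := M) fun k hk β => ?_
  rw [head_succ M (k + 1) (by omega), cm_head hb, norm_zero, mul_zero]

/-- The commutator with a tail. -/
theorem cm_tail_le (hb : Q.Bd emb) {k i : ℕ} (hi : i < T.r k) (β : A →L[ℂ] A →L[ℂ] ℂ) :
    ‖(Q.pre emb hb).cm k (emb (Q.tail (k + 1) (MvPolynomial.X i))) β‖ ≤
      ‖β‖ * (14 / ((k : ℝ) + 1)) := by
  have h1 : ∀ w : W T (k + 1), emb (Q.tail (k + 1) (MvPolynomial.X i)) * emb (Q.u w) = 0 := by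
    intro w
    unfold u
    rw [← map_mul, tail_mul_head, map_zero]
  have h2 : ∀ w : W T (k + 1), emb (Q.u w) * emb (Q.tail (k + 1) (MvPolynomial.X i)) = 0 := by
    intro w
    unfold u
    rw [← map_mul, head_mul_tail, map_zero]
  rw [cm_pre]
  simp only [h1, h2, map_zero, zero_apply, sub_zero, Finset.sum_const_zero,
    mul_zero, zero_add]
  have hk : (0 : ℝ) < (k : ℝ) + 1 := by positivity
  -- the third part
  have hy : ‖emb (Q.tail (k + 1) (yv T k))‖ ≤ 2 :=
    norm_tail_le hb (by norm_num) (fun n hn => Q.N_yv hn)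
  have hxy : ‖emb (Q.tail (k + 1) (MvPolynomial.X i)) * emb (Q.tail (k + 1) (yv T k))‖ ≤
      2 / ((k : ℝ) + 1) := by
    rw [← map_mul, ← tail_mul]
    exact norm_tail_le hb (by positivity) (fun n hn => Q.N_xy hn hi)
  have h3 : ‖β (emb (Q.tail (k + 1) (MvPolynomial.X i)) * emb (Q.tail (k + 1) (yv T k)))
      (emb (Q.tail (k + 1) (yv T k))) - β (emb (Q.tail (k + 1) (yv T k)))
      (emb (Q.tail (k + 1) (yv T k)) * emb (Q.tail (k + 1) (MvPolynomial.X i)))‖ ≤
      ‖β‖ * (8 / ((k : ℝ) + 1)) := by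
    have e1 := β.le_opNorm₂ (emb (Q.tail (k + 1) (MvPolynomial.X i)) *
      emb (Q.tail (k + 1) (yv T k))) (emb (Q.tail (k + 1) (yv T k)))
    have e2 := β.le_opNorm₂ (emb (Q.tail (k + 1) (yv T k)))
      (emb (Q.tail (k + 1) (yv T k)) * emb (Q.tail (k + 1) (MvPolynomial.X i)))
    rw [mul_comm (emb (Q.tail (k + 1) (yv T k))) (emb (Q.tail (k + 1) (MvPolynomial.X i)))] at e2 ⊢
    have e3 : ‖β‖ * ‖emb (Q.tail (k + 1) (MvPolynomial.X i)) * emb (Q.tail (k + 1) (yv T k))‖ *
        ‖emb (Q.tail (k + 1) (yv T k))‖ ≤ ‖β‖ * (2 / ((k : ℝ) + 1)) * 2 := by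
      gcongr
    have e4 : ‖β‖ * ‖emb (Q.tail (k + 1) (yv T k))‖ *
        ‖emb (Q.tail (k + 1) (MvPolynomial.X i)) * emb (Q.tail (k + 1) (yv T k))‖ ≤
        ‖β‖ * 2 * (2 / ((k : ℝ) + 1)) := by
      gcongr
    have e5 := norm_sub_le (β (emb (Q.tail (k + 1) (MvPolynomial.X i)) *
      emb (Q.tail (k + 1) (yv T k))) (emb (Q.tail (k + 1) (yv T k))))
      (β (emb (Q.tail (k + 1) (yv T k)))
      (emb (Q.tail (k + 1) (MvPolynomial.X i)) * emb (Q.tail (k + 1) (yv T k))))
    have e6 : ‖β‖ * (8 / ((k : ℝ) + 1)) = ‖β‖ * (2 / ((k : ℝ) + 1)) * 2 +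
        ‖β‖ * 2 * (2 / ((k : ℝ) + 1)) := by ring
    linarith
  -- the second part
  obtain ⟨c, hc⟩ := T.d2 k i hi
  set E : Gp (T.H k) → A := fun g => emb (Q.tail (k + 1) (ev T k g)) with hE
  set z : A := emb (Q.tail (k + 1) (zv T k)) with hz
  set x : A := emb (Q.tail (k + 1) (MvPolynomial.X i)) with hx
  set s : Gp (T.H k) → A := fun g => ∑ h, c h • E (g + uv h) with hs
  have hEz : ∀ g, emb (Q.tail (k + 1) (ev T k g * zv T k)) = E g * z := by
    intro g
    rw [tail_mul, map_mul]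
  have hnE : ∀ g, ‖E g‖ ≤ 1 := fun g =>
    norm_tail_le hb zero_le_one (fun n hn => Q.N_ev hn g)
  have hnEz : ∀ g, ‖E g * z‖ ≤ 3 := fun g => by
    rw [← hEz]
    exact norm_tail_le hb (by norm_num) (fun n hn => Q.N_ev_zv hn g)
  have hnz : ‖z‖ ≤ 3 := norm_tail_le hb (by norm_num) (fun n hn => Q.N_zv hn)
  have herr : ∀ g, ‖E g * x - s g‖ ≤ 1 / ((k : ℝ) + 1) := by
    intro g
    have e1 : E g * x - s g = emb (Q.tail (k + 1) (ev T k g * MvPolynomial.X i -
        ∑ h, c h • ev T k (g + uv h))) := by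
      have e2 : Q.tail (k + 1) (ev T k g * MvPolynomial.X i - ∑ h, c h • ev T k (g + uv h)) =
          Q.tail (k + 1) (ev T k g) * Q.tail (k + 1) (MvPolynomial.X i) -
            ∑ h, c h • Q.tail (k + 1) (ev T k (g + uv h)) := by
        rw [← tail_mul, ← tailL_apply, map_sub, map_sum]
        simp only [map_smul, tailL_apply]
      rw [e2, map_sub, map_mul, map_sum]
      simp only [map_smul]
      rfl
    rw [e1]
    exact norm_tail_le hb (by positivity) (fun n hn => Q.N_sigma_le' hn (hc g))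
  have h4 : ∀ g, ‖(β (x * E g) (E g * z) - β (E g) (E g * z * x)) -
      (β (s g) (E g * z) - β (E g) (s g * z))‖ ≤ ‖β‖ * (6 / ((k : ℝ) + 1)) := by
    intro g
    have e1 : (β (x * E g) (E g * z) - β (E g) (E g * z * x)) -
        (β (s g) (E g * z) - β (E g) (s g * z)) =
        β (E g * x - s g) (E g * z) - β (E g) ((E g * x - s g) * z) := by
      have e2 : E g * z * x = (E g * x) * z := by ring
      rw [e2, mul_comm x (E g), sub_mul, map_sub, map_sub, sub_apply]
      ring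
    rw [e1]
    have e3 := β.le_opNorm₂ (E g * x - s g) (E g * z)
    have e4 := β.le_opNorm₂ (E g) ((E g * x - s g) * z)
    have e5 := norm_sub_le (β (E g * x - s g) (E g * z)) (β (E g) ((E g * x - s g) * z))
    have e6 : ‖β‖ * ‖E g * x - s g‖ * ‖E g * z‖ ≤ ‖β‖ * (1 / ((k : ℝ) + 1)) * 3 := by
      gcongr
      · exact herr g
      · exact hnEz g
    have e7 : ‖(E g * x - s g) * z‖ ≤ 1 / ((k : ℝ) + 1) * 3 := by
      refine (norm_mul_le _ _).trans ?_
      exact mul_le_mul (herr g) hnz (norm_nonneg _) (by positivity)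
    have e8 : ‖β‖ * ‖E g‖ * ‖(E g * x - s g) * z‖ ≤ ‖β‖ * 1 * (1 / ((k : ℝ) + 1) * 3) := by
      gcongr
      exact hnE g
    have e9 : ‖β‖ * (6 / ((k : ℝ) + 1)) = ‖β‖ * (1 / ((k : ℝ) + 1)) * 3 +
        ‖β‖ * 1 * (1 / ((k : ℝ) + 1) * 3) := by ring
    linarith
  have h5 : ∑ g, (β (s g) (E g * z) - β (E g) (s g * z)) = 0 := by
    rw [Finset.sum_sub_distrib, sub_eq_zero]
    exact sum_shift E c z β
  have h6 : ‖(1 / Fintype.card (Gp (T.H k)) : ℂ) * ∑ g : Gp (T.H k),
      (β (x * E g) (emb (Q.tail (k + 1) (ev T k g * zv T k))) -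
        β (E g) (emb (Q.tail (k + 1) (ev T k g * zv T k)) * x))‖ ≤ ‖β‖ * (6 / ((k : ℝ) + 1)) := by
    simp only [hEz]
    have e1 : ∑ g : Gp (T.H k), (β (x * E g) (E g * z) - β (E g) (E g * z * x)) =
        ∑ g : Gp (T.H k), ((β (x * E g) (E g * z) - β (E g) (E g * z * x)) -
          (β (s g) (E g * z) - β (E g) (s g * z))) := by
      rw [Finset.sum_sub_distrib (f := fun g => β (x * E g) (E g * z) - β (E g) (E g * z * x)),
        h5, sub_zero]
    rw [e1, norm_mul]
    have hcard : (0 : ℝ) < Fintype.card (Gp (T.H k)) := by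
      exact_mod_cast Fintype.card_pos
    have e2 : ‖∑ g : Gp (T.H k), ((β (x * E g) (E g * z) - β (E g) (E g * z * x)) -
          (β (s g) (E g * z) - β (E g) (s g * z)))‖ ≤
        Fintype.card (Gp (T.H k)) * (‖β‖ * (6 / ((k : ℝ) + 1))) := by
      refine (norm_sum_le _ _).trans ?_
      refine (Finset.sum_le_sum fun g _ => h4 g).trans ?_
      rw [Finset.sum_const, Finset.card_univ, nsmul_eq_mul]
    rw [norm_div, norm_one, Complex.norm_natCast]
    calc 1 / (Fintype.card (Gp (T.H k)) : ℝ) * _ ≤ 1 / (Fintype.card (Gp (T.H k)) : ℝ) *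
          (Fintype.card (Gp (T.H k)) * (‖β‖ * (6 / ((k : ℝ) + 1)))) :=
          mul_le_mul_of_nonneg_left e2 (by positivity)
      _ = ‖β‖ * (6 / ((k : ℝ) + 1)) := by field_simp
  have h7 : ‖β‖ * (14 / ((k : ℝ) + 1)) = ‖β‖ * (6 / ((k : ℝ) + 1)) + ‖β‖ * (8 / ((k : ℝ) + 1)) := by
    ring
  rw [h7]
  exact (norm_add_le _ _).trans (add_le_add h6 h3)

theorem tail_good (hb : Q.Bd emb) (i : ℕ) :
    emb (Q.tail 0 (MvPolynomial.X i)) ∈ (Q.pre emb hb).good := by
  have hr : ∀ k, k ≤ T.r k := by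
    intro k
    induction k with
    | zero => exact Nat.zero_le _
    | succ k ih => exact Nat.succ_le_of_lt (lt_of_le_of_lt ih (T.hr k))
  have hlim : Tendsto (fun k : ℕ => 14 / ((k : ℝ) + 1)) atTop (𝓝 0) := by
    have h1 := (tendsto_one_div_add_atTop_nhds_zero_nat (𝕜 := ℝ)).const_mul 14
    rw [mul_zero] at h1
    refine h1.congr fun k => ?_
    ring
  refine PreDiag.mem_good_of_le _ hlim (k₀ := i + 1) fun k hk β => ?_
  rw [Q.tail_zero_eq (k + 1), map_add, PreDiag.cm_add, cm_head hb, zero_add]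
  exact cm_tail_le hb (by have := hr k; omega) β

theorem all_good (hb : Q.Bd emb) (hd : DenseRange emb) (a : A) : a ∈ (Q.pre emb hb).good := by
  set S : Set A := {x | (∃ i : ℕ, x = emb (Q.tail 0 (MvPolynomial.X i))) ∨
    ∃ M f, x = emb (Q.head M f)} with hS
  refine PreDiag.good_of_dense _ (S := S) ?_ ?_ a
  · rintro x (⟨i, rfl⟩ | ⟨M, f, rfl⟩)
    · exact tail_good hb i
    · exact head_good hb M f
  · refine hd.mono ?_
    rintro _ ⟨x, rfl⟩
    obtain ⟨M, f, hx⟩ := Q.exists_head x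
    rw [hx, map_add]
    refine Subalgebra.add_mem _ ?_ (Algebra.subset_adjoin (Or.inr ⟨M, f, rfl⟩))
    have h1 : ∀ p : P, emb (Q.tail 0 p) ∈ Algebra.adjoin ℂ S := by
      intro p
      induction p using MvPolynomial.induction_on with
      | C c =>
        have e1 : Q.tail 0 (MvPolynomial.C c) = algebraMap ℂ Q.R c := by
          refine Subtype.ext (Prod.ext rfl (funext fun n => ?_))
          show (if n < 0 then 0 else T.σ n (MvPolynomial.C c)) = _
          simp only [Nat.not_lt_zero, if_false]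
          exact (T.σ n).commutes c
        rw [e1, AlgHom.commutes]
        exact Subalgebra.algebraMap_mem _ _
      | add p q hp hq =>
        rw [tail_add, map_add]
        exact Subalgebra.add_mem _ hp hq
      | mul_X p i hp =>
        rw [tail_mul, map_mul]
        exact Subalgebra.mul_mem _ hp (Algebra.subset_adjoin (Or.inl ⟨i, rfl⟩))
    exact h1 _

theorem unit_pre (hb : Q.Bd emb) :
    Tendsto (fun k => ∑ j, (Q.pre emb hb).lam k j • ((Q.pre emb hb).b k j * (Q.pre emb hb).c k j))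
      atTop (𝓝 1) := by
  rw [tendsto_iff_norm_sub_tendsto_zero]
  have hlim : Tendsto (fun k : ℕ => 3 / ((k : ℝ) + 1)) atTop (𝓝 0) := by
    have h1 := (tendsto_one_div_add_atTop_nhds_zero_nat (𝕜 := ℝ)).const_mul 3
    rw [mul_zero] at h1
    refine h1.congr fun k => ?_
    ring
  refine squeeze_zero (fun k => norm_nonneg _) (fun k => ?_) hlim
  have hk : (0 : ℝ) < (k : ℝ) + 1 := by positivity
  have h0 : ∑ j, (Q.pre emb hb).lam k j • ((Q.pre emb hb).b k j * (Q.pre emb hb).c k j) =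
      ∑ w : W T (k + 1), (1 / Fintype.card (W T (k + 1)) : ℂ) • (emb (Q.u w) * emb (Q.u w)) +
      (∑ g : Gp (T.H k), (1 / Fintype.card (Gp (T.H k)) : ℂ) •
        (emb (Q.tail (k + 1) (ev T k g)) * emb (Q.tail (k + 1) (ev T k g * zv T k))) +
      emb (Q.tail (k + 1) (yv T k)) * emb (Q.tail (k + 1) (yv T k))) := by
    unfold pre
    simp only
    rw [Fintype.sum_sum_type, Fintype.sum_sum_type]
    simp only [Sum.elim_inl, Sum.elim_inr, Finset.univ_unique, Finset.sum_singleton, one_smul]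
  have h1 : ∑ w : W T (k + 1), (1 / Fintype.card (W T (k + 1)) : ℂ) •
      (emb (Q.u w) * emb (Q.u w)) = emb (Q.head (k + 1) 1) := by
    have e1 : ∀ w : W T (k + 1), emb (Q.u w) * emb (Q.u w) = emb (Q.head (k + 1) 1) := by
      intro w
      rw [← map_mul, ← u_mul, W_sq, u_one]
    simp only [e1]
    rw [Finset.sum_const, Finset.card_univ, ← Nat.cast_smul_eq_nsmul ℂ, smul_smul]
    have : (Fintype.card (W T (k + 1)) : ℂ) ≠ 0 := by
      exact_mod_cast Fintype.card_ne_zero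
    rw [mul_one_div_cancel this, one_smul]
  have hcard : (Fintype.card (Gp (T.H k)) : ℂ) ≠ 0 := by
    exact_mod_cast Fintype.card_ne_zero
  have h2 : (1 : A) = emb (Q.head (k + 1) 1) +
      (∑ _g : Gp (T.H k), (1 / Fintype.card (Gp (T.H k)) : ℂ) •
        emb (Q.tail (k + 1) (ev T k 0 * ev T k 0 * zv T k)) +
      emb (Q.tail (k + 1) (yv T k)) * emb (Q.tail (k + 1) (yv T k))) := by
    rw [Finset.sum_const, Finset.card_univ, ← Nat.cast_smul_eq_nsmul ℂ, smul_smul,
      mul_one_div_cancel hcard, one_smul, ← map_mul, ← map_add, ← map_add, ← tail_mul, ← tail_add]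
    have e1 : ev T k 0 * ev T k 0 * zv T k + yv T k * yv T k = 1 := by
      unfold yv zv
      ring
    rw [e1, head_add_tail_one, map_one]
  have h3 : (∑ j, (Q.pre emb hb).lam k j • ((Q.pre emb hb).b k j * (Q.pre emb hb).c k j)) - 1 =
      ∑ g : Gp (T.H k), (1 / Fintype.card (Gp (T.H k)) : ℂ) •
        emb (Q.tail (k + 1) ((ev T k g * ev T k g - ev T k 0 * ev T k 0) * zv T k)) := by
    rw [h0, h1]
    refine (congrArg (fun t : A => _ - t) h2).trans ?_
    rw [add_sub_add_left_eq_sub, add_sub_add_right_eq_sub, ← Finset.sum_sub_distrib]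
    refine Finset.sum_congr rfl fun g _ => ?_
    rw [← smul_sub, ← map_mul, ← map_sub, ← tail_mul]
    congr 2
    rw [← tailL_apply, ← tailL_apply, ← map_sub, tailL_apply]
    congr 1
    ring
  rw [h3]
  have h4 : ∀ g : Gp (T.H k), ‖emb (Q.tail (k + 1)
      ((ev T k g * ev T k g - ev T k 0 * ev T k 0) * zv T k))‖ ≤ 3 / ((k : ℝ) + 1) := by
    intro g
    refine norm_tail_le hb (by positivity) fun n hn => ?_
    rw [map_mul]
    refine ((Q.G n).mul _ _).trans ?_
    calc _ ≤ 1 / ((k : ℝ) + 1) * 3 :=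
          mul_le_mul (Q.N_d3 hn g) (Q.N_zv hn) ((Q.G n).nonneg _) (by positivity)
      _ = 3 / ((k : ℝ) + 1) := by ring
  refine (norm_sum_le _ _).trans ?_
  calc _ ≤ ∑ _g : Gp (T.H k), (1 / (Fintype.card (Gp (T.H k)) : ℝ)) * (3 / ((k : ℝ) + 1)) := by
        refine Finset.sum_le_sum fun g _ => ?_
        rw [norm_smul, norm_div, norm_one, Complex.norm_natCast]
        exact mul_le_mul_of_nonneg_left (h4 g) (by positivity)
    _ = 3 / ((k : ℝ) + 1) := by
        rw [Finset.sum_const, Finset.card_univ, nsmul_eq_mul]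
        have : (Fintype.card (Gp (T.H k)) : ℝ) ≠ 0 := by
          exact_mod_cast Fintype.card_ne_zero
        field_simp

/-- **The approximate diagonal of the algebra of a tower.** -/
def diag (Q : DData T) {A : Type} [NormedCommRing A] [NormedAlgebra ℂ A] (emb : Q.R →ₐ[ℂ] A)
    (hd : DenseRange emb)
    (hb : ∀ (x : Q.R) (c : ℝ), (∀ n, (Q.G n).N (x.1.2 n) ≤ c) → ‖emb x‖ ≤ c) : ApproxDiag A :=
  (Q.pre emb hb).toApproxDiag (unit_pre hb) (all_good hb hd)

end DData

end

end Pool.Hom82
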