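import Pool.Agent.Work.MP_8222c7_an.DiagB

/-!
# The algebra of a tower has a bounded approximate diagonal
-/

set_option autoImplicit false

namespace Pool.Hom82

noncomputable section

/-- The data of the algebra `Afin T`. -/
def ddata (T : Tower) : DData T where
  R := Afin T
  hR _ := mem_Afin T
  G := gn T
  hG n _ hs := gn_le_one T n hs
  hw n := span_walsh (T.I n)

/-- The approximate diagonal of the algebra of a tower. -/
def diagAA (T : Tower) : ApproxDiag (AA T) :=
  (ddata T).diag (emb T) (dense_emb T) fun x _ h => (norm_emb T x).le.trans (NA_le T x h)

end

end Pool.Hom82
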