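import Pool.Agent.Work.MP_8222c7_an.Defs

/-!
From the analytic data (a unital commutative Banach algebra `A`, Johnson amenable, with characters
separating the points, a homomorphism `φ : A → B` and a character `χ` of `A` such that every
character of `B` composed with `φ` is `χ`) to the final statements.
-/

set_option autoImplicit false

namespace Pool.Hom82

noncomputable section

section char

variable {B : Type} [NormedCommRing B] [NormedAlgebra ℂ B] [CompleteSpace B]

theorem spectrum_of_char (b : B) (h : ∀ θ : B →ₐ[ℂ] ℂ, θ b = 0) : spectrum ℂ b ⊆ {0} := by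
  intro z hz
  rw [WeakDual.CharacterSpace.mem_spectrum_iff_exists] at hz
  obtain ⟨f, hf⟩ := hz
  have h0 : f b = 0 := h (WeakDual.CharacterSpace.toAlgHom f)
  rw [Set.mem_singleton_iff, ← hf, h0]

theorem quasispectrum_of_char (b : B) (h : ∀ θ : B →ₐ[ℂ] ℂ, θ b = 0) :
    quasispectrum ℂ b ⊆ {0} := by
  rw [quasispectrum_eq_spectrum_union_zero]
  exact Set.union_subset (spectrum_of_char b h) (le_refl _)

theorem mem_jacobson_of_char (b : B) (h : ∀ θ : B →ₐ[ℂ] ℂ, θ b = 0) :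
    b ∈ (⊥ : Ideal B).jacobson := by
  rw [Ideal.mem_jacobson_bot]
  intro y
  have h1 : spectrum ℂ (b * y) ⊆ {0} := by
    refine spectrum_of_char _ fun θ => ?_
    rw [map_mul, h θ, zero_mul]
  have h2 : (-1 : ℂ) ∉ spectrum ℂ (b * y) := by
    intro hm
    have := h1 hm
    rw [Set.mem_singleton_iff] at this
    norm_num at this
  rw [spectrum.notMem_iff] at h2
  have h3 := h2.neg
  have h4 : -((algebraMap ℂ B) (-1) - b * y) = b * y + 1 := by
    rw [map_neg, map_one]
    ring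
  rwa [h4] at h3

theorem char_of_mem_jacobson (b : B) (hb : b ∈ (⊥ : Ideal B).jacobson) (θ : B →ₐ[ℂ] ℂ) :
    θ b = 0 := by
  rw [Ideal.mem_jacobson_bot] at hb
  by_contra hne
  have h1 := hb (-(algebraMap ℂ B) (θ b)⁻¹)
  have h2 := h1.map θ
  have h3 : θ (b * -(algebraMap ℂ B) (θ b)⁻¹ + 1) = 0 := by
    rw [map_add, map_mul, map_neg, map_one, AlgHom.commutes]
    simp [hne]
  rw [h3] at h2
  exact not_isUnit_zero h2

theorem jacobson_eq_bot (ss : ∀ a : B, (∀ θ : B →ₐ[ℂ] ℂ, θ a = 0) → a = 0) :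
    (⊥ : Ideal B).jacobson = ⊥ := by
  rw [eq_bot_iff]
  intro a ha
  exact ss a fun θ => char_of_mem_jacobson a ha θ

end char

section final

variable {A B : Type} [NormedCommRing A] [NormedAlgebra ℂ A] [CompleteSpace A]
  [NormedCommRing B] [NormedAlgebra ℂ B] [CompleteSpace B]

/-- the constant homomorphism of a character -/
def charHom (B : Type) [NormedCommRing B] [NormedAlgebra ℂ B] (χ : A →ₐ[ℂ] ℂ) : A →ₐ[ℂ] B :=
  (Algebra.ofId ℂ B).comp χ

omit [CompleteSpace A] [CompleteSpace B] in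
theorem charHom_apply (χ : A →ₐ[ℂ] ℂ) (a : A) : charHom B χ a = algebraMap ℂ B (χ a) := rfl

omit [CompleteSpace B] in
theorem charHom_continuous (χ : A →ₐ[ℂ] ℂ) : Continuous (charHom B χ) :=
  (continuous_algebraMap ℂ B).comp (map_continuous χ)

/-- the exact negated frozen statement -/
theorem frozen_of_data (hA : Amenable A) (φ : A →ₐ[ℂ] B) (hφ : Continuous φ) (χ : A →ₐ[ℂ] ℂ)
    (hθ : ∀ (θ : B →ₐ[ℂ] ℂ) a, θ (φ a) = χ a) (hne : ∃ a, φ a ≠ algebraMap ℂ B (χ a)) :
    ¬ (∀ (A : Type) [NonUnitalNormedCommRing A] [NormedSpace ℂ A] [IsScalarTower ℂ A A]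
      [SMulCommClass ℂ A A] [CompleteSpace A],
      (∃ a : A, ¬ quasispectrum ℂ a ⊆ {0}) →
      (∀ (E : Type) [NormedAddCommGroup E] [NormedSpace ℂ E] [CompleteSpace E]
        (l r : A →L[ℂ] (E →L[ℂ] E)),
        (∀ a b : A, l (a * b) = (l a).comp (l b)) →
        (∀ a b : A, r (a * b) = (r b).comp (r a)) →
        (∀ a b : A, (l a).comp (r b) = (r b).comp (l a)) →
        ∀ D : A →L[ℂ] (E →L[ℂ] ℂ),
          (∀ (a b : A) (x : E), D (a * b) x = D b (r a x) + D a (l b x)) →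
          ∃ f : E →L[ℂ] ℂ, ∀ (a : A) (x : E), D a x = f (r a x) - f (l a x)) →
      ∀ (B : Type) [NonUnitalNormedCommRing B] [NormedSpace ℂ B] [IsScalarTower ℂ B B]
        [SMulCommClass ℂ B B] [CompleteSpace B]
        (φ ψ : A →ₙₐ[ℂ] B), Continuous φ → Continuous ψ →
        (∀ a : A, quasispectrum ℂ (φ a - ψ a) ⊆ {0}) → φ = ψ) := by
  intro H
  obtain ⟨a0, ha0⟩ := hne
  have hB : Nontrivial B := ⟨⟨_, _, ha0⟩⟩
  have hAn : Nontrivial A := by
    by_contra hcon
    rw [not_nontrivial_iff_subsingleton] at hcon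
    have h1 : (1 : A) = 0 := Subsingleton.elim _ _
    have h2 : (1 : B) = 0 := by rw [← map_one φ, h1, map_zero]
    exact one_ne_zero h2
  have hnr : ∃ a : A, ¬ quasispectrum ℂ a ⊆ {0} := by
    refine ⟨1, fun hsub => ?_⟩
    have h1 : (1 : ℂ) ∈ quasispectrum ℂ (1 : A) := by
      rw [quasispectrum_eq_spectrum_union_zero, spectrum.one_eq]
      exact Or.inl rfl
    have h2 := hsub h1
    rw [Set.mem_singleton_iff] at h2
    exact one_ne_zero h2
  have key := H A hnr hA B (φ : A →ₙₐ[ℂ] B) (charHom B χ : A →ₙₐ[ℂ] B) hφ (charHom_continuous χ) (by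
    intro a
    refine quasispectrum_of_char _ fun θ => ?_
    show θ (φ a - charHom B χ a) = 0
    rw [map_sub, hθ, charHom_apply, AlgHom.commutes]
    exact sub_self _)
  apply ha0
  have := congrArg (fun f : A →ₙₐ[ℂ] B => f a0) key
  exact this

/-- the statement with a semisimple algebra -/
theorem semisimple_of_data (hA : Amenable A)
    (ss : ∀ a : A, (∀ θ : A →ₐ[ℂ] ℂ, θ a = 0) → a = 0)
    (φ : A →ₐ[ℂ] B) (hφ : Continuous φ) (hsur : Function.Surjective φ) (χ : A →ₐ[ℂ] ℂ)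
    (hθ : ∀ (θ : B →ₐ[ℂ] ℂ) a, θ (φ a) = χ a) (hne : ∃ a, φ a ≠ algebraMap ℂ B (χ a)) :
    ∃ (A : Type) (_ : NormedCommRing A) (_ : NormedAlgebra ℂ A) (_ : CompleteSpace A)
      (B : Type) (_ : NormedCommRing B) (_ : NormedAlgebra ℂ B) (_ : CompleteSpace B)
      (φ ψ : A →ₐ[ℂ] B),
      Amenable A ∧ (⊥ : Ideal A).jacobson = ⊥ ∧ Continuous φ ∧ Continuous ψ ∧
      Function.Surjective φ ∧ (∀ a, ∃ c : ℂ, ψ a = algebraMap ℂ B c) ∧
      (∀ a, φ a - ψ a ∈ (⊥ : Ideal B).jacobson) ∧ φ ≠ ψ := by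
  obtain ⟨a0, ha0⟩ := hne
  refine ⟨A, inferInstance, inferInstance, inferInstance, B, inferInstance, inferInstance,
    inferInstance, φ, charHom B χ, hA, jacobson_eq_bot ss, hφ, charHom_continuous χ, hsur,
    fun a => ⟨χ a, rfl⟩, ?_, ?_⟩
  · intro a
    refine mem_jacobson_of_char _ fun θ => ?_
    rw [map_sub, hθ, charHom_apply, AlgHom.commutes]
    exact sub_self _
  · intro heq
    apply ha0
    rw [heq, charHom_apply]

end final

end

end Pool.Hom82
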