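import Pool.Agent.Work.MP_8222c7_an.Defs

set_option autoImplicit false

namespace Pool.Hom82

noncomputable section

section gauge

variable {T : Type} [CommRing T] [Algebra ℂ T]

/-- l1 cost of a finite combination of elements of `S` -/
def GRep (S : Submonoid T) (a : T) : Set ℝ :=
  {x | ∃ f : S →₀ ℂ, (f.sum fun s c => c • (s : T)) = a ∧ x = f.sum fun _ c => ‖c‖}

theorem GRep_nonneg (S : Submonoid T) (a : T) : ∀ x ∈ GRep S a, 0 ≤ x := by
  rintro x ⟨f, -, rfl⟩
  exact Finset.sum_nonneg fun _ _ => norm_nonneg _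

theorem GRep_bdd (S : Submonoid T) (a : T) : BddBelow (GRep S a) :=
  ⟨0, fun x hx => GRep_nonneg S a x hx⟩

theorem GRep_nonempty (S : Submonoid T) (h : Submodule.span ℂ (S : Set T) = ⊤) (a : T) :
    (GRep S a).Nonempty := by
  have ha : a ∈ Submodule.span ℂ (S : Set T) := by rw [h]; trivial
  have ha' : a ∈ Submodule.span ℂ (Set.range ((↑) : S → T)) := by
    rw [Subtype.range_coe_subtype]; exact ha
  obtain ⟨f, hf⟩ := (Finsupp.mem_span_range_iff_exists_finsupp).1 ha'
  exact ⟨_, f, hf, rfl⟩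

theorem GRep_add (S : Submonoid T) {a b : T} {x y : ℝ} (hx : x ∈ GRep S a) (hy : y ∈ GRep S b) :
    ∃ z ∈ GRep S (a + b), z ≤ x + y := by
  obtain ⟨f, hf, rfl⟩ := hx
  obtain ⟨g, hg, rfl⟩ := hy
  classical
  refine ⟨_, ⟨f + g, ?_, rfl⟩, ?_⟩
  · rw [Finsupp.sum_add_index' (fun s => by simp) (fun s c d => by rw [add_smul]), hf, hg]
  · rw [Finsupp.sum_of_support_subset (f + g) (Finsupp.support_add) _ (fun _ _ => norm_zero),
      Finsupp.sum_of_support_subset f Finset.subset_union_left _ (fun _ _ => norm_zero),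
      Finsupp.sum_of_support_subset g Finset.subset_union_right _ (fun _ _ => norm_zero),
      ← Finset.sum_add_distrib]
    exact Finset.sum_le_sum fun s _ => by
      rw [Finsupp.add_apply]; exact norm_add_le _ _

theorem GRep_smul (S : Submonoid T) {a : T} {x : ℝ} (c : ℂ) (hx : x ∈ GRep S a) :
    ∃ z ∈ GRep S (c • a), z ≤ ‖c‖ * x := by
  obtain ⟨f, hf, rfl⟩ := hx
  classical
  refine ⟨_, ⟨c • f, ?_, rfl⟩, ?_⟩
  · rw [Finsupp.sum_smul_index' (fun s => by simp), ← hf, Finsupp.smul_sum]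
    simp only [smul_assoc]
  · rw [Finsupp.sum_of_support_subset (c • f) (Finsupp.support_smul) _ (fun _ _ => norm_zero),
      Finsupp.sum, Finset.mul_sum]
    exact Finset.sum_le_sum fun s _ => by
      rw [Finsupp.smul_apply, smul_eq_mul, norm_mul]

/-- gauge seminorm -/
def gN (S : Submonoid T) (a : T) : ℝ := sInf (GRep S a)

theorem gN_le (S : Submonoid T) {a : T} {x : ℝ} (hx : x ∈ GRep S a) : gN S a ≤ x :=
  csInf_le (GRep_bdd S a) hx

theorem gN_nonneg (S : Submonoid T) (a : T) : 0 ≤ gN S a :=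
  Real.sInf_nonneg (GRep_nonneg S a)

theorem exists_lt_of_gN_lt (S : Submonoid T) (h : Submodule.span ℂ (S : Set T) = ⊤) {a : T}
    {y : ℝ} (hy : gN S a < y) : ∃ x ∈ GRep S a, x < y :=
  exists_lt_of_csInf_lt (GRep_nonempty S h a) hy

theorem gN_zero (S : Submonoid T) : gN S 0 = 0 := by
  apply le_antisymm _ (gN_nonneg S 0)
  apply gN_le
  exact ⟨0, by simp, by simp⟩

theorem gN_add (S : Submonoid T) (h : Submodule.span ℂ (S : Set T) = ⊤) (a b : T) :
    gN S (a + b) ≤ gN S a + gN S b := by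
  apply le_of_forall_pos_lt_add
  intro ε hε
  obtain ⟨x, hx, hx'⟩ := exists_lt_of_gN_lt S h (show gN S a < gN S a + ε / 2 by linarith)
  obtain ⟨y, hy, hy'⟩ := exists_lt_of_gN_lt S h (show gN S b < gN S b + ε / 2 by linarith)
  obtain ⟨z, hz, hz'⟩ := GRep_add S hx hy
  have := gN_le S hz
  linarith

theorem gN_smul (S : Submonoid T) (h : Submodule.span ℂ (S : Set T) = ⊤) (c : ℂ) (a : T) :
    gN S (c • a) ≤ ‖c‖ * gN S a := by
  apply le_of_forall_pos_lt_add
  intro ε hε
  have hc : 0 < ‖c‖ + 1 := by positivity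
  obtain ⟨x, hx, hx'⟩ := exists_lt_of_gN_lt S h
    (show gN S a < gN S a + ε / (‖c‖ + 1) by linarith [div_pos hε hc])
  obtain ⟨z, hz, hz'⟩ := GRep_smul S c hx
  have h1 := gN_le S hz
  have h2 : ‖c‖ * x ≤ ‖c‖ * (gN S a + ε / (‖c‖ + 1)) :=
    mul_le_mul_of_nonneg_left hx'.le (norm_nonneg c)
  have h3 : ‖c‖ * (ε / (‖c‖ + 1)) < ε := by
    rw [mul_div_assoc', div_lt_iff₀ hc]
    nlinarith
  nlinarith

theorem gN_sum (S : Submonoid T) (h : Submodule.span ℂ (S : Set T) = ⊤) {ι : Type*}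
    (s : Finset ι) (f : ι → T) : gN S (∑ i ∈ s, f i) ≤ ∑ i ∈ s, gN S (f i) := by
  classical
  induction s using Finset.induction_on with
  | empty => simp [gN_zero]
  | insert i s hi ih =>
    rw [Finset.sum_insert hi, Finset.sum_insert hi]
    exact (gN_add S h _ _).trans (by linarith)

theorem gN_le_one (S : Submonoid T) {s : T} (hs : s ∈ S) : gN S s ≤ 1 := by
  apply gN_le
  exact ⟨Finsupp.single ⟨s, hs⟩ 1, by simp, by simp⟩

theorem gN_mul (S : Submonoid T) (h : Submodule.span ℂ (S : Set T) = ⊤) (a b : T) :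
    gN S (a * b) ≤ gN S a * gN S b := by
  have key : ∀ x ∈ GRep S a, ∀ y ∈ GRep S b, gN S (a * b) ≤ x * y := by
    rintro x ⟨f, hf, rfl⟩ y ⟨g, hg, rfl⟩
    rw [← hf, ← hg, Finsupp.sum, Finsupp.sum, Finsupp.sum, Finsupp.sum, Finset.sum_mul_sum,
      Finset.sum_mul_sum]
    refine (gN_sum S h _ _).trans (Finset.sum_le_sum fun s _ => ?_)
    refine (gN_sum S h _ _).trans (Finset.sum_le_sum fun t _ => ?_)
    rw [smul_mul_smul_comm]
    refine (gN_smul S h _ _).trans ?_
    rw [norm_mul]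
    have := gN_le_one S (S.mul_mem s.2 t.2)
    have h0 : 0 ≤ ‖f s‖ * ‖g t‖ := by positivity
    nlinarith
  have key2 : ∀ x ∈ GRep S a, gN S (a * b) ≤ x * gN S b := by
    intro x hx
    have hx0 := GRep_nonneg S a x hx
    apply le_of_forall_pos_lt_add
    intro ε hε
    have hc : 0 < x + 1 := by positivity
    obtain ⟨y, hy, hy'⟩ := exists_lt_of_gN_lt S h
      (show gN S b < gN S b + ε / (x + 1) by linarith [div_pos hε hc])
    have h1 := key x hx y hy
    have h2 : x * y ≤ x * (gN S b + ε / (x + 1)) := mul_le_mul_of_nonneg_left hy'.le hx0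
    have h3 : x * (ε / (x + 1)) < ε := by
      rw [mul_div_assoc', div_lt_iff₀ hc]
      nlinarith
    nlinarith
  apply le_of_forall_pos_lt_add
  intro ε hε
  have hb0 := gN_nonneg S b
  have hc : 0 < gN S b + 1 := by positivity
  obtain ⟨x, hx, hx'⟩ := exists_lt_of_gN_lt S h
    (show gN S a < gN S a + ε / (gN S b + 1) by linarith [div_pos hε hc])
  have h1 := key2 x hx
  have h2 : x * gN S b ≤ (gN S a + ε / (gN S b + 1)) * gN S b :=
    mul_le_mul_of_nonneg_right hx'.le hb0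
  have h3 : (ε / (gN S b + 1)) * gN S b < ε := by
    rw [div_mul_eq_mul_div, div_lt_iff₀ hc]
    nlinarith
  nlinarith

/-- gauge seminorm of a spanning submonoid -/
def gaugeSn (S : Submonoid T) (h : Submodule.span ℂ (S : Set T) = ⊤) : AlgSn T where
  N := gN S
  nonneg := gN_nonneg S
  zero := gN_zero S
  add := gN_add S h
  smul := gN_smul S h
  mul := gN_mul S h

theorem gaugeSn_le_one (S : Submonoid T) (h : Submodule.span ℂ (S : Set T) = ⊤) {s : T}
    (hs : s ∈ S) : (gaugeSn S h).N s ≤ 1 := gN_le_one S hs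

theorem le_gaugeSn (S : Submonoid T) (h : Submodule.span ℂ (S : Set T) = ⊤)
    (Φ : T →ₗ[ℂ] ℂ) {C : ℝ} (hC : 0 ≤ C) (hΦ : ∀ s ∈ S, ‖Φ s‖ ≤ C) (a : T) :
    ‖Φ a‖ ≤ C * (gaugeSn S h).N a := by
  have key : ∀ x ∈ GRep S a, ‖Φ a‖ ≤ C * x := by
    rintro x ⟨f, hf, rfl⟩
    rw [← hf, Finsupp.sum, Finsupp.sum, map_sum, Finset.mul_sum]
    refine (norm_sum_le _ _).trans (Finset.sum_le_sum fun s _ => ?_)
    rw [map_smul, smul_eq_mul, norm_mul]
    have := hΦ s s.2
    nlinarith [norm_nonneg (f s)]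
  apply le_of_forall_pos_lt_add
  intro ε hε
  have hc : 0 < C + 1 := by positivity
  obtain ⟨x, hx, hx'⟩ := exists_lt_of_gN_lt S h
    (show gN S a < gN S a + ε / (C + 1) by linarith [div_pos hε hc])
  have h1 := key x hx
  have h2 : C * x ≤ C * (gN S a + ε / (C + 1)) := mul_le_mul_of_nonneg_left hx'.le hC
  have h3 : C * (ε / (C + 1)) < ε := by
    rw [mul_div_assoc', div_lt_iff₀ hc]
    nlinarith
  show ‖Φ a‖ < C * gN S a + ε
  nlinarith

end gauge

section ty

variable {T : Type} [CommRing T] [Algebra ℂ T]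

theorem AlgSn.neg (N : AlgSn T) (a : T) : N.N (-a) = N.N a := by
  have key : ∀ b : T, N.N (-b) ≤ N.N b := by
    intro b
    have := N.smul (-1) b
    simpa using this
  exact le_antisymm (key a) (by simpa using key (-a))

theorem AlgSn.comm' (N : AlgSn T) (x y : T) : N.N (-x + y) = N.N (-y + x) := by
  rw [← N.neg (-x + y)]; congr 1; ring

theorem AlgSn.tri' (N : AlgSn T) (x y z : T) : N.N (-x + z) ≤ N.N (-x + y) + N.N (-y + z) := by
  have := N.add (-x + y) (-y + z)
  have h : (-x + y) + (-y + z) = -x + z := by ring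
  rwa [h] at this

theorem AlgSn.self' (N : AlgSn T) (x : T) : N.N (-x + x) = 0 := by
  rw [neg_add_cancel]; exact N.zero

/-- type synonym carrying the seminorm -/
def AlgSn.Ty (_N : AlgSn T) : Type := T

instance (N : AlgSn T) : CommRing N.Ty := inferInstanceAs (CommRing T)

instance (N : AlgSn T) : Algebra ℂ N.Ty := inferInstanceAs (Algebra ℂ T)

instance (N : AlgSn T) : Norm N.Ty := ⟨fun a => N.N (show T from a)⟩

/-- identity map -/
def AlgSn.to (N : AlgSn T) : T ≃ₐ[ℂ] N.Ty := AlgEquiv.refl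

theorem AlgSn.norm_def (N : AlgSn T) (a : T) : ‖(N.to a : N.Ty)‖ = N.N a := rfl

instance (N : AlgSn T) : SeminormedCommRing N.Ty :=
  { (inferInstance : CommRing N.Ty), (inferInstance : Norm N.Ty) with
    dist := fun x y => ‖-x + y‖
    dist_self := fun x => N.self' x
    dist_comm := fun x y => N.comm' x y
    dist_triangle := fun x y z => N.tri' x y z
    dist_eq := fun x y => rfl
    norm_mul_le := fun a b => N.mul a b }

instance (N : AlgSn T) : NormedAlgebra ℂ N.Ty :=
  { (inferInstance : Algebra ℂ N.Ty) with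
    norm_smul_le := fun c a => N.smul c a }

end ty

end

end Pool.Hom82
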