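import Pool.Agent.Work.MP_8222c7_an.Defs

/-!
A bounded approximate diagonal gives Johnson's condition (also for modules which are not unital).
-/

set_option autoImplicit false

namespace Pool.Hom82

open Finset Filter Topology

noncomputable section

variable {A : Type} [NormedCommRing A] [NormedAlgebra ℂ A]

theorem ApproxDiag.amenable (d : ApproxDiag A) : Amenable A := by
  intro E _ _ _ l r hl hr hlr D hD
  -- the approximating functionals
  let s : ℕ → E → ℂ := fun k x => ∑ j, d.lam k j * D (d.c k j) (r (d.b k j) x)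
  have hC : 0 ≤ d.C :=
    le_trans (Finset.sum_nonneg fun j _ => by positivity) (d.bdd 0)
  have hbd : ∀ k x, ‖s k x‖ ≤ (d.C * (‖D‖ * ‖r‖)) * ‖x‖ := by
    intro k x
    calc ‖s k x‖ ≤ ∑ j, ‖d.lam k j * D (d.c k j) (r (d.b k j) x)‖ := norm_sum_le _ _
      _ ≤ ∑ j, (‖d.lam k j‖ * ‖d.b k j‖ * ‖d.c k j‖) * (‖D‖ * ‖r‖ * ‖x‖) := by
          refine Finset.sum_le_sum fun j _ => ?_
          rw [norm_mul]
          have h1 : ‖D (d.c k j) (r (d.b k j) x)‖
              ≤ (‖D‖ * ‖d.c k j‖) * ((‖r‖ * ‖d.b k j‖) * ‖x‖) := by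
            calc ‖D (d.c k j) (r (d.b k j) x)‖ ≤ ‖D (d.c k j)‖ * ‖r (d.b k j) x‖ :=
                  ContinuousLinearMap.le_opNorm _ _
              _ ≤ (‖D‖ * ‖d.c k j‖) * ((‖r‖ * ‖d.b k j‖) * ‖x‖) := by
                  refine mul_le_mul (ContinuousLinearMap.le_opNorm _ _) ?_ (norm_nonneg _)
                    (by positivity)
                  calc ‖r (d.b k j) x‖ ≤ ‖r (d.b k j)‖ * ‖x‖ := ContinuousLinearMap.le_opNorm _ _
                    _ ≤ (‖r‖ * ‖d.b k j‖) * ‖x‖ :=
                        mul_le_mul_of_nonneg_right (ContinuousLinearMap.le_opNorm _ _)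
                          (norm_nonneg _)
          calc ‖d.lam k j‖ * ‖D (d.c k j) (r (d.b k j) x)‖
              ≤ ‖d.lam k j‖ * ((‖D‖ * ‖d.c k j‖) * ((‖r‖ * ‖d.b k j‖) * ‖x‖)) :=
                mul_le_mul_of_nonneg_left h1 (norm_nonneg _)
            _ = (‖d.lam k j‖ * ‖d.b k j‖ * ‖d.c k j‖) * (‖D‖ * ‖r‖ * ‖x‖) := by ring
      _ = (∑ j, ‖d.lam k j‖ * ‖d.b k j‖ * ‖d.c k j‖) * (‖D‖ * ‖r‖ * ‖x‖) := by
          rw [Finset.sum_mul]
      _ ≤ d.C * (‖D‖ * ‖r‖ * ‖x‖) :=
          mul_le_mul_of_nonneg_right (d.bdd k) (by positivity)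
      _ = (d.C * (‖D‖ * ‖r‖)) * ‖x‖ := by ring
  -- limits along an ultrafilter
  let U : Ultrafilter ℕ := hyperfilter ℕ
  have hU : (U : Filter ℕ) ≤ atTop := Nat.hyperfilter_le_atTop
  have hex : ∀ x, ∃ y : ℂ, Tendsto (fun k => s k x) (U : Filter ℕ) (𝓝 y) := by
    intro x
    have hcomp : IsCompact (Metric.closedBall (0 : ℂ) ((d.C * (‖D‖ * ‖r‖)) * ‖x‖)) :=
      isCompact_closedBall _ _
    have hmem : (U.map (fun k => s k x) : Filter ℂ)
        ≤ 𝓟 (Metric.closedBall (0 : ℂ) ((d.C * (‖D‖ * ‖r‖)) * ‖x‖)) := by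
      rw [Filter.le_principal_iff]
      show (fun k => s k x) ⁻¹' _ ∈ (U : Filter ℕ)
      refine Filter.univ_mem' fun k => ?_
      show s k x ∈ Metric.closedBall (0 : ℂ) ((d.C * (‖D‖ * ‖r‖)) * ‖x‖)
      rw [Metric.mem_closedBall, dist_zero_right]
      exact hbd k x
    obtain ⟨y, _, hy⟩ := hcomp.ultrafilter_le_nhds _ hmem
    exact ⟨y, hy⟩
  choose f0 hf0 using hex
  have hadd : ∀ x y, f0 (x + y) = f0 x + f0 y := by
    intro x y
    refine tendsto_nhds_unique (hf0 (x + y)) ?_
    have h : (fun k => s k (x + y)) = fun k => s k x + s k y := by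
      funext k
      simp only [s, map_add, mul_add, Finset.sum_add_distrib]
    rw [h]
    exact (hf0 x).add (hf0 y)
  have hsmul : ∀ (c : ℂ) x, f0 (c • x) = c • f0 x := by
    intro c x
    refine tendsto_nhds_unique (hf0 (c • x)) ?_
    have h : (fun k => s k (c • x)) = fun k => c • s k x := by
      funext k
      simp only [s, map_smul, smul_eq_mul, Finset.mul_sum]
      refine Finset.sum_congr rfl fun j _ => by ring
    rw [h]
    exact (hf0 x).const_smul c
  have hnorm : ∀ x, ‖f0 x‖ ≤ (d.C * (‖D‖ * ‖r‖)) * ‖x‖ := by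
    intro x
    exact le_of_tendsto (hf0 x).norm (Filter.Eventually.of_forall fun k => hbd k x)
  let fl : E →ₗ[ℂ] ℂ := { toFun := f0, map_add' := hadd, map_smul' := hsmul }
  let f1 : E →L[ℂ] ℂ := fl.mkContinuous (d.C * (‖D‖ * ‖r‖)) hnorm
  have hf1 : ∀ x, f1 x = f0 x := fun x => rfl
  -- the key identity
  have key : ∀ a x, f1 (r a x) = f1 (l a x) + D a (r 1 x) := by
    intro a x
    let β : A →L[ℂ] A →L[ℂ] ℂ := D.flip.comp ((ContinuousLinearMap.apply ℂ E x).comp r)
    have hβ : ∀ b c, β b c = D c (r b x) := fun b c => rfl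
    have h1 : Tendsto (fun k => ∑ j, d.lam k j * (β (a * d.b k j) (d.c k j)
        - β (d.b k j) (d.c k j * a))) (U : Filter ℕ) (𝓝 0) := (d.comm a β).mono_left hU
    have h2 : Tendsto (fun k => D a (r (∑ j, d.lam k j • (d.b k j * d.c k j)) x))
        (U : Filter ℕ) (𝓝 (D a (r 1 x))) := by
      have hc : Continuous fun b : A => D a (r b x) := by fun_prop
      exact (hc.tendsto 1).comp (d.unit.mono_left hU)
    have h3 : ∀ k, s k (r a x) = (∑ j, d.lam k j * (β (a * d.b k j) (d.c k j)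
        - β (d.b k j) (d.c k j * a))) + D a (r (∑ j, d.lam k j • (d.b k j * d.c k j)) x)
        + s k (l a x) := by
      intro k
      have e1 : D a (r (∑ j, d.lam k j • (d.b k j * d.c k j)) x)
          = ∑ j, d.lam k j * D a (r (d.b k j * d.c k j) x) := by
        simp only [map_sum, map_smul, _root_.sum_apply, _root_.smul_apply,
          smul_eq_mul]
      rw [e1]
      simp only [s]
      rw [← Finset.sum_add_distrib, ← Finset.sum_add_distrib]
      refine Finset.sum_congr rfl fun j _ => ?_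
      rw [hβ, hβ, hD, hr a (d.b k j)]
      have e2 : r (d.b k j * d.c k j) x = r (d.c k j) (r (d.b k j) x) := by
        rw [hr]; rfl
      have e3 : l a (r (d.b k j) x) = r (d.b k j) (l a x) :=
        congrArg (fun T : E →L[ℂ] E => T x) (hlr a (d.b k j))
      rw [e2, e3]
      simp only [ContinuousLinearMap.comp_apply]
      ring
    have h4 : Tendsto (fun k => s k (r a x)) (U : Filter ℕ)
        (𝓝 (0 + D a (r 1 x) + f0 (l a x))) := by
      have := (h1.add h2).add (hf0 (l a x))
      refine this.congr fun k => ?_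
      exact (h3 k).symm
    have h5 := tendsto_nhds_unique (hf0 (r a x)) h4
    rw [hf1, hf1, h5]
    ring
  -- the part coming from `x - r 1 x`
  let f2 : E →L[ℂ] ℂ := -((D 1).comp (ContinuousLinearMap.id ℂ E - r 1))
  have hf2 : ∀ x, f2 x = -(D 1 x - D 1 (r 1 x)) := by
    intro x
    simp [f2]
  have hD1 : ∀ a x, D 1 (r 1 (l a x)) = 0 := by
    intro a x
    have h := hD 1 1 (l a x)
    have e : l 1 (l a x) = l a x := by
      have := congrArg (fun T : E →L[ℂ] E => T x) (hl 1 a)
      simpa using this.symm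
    rw [e, one_mul] at h
    have : D 1 (r 1 (l a x)) + D 1 (l a x) = D 1 (l a x) := h.symm
    exact add_eq_right.mp this
  have hra : ∀ a x, r 1 (r a x) = r a x := by
    intro a x
    have := congrArg (fun T : E →L[ℂ] E => T x) (hr a 1)
    simpa using this.symm
  have hDa : ∀ a x, D a x = D a (r 1 x) + D 1 (l a x) := by
    intro a x
    have := hD 1 a x
    rwa [one_mul] at this
  refine ⟨f1 + f2, fun a x => ?_⟩
  simp only [_root_.add_apply]
  rw [hf2, hf2, hra, key, hD1, hDa a x]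
  ring

end

end Pool.Hom82
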