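import Pool.Agent.Work.MP_8222c7_an.Kern4

/-!
Module K, part 5: the choice of the parameters, `exists_kern`.
-/

set_option autoImplicit false

namespace Pool.Hom82.K

open Finset MeasureTheory Real
open scoped FourierTransform

noncomputable section

lemma integrable_scaled {a : ℝ} (ha : 0 < a) : Integrable fun ξ : ℝ => (1 + (a * ξ) ^ 2)⁻¹ :=
  integrable_inv_one_add_sq.comp_mul_left' ha.ne'

lemma integral_scaled {a : ℝ} (ha : 0 < a) : ∫ ξ : ℝ, (1 + (a * ξ) ^ 2)⁻¹ = π / a := by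
  have := Measure.integral_comp_mul_left (fun x : ℝ => (1 + x ^ 2)⁻¹) a
  rw [this, integral_univ_inv_one_add_sq, abs_of_pos (inv_pos.2 ha), smul_eq_mul]
  rw [div_eq_inv_mul]

lemma tail_eq {R : ℝ} (hR : 0 < R) (ξ : ℝ) : (R ^ 2 + ξ ^ 2)⁻¹ = (R ^ 2)⁻¹ * (1 + (R⁻¹ * ξ) ^ 2)⁻¹ := by
  rw [← mul_inv]
  congr 1
  field_simp

lemma integrable_tail {R : ℝ} (hR : 0 < R) : Integrable fun ξ : ℝ => (R ^ 2 + ξ ^ 2)⁻¹ := by
  simp_rw [tail_eq hR]
  exact (integrable_scaled (inv_pos.2 hR)).const_mul _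

lemma integral_tail {R : ℝ} (hR : 0 < R) : ∫ ξ : ℝ, (R ^ 2 + ξ ^ 2)⁻¹ = π / R := by
  simp_rw [tail_eq hR]
  rw [integral_const_mul, integral_scaled (inv_pos.2 hR)]
  field_simp

/-- The derivatives are small in the mean. -/
theorem mean_small {f : ℝ → ℝ} {ρ M Λ R : ℝ} (hf : ContDiff ℝ ((⊤ : ℕ∞) : WithTop ℕ∞) f)
    (hρ : 0 < ρ) (hs : ∀ k y, ρ < |y| → iteratedDeriv k f y = 0) (i : ℕ)
    (h0 : ∀ y, |iteratedDeriv 0 f y| ≤ M) (h2 : ∀ y, |iteratedDeriv (i + 2) f y| ≤ M)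
    (hΛ : 0 < Λ) (hR : 0 < R) (N : ℕ) (hN : 8 * π * Λ * R ≤ N) (g : Gp (Fin N × Bool)) :
    |∑ z, wR g z * iteratedDeriv i f (Fz (bK Λ N) z)| ≤
      (Fintype.card (Om (Fin N × Bool)) : ℝ) *
        ((2 * ρ * M) * (Cn i / (2 * Λ ^ (i + 1)) + π / R)) := by
  have hM0 : 0 ≤ M := (abs_nonneg _).trans (h0 0)
  set A : ℝ := (Fintype.card (Om (Fin N × Bool)) : ℝ) with hA
  have hA0 : 0 ≤ A := Nat.cast_nonneg _
  set B : ℝ := 2 * ρ * M with hB
  have hB0 : 0 ≤ B := by positivity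
  have hC := Cn_pos i
  have hrep := rep (bK Λ N) g hf hρ hs i
  have h1 : |∑ z, wR g z * iteratedDeriv i f (Fz (bK Λ N) z)| =
      ‖((∑ z : Om (Fin N × Bool), wR g z * iteratedDeriv i f (Fz (bK Λ N) z) : ℝ) : ℂ)‖ := by
    rw [Complex.norm_real, Real.norm_eq_abs]
  rw [h1, hrep]
  have ha : 0 < 2 * π * Λ := by positivity
  have hbound : ∀ ξ : ℝ, ‖chr (bK Λ N) g (2 * π * ξ) * 𝓕 (fc (iteratedDeriv i f)) ξ‖ ≤
      A * B * (Cn i / Λ ^ i * (1 + (2 * π * Λ * ξ) ^ 2)⁻¹ + (R ^ 2 + ξ ^ 2)⁻¹) := by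
    intro ξ
    rw [norm_mul]
    have p1 : 0 ≤ Cn i / Λ ^ i * (1 + (2 * π * Λ * ξ) ^ 2)⁻¹ := by positivity
    have p2 : 0 ≤ (R ^ 2 + ξ ^ 2)⁻¹ := by positivity
    rcases le_or_gt |ξ| R with hξ | hξ
    · -- small frequencies
      have e1 := small_freq hf hρ hs i h0 ξ
      rw [← hB] at e1
      have hx : 2 * π * ξ * Λ = 2 * π * Λ * ξ := by ring
      have e2 : 4 * |2 * π * ξ * Λ| ≤ N := by
        refine le_trans ?_ hN
        have : |2 * π * ξ * Λ| = 2 * π * Λ * |ξ| := by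
          rw [hx, abs_mul, abs_of_pos ha]
        rw [this]
        have : 2 * π * Λ * |ξ| ≤ 2 * π * Λ * R := mul_le_mul_of_nonneg_left hξ ha.le
        linarith
      have e3 := pow_chr_decay (Λ := Λ) N g (2 * π * ξ) e2 i
      rw [← hA, hx] at e3
      have e4 : |2 * π * ξ| ^ i = |2 * π * Λ * ξ| ^ i / Λ ^ i := by
        rw [← div_pow]
        congr 1
        rw [eq_div_iff hΛ.ne', ← hx, abs_mul _ Λ, abs_of_pos hΛ]
      calc ‖chr (bK Λ N) g (2 * π * ξ)‖ * ‖𝓕 (fc (iteratedDeriv i f)) ξ‖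
          ≤ ‖chr (bK Λ N) g (2 * π * ξ)‖ * (|2 * π * ξ| ^ i * B) := by gcongr
        _ = (|2 * π * Λ * ξ| ^ i * ‖chr (bK Λ N) g (2 * π * ξ)‖) * (B / Λ ^ i) := by
            rw [e4]
            ring
        _ ≤ (A * (Cn i * (1 + (2 * π * Λ * ξ) ^ 2)⁻¹)) * (B / Λ ^ i) := by gcongr
        _ = A * B * (Cn i / Λ ^ i * (1 + (2 * π * Λ * ξ) ^ 2)⁻¹) := by ring
        _ ≤ _ := by
            gcongr
            linarith
    · -- large frequencies
      have e1 := large_freq hf hρ hs i h2 ξ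
      rw [← hB] at e1
      have e2 := norm_chr_le (bK Λ N) g (2 * π * ξ)
      rw [← hA] at e2
      have e3 : ‖𝓕 (fc (iteratedDeriv i f)) ξ‖ ≤ B * (R ^ 2 + ξ ^ 2)⁻¹ := by
        rw [← div_eq_mul_inv, le_div_iff₀ (by positivity)]
        refine le_trans ?_ e1
        rw [mul_comm]
        refine mul_le_mul_of_nonneg_right ?_ (norm_nonneg _)
        have e4 : R ^ 2 ≤ ξ ^ 2 := by
          rw [← sq_abs ξ]
          exact pow_le_pow_left₀ hR.le hξ.le 2
        have e5 : (2 * π * ξ) ^ 2 = (2 * π) ^ 2 * ξ ^ 2 := by ring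
        rw [e5]
        have e6 : (2 : ℝ) ≤ (2 * π) ^ 2 := by
          have := Real.pi_gt_three
          nlinarith
        nlinarith [sq_nonneg ξ]
      calc ‖chr (bK Λ N) g (2 * π * ξ)‖ * ‖𝓕 (fc (iteratedDeriv i f)) ξ‖
          ≤ A * (B * (R ^ 2 + ξ ^ 2)⁻¹) := by gcongr
        _ = A * B * (R ^ 2 + ξ ^ 2)⁻¹ := by ring
        _ ≤ _ := by
            gcongr
            linarith
  have hint : Integrable fun ξ : ℝ =>
      A * B * (Cn i / Λ ^ i * (1 + (2 * π * Λ * ξ) ^ 2)⁻¹ + (R ^ 2 + ξ ^ 2)⁻¹) :=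
    (((integrable_scaled ha).const_mul _).add (integrable_tail hR)).const_mul _
  refine (norm_integral_le_of_norm_le hint (Filter.Eventually.of_forall hbound)).trans
    (le_of_eq ?_)
  rw [integral_const_mul, integral_add ((integrable_scaled ha).const_mul _) (integrable_tail hR),
    integral_const_mul, integral_scaled ha, integral_tail hR, mul_assoc]
  congr 3
  rw [pow_succ]
  field_simp

/-- **The kernel exists.** -/
theorem exists_kern (L : ℕ) {δ κ : ℝ} (hδ : 0 < δ) (hκ : 0 < κ) : Nonempty (Kern L δ κ) := by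
  -- the bump
  obtain ⟨h, hh⟩ : ∃ h : ℝ, h = min (κ / 8) 1 := ⟨_, rfl⟩
  have hh0 : 0 < h := by
    rw [hh]
    exact lt_min (by positivity) one_pos
  have hh1 : h ≤ 1 := by
    rw [hh]
    exact min_le_right _ _
  have hh8 : h ≤ κ / 8 := by
    rw [hh]
    exact min_le_left _ _
  let bump : ContDiffBump (0 : ℝ) := ⟨h, κ / 4, hh0, by linarith⟩
  obtain ⟨U, hU⟩ : ∃ U : ℝ → ℝ, U = fun y => bump y := ⟨_, rfl⟩
  have hUs : ContDiff ℝ ((⊤ : ℕ∞) : WithTop ℕ∞) U := by
    rw [hU]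
    exact bump.contDiff
  have hU0 : ∀ y, 0 ≤ U y := fun y => by
    rw [hU]
    exact bump.nonneg
  have hU1 : ∀ y, |y| ≤ h → U y = 1 := fun y hy => by
    rw [hU]
    refine bump.one_of_mem_closedBall ?_
    rw [mem_closedBall_zero_iff]
    exact hy
  have hUz : ∀ y, κ / 4 < |y| → U y = 0 := fun y hy => by
    rw [hU]
    refine bump.zero_of_le_dist ?_
    rw [dist_zero_right]
    exact hy.le
  -- uniform bounds of the derivatives
  choose Mk hMk0 hMk using fun k => unif_bound hUs hκ hUz k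
  obtain ⟨M, hM⟩ : ∃ M : ℝ, M = ∑ k ∈ range (L + 3), Mk k := ⟨_, rfl⟩
  have hM0 : 0 ≤ M := by
    rw [hM]
    exact Finset.sum_nonneg fun k _ => hMk0 k
  have hMle : ∀ k, k < L + 3 → ∀ c y, |iteratedDeriv k (Uc U c) y| ≤ M * κ ^ c := by
    intro k hk c y
    refine (hMk k c y).trans ?_
    refine mul_le_mul_of_nonneg_right ?_ (by positivity)
    rw [hM]
    exact Finset.single_le_sum (fun k _ => hMk0 k) (Finset.mem_range.2 hk)
  obtain ⟨C, hC⟩ : ∃ C : ℝ, C = ∑ i ∈ range L, Cn i := ⟨_, rfl⟩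
  have hC0 : 0 ≤ C := by
    rw [hC]
    exact Finset.sum_nonneg fun k _ => (Cn_pos k).le
  have hCle : ∀ i, i < L → Cn i ≤ C := by
    intro i hi
    rw [hC]
    exact Finset.single_le_sum (fun k _ => (Cn_pos k).le) (Finset.mem_range.2 hi)
  -- the parameters
  obtain ⟨K, hK⟩ : ∃ K : ℝ, K = 18 * κ * M / h := ⟨_, rfl⟩
  have hK0 : 0 ≤ K := by
    rw [hK]
    positivity
  obtain ⟨η, hη⟩ : ∃ η : ℝ, η = δ / (2 * ((L : ℝ) + 1)) := ⟨_, rfl⟩
  have hη0 : 0 < η := by
    rw [hη]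
    positivity
  obtain ⟨Λ, hΛ⟩ : ∃ Λ : ℝ, Λ = K * C / (2 * η) + 1 := ⟨_, rfl⟩
  have hΛ1 : 1 ≤ Λ := by
    rw [hΛ]
    have : 0 ≤ K * C / (2 * η) := by positivity
    linarith
  have hΛ0 : 0 < Λ := by linarith
  obtain ⟨R, hR⟩ : ∃ R : ℝ, R = K * π * Λ / η + 1 := ⟨_, rfl⟩
  have hR0 : 0 < R := by
    rw [hR]
    positivity
  obtain ⟨N, hN⟩ : ∃ N : ℕ, N = ⌈8 * π * Λ * R⌉₊ := ⟨_, rfl⟩
  have hN' : 8 * π * Λ * R ≤ N := by
    rw [hN]
    exact Nat.le_ceil _
  have hpar1 : K * C / (2 * Λ) ≤ η := by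
    rw [div_le_iff₀ (by positivity)]
    have h1 : K * C / (2 * η) ≤ Λ := by
      rw [hΛ]
      linarith
    rw [div_le_iff₀ (by positivity)] at h1
    linarith
  have hpar2 : K * (π * Λ / R) ≤ η := by
    have h1 : K * π * Λ / η ≤ R := by
      rw [hR]
      linarith
    rw [div_le_iff₀ hη0] at h1
    have h2 : K * (π * Λ / R) = K * π * Λ / R := by ring
    rw [h2, div_le_iff₀ hR0]
    linarith
  -- the normalisation
  let I := Fin N × Bool
  obtain ⟨A, hA⟩ : ∃ A : ℝ, A = (Fintype.card (Om I) : ℝ) := ⟨_, rfl⟩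
  have hA0 : 0 < A := by
    rw [hA]
    have : Nonempty (Om I) := ⟨fun _ => 1⟩
    exact_mod_cast Fintype.card_pos
  obtain ⟨Z, hZ⟩ : ∃ Z : ℝ, Z = ∑ z : Om I, U (Fz (bK Λ N) z) := ⟨_, rfl⟩
  have hZlow : h / (36 * Λ) * A ≤ Z := by
    refine (hA ▸ lower hΛ1 hh0 hh1 N : _).trans ?_
    rw [hZ, Finset.card_filter]
    push_cast
    refine Finset.sum_le_sum fun z _ => ?_
    split_ifs with hz
    · rw [hU1 _ hz]
    · exact hU0 _
  have hZ0 : 0 < Z := lt_of_lt_of_le (by positivity) hZlow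
  -- the function `tau`
  let tau : ℕ → ℕ → Gp I → ℝ := fun c i g =>
    (-1) ^ i / (i.factorial : ℝ) * (∑ z, wR g z * iteratedDeriv i (Uc U c) (Fz (bK Λ N) z)) / Z
  have htau : ∀ c i g, tau c i g =
    (-1) ^ i / (i.factorial : ℝ) * (∑ z, wR g z * iteratedDeriv i (Uc U c) (Fz (bK Λ N) z)) / Z :=
    fun _ _ _ => rfl
  have habs : ∀ c i g, |tau c i g| =
      |∑ z, wR g z * iteratedDeriv i (Uc U c) (Fz (bK Λ N) z)| / ((i.factorial : ℝ) * Z) := by
    intro c i g
    rw [htau, abs_div, abs_mul, abs_div, abs_pow, abs_neg, abs_one, one_pow, abs_of_pos hZ0,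
      Nat.abs_cast]
    field_simp
  -- the sum over `k`
  have hsumk : ∀ c i (g : Gp I), ∑ k, bK Λ N k *
      (∑ z, wR (g + uv k) z * iteratedDeriv i (Uc U c) (Fz (bK Λ N) z)) =
      ∑ z, wR g z * (Fz (bK Λ N) z * iteratedDeriv i (Uc U c) (Fz (bK Λ N) z)) := by
    intro c i g
    simp_rw [Finset.mul_sum]
    rw [Finset.sum_comm]
    refine Finset.sum_congr rfl fun z _ => ?_
    have : ∀ k : I, bK Λ N k * (wR (g + uv k) z * iteratedDeriv i (Uc U c) (Fz (bK Λ N) z)) =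
        (bK Λ N k * ((z k : ℤ) : ℝ)) * (wR g z * iteratedDeriv i (Uc U c) (Fz (bK Λ N) z)) := by
      intro k
      rw [wR_add_uv]
      ring
    simp_rw [this]
    rw [← Finset.sum_mul]
    have h2 : ∑ k, bK Λ N k * ((z k : ℤ) : ℝ) = Fz (bK Λ N) z := rfl
    rw [h2]
    ring
  have hsumtau : ∀ c i (g : Gp I), ∑ k, bK Λ N k * tau c i (g + uv k) =
      (-1) ^ i / (i.factorial : ℝ) *
        (∑ z, wR g z * (Fz (bK Λ N) z * iteratedDeriv i (Uc U c) (Fz (bK Λ N) z))) / Z := by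
    intro c i g
    rw [← hsumk, Finset.mul_sum, Finset.sum_div]
    refine Finset.sum_congr rfl fun k _ => ?_
    rw [htau]
    ring
  refine ⟨{
    I := I
    b := bK Λ N
    tau := tau
    z0 := fun k => if k.2 then (1 : ℤˣ) else -1
    hz0 := Fz_zero Λ N
    rec0 := ?_
    rec1 := ?_
    bound := ?_
    one := ?_ }⟩
  · intro c g
    rw [hsumtau, htau, pow_zero, Nat.factorial_zero, Nat.cast_one, div_one, one_mul, one_mul,
      ← neg_div]
    congr 1
    rw [← Finset.sum_neg_distrib]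
    refine Finset.sum_congr rfl fun z _ => ?_
    rw [iteratedDeriv_zero, iteratedDeriv_zero, Uc_succ]
    ring
  · intro c i g
    rw [hsumtau, htau, htau, ← sub_div]
    congr 1
    have h1 : ∀ z : Om I, wR g z * iteratedDeriv (i + 1) (Uc U (c + 1)) (Fz (bK Λ N) z) =
        -(wR g z * (Fz (bK Λ N) z * iteratedDeriv (i + 1) (Uc U c) (Fz (bK Λ N) z))) -
          ((i : ℝ) + 1) * (wR g z * iteratedDeriv i (Uc U c) (Fz (bK Λ N) z)) := by
      intro z
      rw [Uc_succ, iteratedDeriv_neg_mul (Uc_contDiff hUs c)]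
      ring
    simp_rw [h1]
    rw [Finset.sum_sub_distrib, Finset.sum_neg_distrib, ← Finset.mul_sum]
    rw [Nat.factorial_succ, pow_succ]
    push_cast
    have h2 : ((i.factorial : ℕ) : ℝ) ≠ 0 := by positivity
    field_simp
    ring
  · intro c g
    have hterm : ∀ i ∈ range L, |tau c i g| ≤
        (if i = 0 then κ ^ c else 0) + δ / ((L : ℝ) + 1) * κ ^ c := by
      intro i hi
      rw [Finset.mem_range] at hi
      have hκc : (0 : ℝ) < κ ^ c := by positivity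
      rcases Nat.eq_zero_or_pos i with rfl | hipos
      · rw [if_pos rfl]
        have hnn : 0 ≤ δ / ((L : ℝ) + 1) * κ ^ c := by positivity
        have h1 : |tau c 0 g| ≤ κ ^ c := by
          rw [habs, Nat.factorial_zero, Nat.cast_one, one_mul, div_le_iff₀ hZ0, hZ, Finset.mul_sum]
          refine (Finset.abs_sum_le_sum_abs _ _).trans (Finset.sum_le_sum fun z _ => ?_)
          rw [iteratedDeriv_zero, abs_mul, abs_wR, one_mul]
          unfold Uc
          rw [abs_mul, abs_pow, abs_neg, abs_of_nonneg (hU0 _)]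
          by_cases hz : κ / 4 < |Fz (bK Λ N) z|
          · rw [hUz _ hz]
            simp
          · rw [not_lt] at hz
            refine mul_le_mul_of_nonneg_right ?_ (hU0 _)
            exact pow_le_pow_left₀ (abs_nonneg _) (by linarith) c
        linarith
      · rw [if_neg hipos.ne', zero_add]
        have h1 := mean_small (f := Uc U c) (ρ := κ / 4) (M := M * κ ^ c) (Λ := Λ) (R := R)
          (Uc_contDiff hUs c) (by positivity) (fun k y hy => Uc_supp hUz c k y hy) i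
          (hMle 0 (by omega) c) (hMle (i + 2) (by omega) c) hΛ0 hR0 N hN' g
        rw [habs]
        have hfac : (1 : ℝ) ≤ (i.factorial : ℝ) := by exact_mod_cast Nat.one_le_iff_ne_zero.2 (Nat.factorial_ne_zero i)
        have h2 : |∑ z, wR g z * iteratedDeriv i (Uc U c) (Fz (bK Λ N) z)| / ((i.factorial : ℝ) * Z)
            ≤ |∑ z, wR g z * iteratedDeriv i (Uc U c) (Fz (bK Λ N) z)| / Z := by
          refine div_le_div_of_nonneg_left (abs_nonneg _) hZ0 ?_
          nlinarith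
        refine h2.trans ?_
        rw [div_le_iff₀ hZ0]
        refine h1.trans ?_
        -- compare with `Z ≥ h / (36 Λ) A`
        have h3 : Cn i / (2 * Λ ^ (i + 1)) ≤ C / (2 * Λ ^ 2) := by
          have e1 : Λ ^ 2 ≤ Λ ^ (i + 1) := pow_le_pow_right₀ hΛ1 (by omega)
          exact div_le_div₀ hC0 (hCle i hi) (by positivity) (by linarith)
        have h4 : (2 * (κ / 4) * (M * κ ^ c)) * (Cn i / (2 * Λ ^ (i + 1)) + π / R) ≤
            (2 * (κ / 4) * (M * κ ^ c)) * (C / (2 * Λ ^ 2) + π / R) := by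
          refine mul_le_mul_of_nonneg_left (by linarith) (by positivity)
        have h5 : (2 * (κ / 4) * (M * κ ^ c)) * (C / (2 * Λ ^ 2) + π / R) =
            κ ^ c * (h / (36 * Λ)) * (K * C / (2 * Λ) + K * (π * Λ / R)) := by
          rw [hK]
          field_simp
          ring
        have h6 : κ ^ c * (h / (36 * Λ)) * (K * C / (2 * Λ) + K * (π * Λ / R)) ≤
            κ ^ c * (h / (36 * Λ)) * (2 * η) := by
          refine mul_le_mul_of_nonneg_left (by linarith) (by positivity)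
        have h7 : 2 * η = δ / ((L : ℝ) + 1) := by
          rw [hη]
          field_simp
        rw [← hA]
        calc A * ((2 * (κ / 4) * (M * κ ^ c)) * (Cn i / (2 * Λ ^ (i + 1)) + π / R))
            ≤ A * (κ ^ c * (h / (36 * Λ)) * (2 * η)) := by
              refine mul_le_mul_of_nonneg_left ?_ hA0.le
              exact h4.trans (h5.le.trans h6)
          _ = δ / ((L : ℝ) + 1) * κ ^ c * (h / (36 * Λ) * A) := by
              rw [h7]
              ring
          _ ≤ δ / ((L : ℝ) + 1) * κ ^ c * Z := by gcongr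
    refine (Finset.sum_le_sum hterm).trans ?_
    rw [Finset.sum_add_distrib, Finset.sum_const, Finset.card_range, nsmul_eq_mul]
    have hκc : (0 : ℝ) < κ ^ c := by positivity
    have h1 : ∑ i ∈ range L, (if i = 0 then κ ^ c else 0) ≤ κ ^ c := by
      rw [Finset.sum_ite_eq']
      split_ifs
      · exact le_rfl
      · exact hκc.le
    have h2 : (L : ℝ) * (δ / ((L : ℝ) + 1) * κ ^ c) ≤ δ * κ ^ c := by
      have : (L : ℝ) * (δ / ((L : ℝ) + 1) * κ ^ c) = ((L : ℝ) / ((L : ℝ) + 1)) * (δ * κ ^ c) := by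
        field_simp
      rw [this]
      have h3 : (L : ℝ) / ((L : ℝ) + 1) ≤ 1 := by
        rw [div_le_one (by positivity)]
        linarith
      have h4 : 0 ≤ δ * κ ^ c := by positivity
      nlinarith
    linarith
  · rw [htau]
    simp only [wR_zero, one_mul, pow_zero, Nat.factorial_zero, Nat.cast_one, div_one,
      iteratedDeriv_zero, Uc_zero]
    rw [← hZ]
    exact div_self hZ0.ne'

end

end Pool.Hom82.K
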