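import Pool.Agent.Work.MP_8222c7_an.Defs

/-!
Module K, part 1: Walsh functions, recursion for the derivatives, the distribution of
`F z = ∑ b k * z k` (second moment and lower bound near `0`).
-/

set_option autoImplicit false

namespace Pool.Hom82.K

open Finset

noncomputable section

section walsh

variable {I : Type} [Fintype I]

/-- real Walsh function -/
def wR (g : Gp I) (z : Om I) : ℝ := ((walshU g z : ℤˣ) : ℤ)

lemma units_pow_val_add (u : ℤˣ) (a b : ZMod 2) : u ^ (a + b).val = u ^ a.val * u ^ b.val := by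
  rcases Int.units_eq_one_or u with rfl | rfl
  · simp
  · revert a b
    decide

lemma walshU_add (g h : Gp I) (z : Om I) : walshU (g + h) z = walshU g z * walshU h z := by
  simp [walshU, units_pow_val_add, Finset.prod_mul_distrib]

lemma walshU_uv [DecidableEq I] (k : I) (z : Om I) : walshU (uv k) z = z k := by
  unfold walshU uv
  rw [Finset.prod_eq_single k]
  · simp [ZMod.val_one]
  · intro j _ hj
    simp [Pi.single_eq_of_ne hj]
  · simp

lemma wR_add_uv [DecidableEq I] (g : Gp I) (k : I) (z : Om I) :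
    wR (g + uv k) z = wR g z * ((z k : ℤ) : ℝ) := by
  simp [wR, walshU_add, walshU_uv]

lemma abs_wR (g : Gp I) (z : Om I) : |wR g z| = 1 := by
  unfold wR
  rcases Int.units_eq_one_or (walshU g z) with h | h <;> simp [h]

lemma wR_zero (z : Om I) : wR (0 : Gp I) z = 1 := by
  simp [wR, walshU]

/-- the linear form -/
def Fz (b : I → ℝ) (z : Om I) : ℝ := ∑ k, b k * ((z k : ℤ) : ℝ)

end walsh

section deriv

lemma iteratedDeriv_neg_mul {f : ℝ → ℝ} (hf : ContDiff ℝ ((⊤ : ℕ∞) : WithTop ℕ∞) f) (i : ℕ) :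
    iteratedDeriv (i + 1) (fun y => -y * f y) =
      fun y => -y * iteratedDeriv (i + 1) f y - ((i : ℝ) + 1) * iteratedDeriv i f y := by
  have hd : ∀ i y, HasDerivAt (iteratedDeriv i f) (iteratedDeriv (i + 1) f y) y := by
    intro i y
    rw [iteratedDeriv_succ]
    refine (hf.differentiable_iteratedDeriv i ?_ y).hasDerivAt
    exact_mod_cast WithTop.coe_lt_coe.2 (ENat.natCast_lt_top i)
  induction i with
  | zero =>
    rw [iteratedDeriv_succ, iteratedDeriv_zero]
    funext y
    have h : HasDerivAt (fun y => -y * f y) (-1 * f y + -y * iteratedDeriv (0 + 1) f y) y := by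
      have := (hasDerivAt_neg y).fun_mul (hd 0 y)
      simpa only [iteratedDeriv_zero] using this
    rw [h.deriv]
    simp
    ring
  | succ i ih =>
    rw [iteratedDeriv_succ, ih]
    funext y
    have h : HasDerivAt (fun y => -y * iteratedDeriv (i + 1) f y - ((i : ℝ) + 1) * iteratedDeriv i f y)
        (-1 * iteratedDeriv (i + 1) f y + -y * iteratedDeriv (i + 1 + 1) f y
          - ((i : ℝ) + 1) * iteratedDeriv (i + 1) f y) y :=
      ((hasDerivAt_neg y).fun_mul (hd (i + 1) y)).fun_sub ((hd i y).const_mul ((i : ℝ) + 1))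
    rw [h.deriv]
    push_cast
    ring

/-- `U c y = (-y)^c * U y` -/
def Uc (U : ℝ → ℝ) (c : ℕ) : ℝ → ℝ := fun y => (-y) ^ c * U y

lemma Uc_contDiff {U : ℝ → ℝ} (hU : ContDiff ℝ ((⊤ : ℕ∞) : WithTop ℕ∞) U) (c : ℕ) :
    ContDiff ℝ ((⊤ : ℕ∞) : WithTop ℕ∞) (Uc U c) := by
  unfold Uc
  exact (contDiff_neg.pow c).mul hU

lemma Uc_succ (U : ℝ → ℝ) (c : ℕ) : Uc U (c + 1) = fun y => -y * Uc U c y := by
  funext y
  simp only [Uc]
  ring

lemma Uc_zero (U : ℝ → ℝ) : Uc U 0 = U := by
  funext y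
  simp [Uc]

lemma Uc_supp {U : ℝ → ℝ} {ρ : ℝ} (hU : ∀ y, ρ < |y| → U y = 0) (c k : ℕ) (y : ℝ) (hy : ρ < |y|) :
    iteratedDeriv k (Uc U c) y = 0 := by
  have h1 : Set.EqOn (Uc U c) (fun _ => (0 : ℝ)) {y : ℝ | ρ < |y|} := by
    intro y hy
    simp [Uc, hU y hy]
  have ho : IsOpen {y : ℝ | ρ < |y|} := isOpen_lt continuous_const continuous_abs
  have := (h1.iteratedDeriv_of_isOpen ho k) hy
  rw [this]
  simp

lemma unif_bound {U : ℝ → ℝ} (hU : ContDiff ℝ ((⊤ : ℕ∞) : WithTop ℕ∞) U) {κ : ℝ} (hκ : 0 < κ)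
    (hs : ∀ y, κ / 4 < |y| → U y = 0) (k : ℕ) :
    ∃ M : ℝ, 0 ≤ M ∧ ∀ c y, |iteratedDeriv k (Uc U c) y| ≤ M * κ ^ c := by
  -- sup of each derivative of `U`
  have hb : ∀ k, ∃ B : ℝ, 0 ≤ B ∧ ∀ y, |iteratedDeriv k U y| ≤ B := by
    intro k
    have hc : Continuous (iteratedDeriv k U) :=
      hU.continuous_iteratedDeriv k (by exact_mod_cast le_top)
    obtain ⟨B, hB⟩ := (isCompact_Icc (a := -(κ / 4)) (b := κ / 4)).exists_bound_of_continuousOn
      hc.continuousOn
    refine ⟨max B 0, le_max_right _ _, fun y => ?_⟩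
    by_cases hy : κ / 4 < |y|
    · have := Uc_supp hs 0 k y hy
      rw [Uc_zero] at this
      rw [this]
      simp
    · exact (hB y (abs_le.1 (not_lt.1 hy))).trans (le_max_left _ _)
  induction k with
  | zero =>
    obtain ⟨B, hB0, hB⟩ := hb 0
    refine ⟨B, hB0, fun c y => ?_⟩
    rw [iteratedDeriv_zero]
    by_cases hy : κ / 4 < |y|
    · have := Uc_supp hs c 0 y hy
      rw [iteratedDeriv_zero] at this
      rw [this]
      simp
      positivity
    · rw [not_lt] at hy
      have h1 : |Uc U c y| = |y| ^ c * |U y| := by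
        simp [Uc, abs_mul, abs_pow]
      rw [h1, mul_comm]
      have h2 := hB y
      rw [iteratedDeriv_zero] at h2
      have h3 : |y| ^ c ≤ κ ^ c := pow_le_pow_left₀ (abs_nonneg y) (by linarith) c
      exact mul_le_mul h2 h3 (by positivity) hB0
  | succ k ih =>
    obtain ⟨M, hM0, hM⟩ := ih
    obtain ⟨B, hB0, hB⟩ := hb (k + 1)
    set M' := max B (2 * ((k : ℝ) + 1) * M / κ) with hM'
    have hM'0 : 0 ≤ M' := le_trans hB0 (le_max_left _ _)
    refine ⟨M', hM'0, fun c => ?_⟩
    induction c with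
    | zero =>
      intro y
      rw [Uc_zero, pow_zero, mul_one]
      exact (hB y).trans (le_max_left _ _)
    | succ c ihc =>
      intro y
      by_cases hy : κ / 4 < |y|
      · rw [Uc_supp hs (c + 1) (k + 1) y hy]
        simp
        positivity
      · rw [not_lt] at hy
        rw [Uc_succ, iteratedDeriv_neg_mul (Uc_contDiff hU c)]
        have h1 := ihc y
        have h2 := hM c y
        have hkM : 2 * ((k : ℝ) + 1) * M ≤ M' * κ := by
          have := le_max_right B (2 * ((k : ℝ) + 1) * M / κ)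
          rw [← hM', div_le_iff₀ hκ] at this
          exact this
        have hk0 : (0 : ℝ) ≤ (k : ℝ) + 1 := by positivity
        have hκc : (0 : ℝ) < κ ^ c := by positivity
        calc |(-y) * iteratedDeriv (k + 1) (Uc U c) y - ((k : ℝ) + 1) * iteratedDeriv k (Uc U c) y|
            ≤ |(-y) * iteratedDeriv (k + 1) (Uc U c) y| + |((k : ℝ) + 1) * iteratedDeriv k (Uc U c) y| :=
              abs_sub _ _
          _ = |y| * |iteratedDeriv (k + 1) (Uc U c) y| + ((k : ℝ) + 1) * |iteratedDeriv k (Uc U c) y| := by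
              rw [abs_mul, abs_mul, abs_neg, abs_of_nonneg hk0]
          _ ≤ (κ / 4) * (M' * κ ^ c) + ((k : ℝ) + 1) * (M * κ ^ c) := by
              gcongr
          _ ≤ M' * κ ^ (c + 1) := by
              have : ((k : ℝ) + 1) * (M * κ ^ c) ≤ (1 / 2) * (M' * κ) * κ ^ c := by
                have h3 : ((k : ℝ) + 1) * M ≤ (1 / 2) * (M' * κ) := by linarith
                calc ((k : ℝ) + 1) * (M * κ ^ c) = (((k : ℝ) + 1) * M) * κ ^ c := by ring
                  _ ≤ _ := by gcongr
              rw [pow_succ]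
              have h4 : 0 ≤ M' * (κ ^ c * κ) := by positivity
              nlinarith [this, h4]

end deriv

end

end Pool.Hom82.K
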