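import Pool.Agent.Work.MP_8222c7_an.Kern1

/-!
Module K, part 2: the distribution of `F z = Λ ∑ (z (k,0) + z (k,1))/(k+1)` near `0`.
-/

set_option autoImplicit false

namespace Pool.Hom82.K

open Finset

noncomputable section

/-- `X u = Λ ∑ u k/(k+1)` -/
def Xf (Λ : ℝ) {N : ℕ} (u : Fin N → ℤˣ) : ℝ := ∑ k : Fin N, Λ / ((k : ℝ) + 1) * ((u k : ℤ) : ℝ)

lemma card_signs (N : ℕ) : Fintype.card (Fin N → ℤˣ) = 2 ^ N := by
  simp

lemma sum_mul_off {N : ℕ} (k l : Fin N) (h : k ≠ l) :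
    ∑ u : Fin N → ℤˣ, ((u k : ℤ) : ℝ) * ((u l : ℤ) : ℝ) = 0 := by
  have h1 := Fintype.sum_equiv (Equiv.mulRight (Pi.mulSingle k (-1 : ℤˣ) : Fin N → ℤˣ))
    (fun u : Fin N → ℤˣ => -(((u k : ℤ) : ℝ) * ((u l : ℤ) : ℝ)))
    (fun u : Fin N → ℤˣ => ((u k : ℤ) : ℝ) * ((u l : ℤ) : ℝ)) (by
      intro u
      simp [Pi.mulSingle_eq_of_ne (Ne.symm h)])
  rw [Finset.sum_neg_distrib] at h1
  linarith

lemma sum_mul_self {N : ℕ} (k : Fin N) :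
    ∑ u : Fin N → ℤˣ, ((u k : ℤ) : ℝ) * ((u k : ℤ) : ℝ) = 2 ^ N := by
  have : ∀ u : Fin N → ℤˣ, ((u k : ℤ) : ℝ) * ((u k : ℤ) : ℝ) = 1 := by
    intro u
    rcases Int.units_eq_one_or (u k) with h | h <;> simp [h]
  simp [this]

lemma second_moment {N : ℕ} (a : Fin N → ℝ) :
    ∑ u : Fin N → ℤˣ, (∑ k, a k * ((u k : ℤ) : ℝ)) ^ 2 = 2 ^ N * ∑ k, a k ^ 2 := by
  have h1 : ∀ u : Fin N → ℤˣ, (∑ k, a k * ((u k : ℤ) : ℝ)) ^ 2 =
      ∑ k, ∑ l, a k * a l * (((u k : ℤ) : ℝ) * ((u l : ℤ) : ℝ)) := by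
    intro u
    rw [sq, Finset.sum_mul_sum]
    refine Finset.sum_congr rfl fun k _ => Finset.sum_congr rfl fun l _ => ?_
    ring
  simp_rw [h1]
  rw [Finset.sum_comm, Finset.mul_sum]
  refine Finset.sum_congr rfl fun k _ => ?_
  rw [Finset.sum_comm, Finset.sum_eq_single k]
  · rw [← Finset.mul_sum, sum_mul_self]
    ring
  · intro l _ hl
    rw [← Finset.mul_sum, sum_mul_off k l (Ne.symm hl), mul_zero]
  · simp

lemma sum_inv_sq (N : ℕ) : ∑ k ∈ range N, (1 / ((k : ℝ) + 1)) ^ 2 ≤ 2 := by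
  have h : ∀ N : ℕ, ∑ k ∈ range (N + 1), (1 / ((k : ℝ) + 1)) ^ 2 ≤ 2 - 1 / ((N : ℝ) + 1) := by
    intro N
    induction N with
    | zero => norm_num
    | succ N ih =>
      rw [Finset.sum_range_succ]
      push_cast at ih ⊢
      have hN : (0 : ℝ) < (N : ℝ) + 1 := by positivity
      have h2 : (1 / ((N : ℝ) + 1 + 1)) ^ 2 ≤ 1 / ((N : ℝ) + 1) - 1 / ((N : ℝ) + 1 + 1) := by
        rw [div_sub_div _ _ (by positivity) (by positivity), div_pow, div_le_div_iff₀ (by positivity) (by positivity)]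
        nlinarith
      linarith
  rcases N with _ | N
  · simp
  · refine (h N).trans ?_
    have : (0 : ℝ) ≤ 1 / ((N : ℝ) + 1) := by positivity
    linarith

lemma card_small {Λ : ℝ} (hΛ : 0 < Λ) (N : ℕ) :
    (2 : ℝ) ^ N / 2 ≤ (#{u : Fin N → ℤˣ | |Xf Λ u| ≤ 2 * Λ} : ℝ) := by
  classical
  have h1 : ∑ u : Fin N → ℤˣ, (Xf Λ u) ^ 2 ≤ 2 ^ N * (2 * Λ ^ 2) := by
    unfold Xf
    rw [second_moment]
    have h2 : ∑ k : Fin N, (Λ / ((k : ℝ) + 1)) ^ 2 = Λ ^ 2 * ∑ k ∈ range N, (1 / ((k : ℝ) + 1)) ^ 2 := by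
      rw [Finset.mul_sum, ← Fin.sum_univ_eq_sum_range (fun k => Λ ^ 2 * (1 / ((k : ℝ) + 1)) ^ 2)]
      refine Finset.sum_congr rfl fun k _ => ?_
      ring
    rw [h2]
    have h3 := sum_inv_sq N
    calc (2 : ℝ) ^ N * (Λ ^ 2 * ∑ k ∈ range N, (1 / ((k : ℝ) + 1)) ^ 2)
        ≤ 2 ^ N * (Λ ^ 2 * 2) := by gcongr
      _ = 2 ^ N * (2 * Λ ^ 2) := by ring
  set B : Finset (Fin N → ℤˣ) := {u : Fin N → ℤˣ | ¬ |Xf Λ u| ≤ 2 * Λ} with hB
  have h3 : (#B : ℝ) * (2 * Λ) ^ 2 ≤ ∑ u : Fin N → ℤˣ, (Xf Λ u) ^ 2 := by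
    calc (#B : ℝ) * (2 * Λ) ^ 2 = ∑ u ∈ B, (2 * Λ) ^ 2 := by simp
      _ ≤ ∑ u ∈ B, (Xf Λ u) ^ 2 := by
          refine Finset.sum_le_sum fun u hu => ?_
          rw [hB, Finset.mem_filter, not_le] at hu
          rw [← sq_abs (Xf Λ u)]
          exact pow_le_pow_left₀ (by positivity) hu.2.le 2
      _ ≤ ∑ u, (Xf Λ u) ^ 2 :=
          Finset.sum_le_sum_of_subset_of_nonneg (Finset.subset_univ _) fun _ _ _ => sq_nonneg _
  have h4 : (#B : ℝ) ≤ 2 ^ N / 2 := by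
    have h5 : (#B : ℝ) * (2 * Λ) ^ 2 ≤ 2 ^ N * (2 * Λ ^ 2) := h3.trans h1
    have h6 : (0 : ℝ) < Λ ^ 2 := by positivity
    nlinarith
  have h5 : (#{u : Fin N → ℤˣ | |Xf Λ u| ≤ 2 * Λ} : ℝ) + (#B : ℝ) = 2 ^ N := by
    have := Finset.card_filter_add_card_filter_not (s := (univ : Finset (Fin N → ℤˣ)))
      (fun u => |Xf Λ u| ≤ 2 * Λ)
    rw [Finset.card_univ, card_signs] at this
    exact_mod_cast this
  linarith

/-- pigeonhole: many pairs at distance `≤ h` -/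
lemma card_pairs {Λ h : ℝ} (hΛ : 1 ≤ Λ) (hh : 0 < h) (hh1 : h ≤ 1) (N : ℕ) :
    (h / (36 * Λ)) * ((2 : ℝ) ^ N) ^ 2 ≤
      (#{p : (Fin N → ℤˣ) × (Fin N → ℤˣ) | |Xf Λ p.1 - Xf Λ p.2| ≤ h} : ℝ) := by
  classical
  set S : Finset (Fin N → ℤˣ) := {u : Fin N → ℤˣ | |Xf Λ u| ≤ 2 * Λ} with hS
  set m : (Fin N → ℤˣ) → ℤ := fun u => ⌊Xf Λ u / h⌋ with hm
  set A : ℕ := ⌈2 * Λ / h⌉₊ with hA
  set T : Finset ℤ := Icc (-(A : ℤ)) A with hT
  have hΛ0 : 0 < Λ := by linarith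
  have hA1 : 2 * Λ / h ≤ A := Nat.le_ceil _
  have hA2 : (A : ℝ) < 2 * Λ / h + 1 := Nat.ceil_lt_add_one (by positivity)
  have hmT : ∀ u ∈ S, m u ∈ T := by
    intro u hu
    rw [hS, Finset.mem_filter] at hu
    have hu := hu.2
    rw [abs_le] at hu
    rw [hT, Finset.mem_Icc, hm]
    constructor
    · rw [Int.le_floor]
      push_cast
      have : -(2 * Λ / h) ≤ Xf Λ u / h := by
        rw [← neg_div]
        exact div_le_div_of_nonneg_right hu.1 hh.le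
      linarith
    · have : (⌊Xf Λ u / h⌋ : ℝ) ≤ A := by
        refine (Int.floor_le _).trans ?_
        have : Xf Λ u / h ≤ 2 * Λ / h := div_le_div_of_nonneg_right hu.2 hh.le
        linarith
      exact_mod_cast this
  have h1 : (#S : ℝ) = ∑ t ∈ T, (#{u ∈ S | m u = t} : ℝ) := by
    exact_mod_cast Finset.card_eq_sum_card_fiberwise hmT
  have h2 : (#S : ℝ) ^ 2 ≤ (#T : ℝ) * ∑ t ∈ T, (#{u ∈ S | m u = t} : ℝ) ^ 2 := by
    rw [h1]
    exact sq_sum_le_card_mul_sum_sq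
  -- pairs in the same cell
  set Q : Finset ((Fin N → ℤˣ) × (Fin N → ℤˣ)) := {p ∈ S ×ˢ S | m p.1 = m p.2} with hQ
  have h3 : (#Q : ℝ) = ∑ t ∈ T, (#{u ∈ S | m u = t} : ℝ) ^ 2 := by
    have h4 : #Q = ∑ t ∈ T, #{p ∈ Q | m p.1 = t} := by
      refine Finset.card_eq_sum_card_fiberwise ?_
      intro p hp
      have hp' : p ∈ Q := hp
      rw [hQ, Finset.mem_filter, Finset.mem_product] at hp'
      exact hmT _ hp'.1.1
    have h5 : ∀ t ∈ T, #{p ∈ Q | m p.1 = t} = #{u ∈ S | m u = t} ^ 2 := by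
      intro t _
      have h6 : ({p ∈ Q | m p.1 = t} : Finset _) = ({u ∈ S | m u = t} : Finset _) ×ˢ ({u ∈ S | m u = t} : Finset _) := by
        ext p
        simp only [hQ, Finset.mem_filter, Finset.mem_product]
        constructor
        · rintro ⟨⟨⟨a, b⟩, c⟩, d⟩
          exact ⟨⟨a, d⟩, ⟨b, by rw [← c, d]⟩⟩
        · rintro ⟨⟨a, b⟩, ⟨c, d⟩⟩
          exact ⟨⟨⟨a, c⟩, by rw [b, d]⟩, b⟩
      rw [h6, Finset.card_product, sq]
    rw [h4, Nat.cast_sum]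
    refine Finset.sum_congr rfl fun t ht => ?_
    rw [h5 t ht]
    push_cast
    rfl
  have h4 : (#Q : ℝ) ≤ (#{p : (Fin N → ℤˣ) × (Fin N → ℤˣ) | |Xf Λ p.1 - Xf Λ p.2| ≤ h} : ℝ) := by
    have : Q ⊆ ({p : (Fin N → ℤˣ) × (Fin N → ℤˣ) | |Xf Λ p.1 - Xf Λ p.2| ≤ h} : Finset _) := by
      intro p hp
      rw [hQ, Finset.mem_filter] at hp
      rw [Finset.mem_filter]
      refine ⟨Finset.mem_univ _, ?_⟩
      have h7 := Int.abs_sub_lt_one_of_floor_eq_floor hp.2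
      rw [← sub_div, abs_div, abs_of_pos hh, div_lt_one hh] at h7
      exact h7.le
    exact_mod_cast Finset.card_le_card this
  have hS2 := card_small hΛ0 N
  rw [← hS] at hS2
  have hT2 : (#T : ℝ) ≤ 9 * Λ / h := by
    have h5 : (#T : ℝ) = 2 * A + 1 := by
      rw [hT, Int.card_Icc]
      have : ((A : ℤ) + 1 - -(A : ℤ)).toNat = 2 * A + 1 := by omega
      rw [this]
      push_cast
      ring
    rw [h5]
    have h6 : 2 * (A : ℝ) + 1 ≤ 4 * Λ / h + 3 := by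
      have : 4 * Λ / h = 2 * (2 * Λ / h) := by ring
      rw [this]
      linarith
    have h7 : 3 ≤ 3 * Λ / h := by
      rw [le_div_iff₀ hh]
      nlinarith
    have h8 : 4 * Λ / h + 3 * Λ / h ≤ 9 * Λ / h := by
      rw [← add_div]
      exact div_le_div_of_nonneg_right (by linarith) hh.le
    linarith
  rw [← h3] at h2
  have h9 : ((2 : ℝ) ^ N / 2) ^ 2 ≤ (9 * Λ / h) * #Q := by
    calc ((2 : ℝ) ^ N / 2) ^ 2 ≤ (#S : ℝ) ^ 2 := pow_le_pow_left₀ (by positivity) hS2 2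
      _ ≤ (#T : ℝ) * #Q := h2
      _ ≤ _ := by gcongr
  refine le_trans ?_ h4
  have h10 : h / (36 * Λ) * (2 ^ N) ^ 2 = (h / (9 * Λ)) * ((2 : ℝ) ^ N / 2) ^ 2 := by
    field_simp
    norm_num
  rw [h10]
  calc (h / (9 * Λ)) * ((2 : ℝ) ^ N / 2) ^ 2 ≤ (h / (9 * Λ)) * ((9 * Λ / h) * #Q) := by gcongr
    _ = #Q := by field_simp

/-- coefficients -/
def bK (Λ : ℝ) (N : ℕ) : Fin N × Bool → ℝ := fun p => Λ / ((p.1 : ℝ) + 1)

/-- combine two sign vectors -/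
def comb {N : ℕ} (p : (Fin N → ℤˣ) × (Fin N → ℤˣ)) : Om (Fin N × Bool) :=
  fun q => if q.2 then p.1 q.1 else -p.2 q.1

lemma comb_inj {N : ℕ} : Function.Injective (comb (N := N)) := by
  rintro ⟨u, v⟩ ⟨u', v'⟩ h
  have h1 : u = u' := by
    funext k
    have := congrFun h (k, true)
    simpa [comb] using this
  have h2 : v = v' := by
    funext k
    have := congrFun h (k, false)
    simpa [comb] using this
  rw [h1, h2]

lemma Fz_comb (Λ : ℝ) {N : ℕ} (p : (Fin N → ℤˣ) × (Fin N → ℤˣ)) :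
    Fz (bK Λ N) (comb p) = Xf Λ p.1 - Xf Λ p.2 := by
  unfold Fz Xf
  rw [Fintype.sum_prod_type, ← Finset.sum_sub_distrib]
  refine Finset.sum_congr rfl fun k _ => ?_
  simp [comb, bK]
  ring

lemma card_Om (I : Type) [Fintype I] [DecidableEq I] : (Fintype.card (Om I) : ℝ) = 2 ^ Fintype.card I := by
  simp [Om]

lemma lower {Λ h : ℝ} (hΛ : 1 ≤ Λ) (hh : 0 < h) (hh1 : h ≤ 1) (N : ℕ) :
    (h / (36 * Λ)) * (Fintype.card (Om (Fin N × Bool)) : ℝ) ≤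
      (#{z : Om (Fin N × Bool) | |Fz (bK Λ N) z| ≤ h} : ℝ) := by
  classical
  have h1 := card_pairs hΛ hh hh1 N
  have h2 : (Fintype.card (Om (Fin N × Bool)) : ℝ) = ((2 : ℝ) ^ N) ^ 2 := by
    rw [card_Om]
    simp [pow_mul]
  rw [h2]
  refine h1.trans ?_
  have h3 : #(Finset.image comb ({p : (Fin N → ℤˣ) × (Fin N → ℤˣ) | |Xf Λ p.1 - Xf Λ p.2| ≤ h} : Finset _)) =
      #{p : (Fin N → ℤˣ) × (Fin N → ℤˣ) | |Xf Λ p.1 - Xf Λ p.2| ≤ h} :=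
    Finset.card_image_of_injective _ comb_inj
  rw [← h3]
  have h4 : Finset.image comb ({p : (Fin N → ℤˣ) × (Fin N → ℤˣ) | |Xf Λ p.1 - Xf Λ p.2| ≤ h} : Finset _) ⊆
      ({z : Om (Fin N × Bool) | |Fz (bK Λ N) z| ≤ h} : Finset _) := by
    intro z hz
    rw [Finset.mem_image] at hz
    obtain ⟨p, hp, rfl⟩ := hz
    rw [Finset.mem_filter] at hp ⊢
    refine ⟨Finset.mem_univ _, ?_⟩
    rw [Fz_comb]
    exact hp.2
  exact_mod_cast Finset.card_le_card h4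

/-- a zero of `F` -/
lemma Fz_zero (Λ : ℝ) (N : ℕ) :
    ∑ k, bK Λ N k * (((if k.2 then (1 : ℤˣ) else -1 : ℤˣ) : ℤ) : ℝ) = 0 := by
  rw [Fintype.sum_prod_type]
  refine Finset.sum_eq_zero fun k _ => ?_
  simp [bK]

end

end Pool.Hom82.K
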