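import Pool.Agent.Work.MP_8222c7_an.Kern2

/-!
Module K, part 3: the characteristic function of `F z = Λ ∑ (z (k,0) + z (k,1))/(k+1)`, twisted by
a Walsh function.
-/

set_option autoImplicit false

namespace Pool.Hom82.K

open Finset

noncomputable section

section

variable {I : Type} [Fintype I] [DecidableEq I]

/-- one factor of the characteristic function -/
def fac (a : ZMod 2) (α : ℝ) : ℂ :=
  ∑ ε : ℤˣ, (((ε ^ a.val : ℤˣ) : ℤ) : ℂ) * Complex.exp (((α * ((ε : ℤ) : ℝ) : ℝ) : ℂ) * Complex.I)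

/-- the twisted characteristic function (not divided by the number of points) -/
def chr (b : I → ℝ) (g : Gp I) (θ : ℝ) : ℂ :=
  ∑ z : Om I, ((wR g z : ℝ) : ℂ) * Complex.exp (((θ * Fz b z : ℝ) : ℂ) * Complex.I)

lemma chr_eq (b : I → ℝ) (g : Gp I) (θ : ℝ) : chr b g θ = ∏ k, fac (g k) (θ * b k) := by
  unfold chr fac
  rw [Finset.prod_univ_sum, Fintype.piFinset_univ]
  refine Finset.sum_congr rfl fun z _ => ?_
  rw [Finset.prod_mul_distrib, ← Complex.exp_sum]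
  congr 1
  · simp [wR, walshU]
  · congr 1
    rw [Fz, Finset.mul_sum, Complex.ofReal_sum, Finset.sum_mul]
    refine Finset.sum_congr rfl fun k _ => ?_
    push_cast
    ring

lemma fac_eq (a : ZMod 2) (α : ℝ) :
    fac a α = Complex.exp ((α : ℂ) * Complex.I) +
      (((-1 : ℤˣ) ^ a.val : ℤˣ) : ℤ) * Complex.exp (-((α : ℂ) * Complex.I)) := by
  have : (univ : Finset ℤˣ) = {1, -1} := rfl
  unfold fac
  rw [this, Finset.sum_pair (by decide)]
  simp

lemma norm_fac_le (a : ZMod 2) (α : ℝ) : ‖fac a α‖ ≤ 2 := by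
  rw [fac_eq]
  refine (norm_add_le _ _).trans ?_
  rw [norm_mul, Complex.norm_exp_ofReal_mul_I]
  have h1 : ‖Complex.exp (-((α : ℂ) * Complex.I))‖ = 1 := by
    have := Complex.norm_exp_ofReal_mul_I (-α)
    rw [← this]
    congr 2
    push_cast
    ring
  rw [h1]
  rcases Int.units_eq_one_or ((-1 : ℤˣ) ^ a.val) with h | h <;> rw [h] <;> norm_num

lemma norm_fac_le' (a : ZMod 2) (α : ℝ) (h1 : 1 / 4 ≤ |α|) (h2 : |α| ≤ 1 / 2) :
    ‖fac a α‖ ≤ 2 * Real.cos (1 / 4) := by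
  have hc : (1 : ℝ) / 2 ≤ Real.cos (1 / 4) := by
    have := Real.one_sub_sq_div_two_le_cos (x := 1 / 4)
    linarith [this, show (1 : ℝ) - (1 / 4) ^ 2 / 2 = 31 / 32 by norm_num]
  rw [fac_eq]
  have ha : a = 0 ∨ a = 1 := by
    revert a
    decide
  rcases ha with rfl | rfl
  · have h3 : Complex.exp ((α : ℂ) * Complex.I) +
      (((-1 : ℤˣ) ^ (0 : ZMod 2).val : ℤˣ) : ℤ) * Complex.exp (-((α : ℂ) * Complex.I)) =
        ((2 * Real.cos α : ℝ) : ℂ) := by
      rw [Complex.ofReal_mul, Complex.ofReal_cos, Complex.cos]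
      simp
      ring
    rw [h3, Complex.norm_real, Real.norm_eq_abs, abs_mul, abs_of_pos (by norm_num : (0 : ℝ) < 2)]
    have h4 : Real.cos |α| ≤ Real.cos (1 / 4) := by
      refine Real.cos_le_cos_of_nonneg_of_le_pi (by norm_num) ?_ h1
      linarith [Real.pi_gt_three]
    have h5 : 0 ≤ Real.cos |α| := by
      refine Real.cos_nonneg_of_mem_Icc ⟨?_, ?_⟩ <;> linarith [Real.pi_gt_three, abs_nonneg α]
    rw [← Real.cos_abs α, abs_of_nonneg h5]
    linarith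
  · have h3 : Complex.exp ((α : ℂ) * Complex.I) +
      (((-1 : ℤˣ) ^ (1 : ZMod 2).val : ℤˣ) : ℤ) * Complex.exp (-((α : ℂ) * Complex.I)) =
        ((2 * Real.sin α : ℝ) : ℂ) * Complex.I := by
      rw [Complex.ofReal_mul, Complex.ofReal_sin, Complex.sin]
      have : (1 : ZMod 2).val = 1 := rfl
      rw [this]
      simp
      ring_nf
      simp
      ring
    rw [h3, norm_mul, Complex.norm_I, mul_one, Complex.norm_real, Real.norm_eq_abs, abs_mul,
      abs_of_pos (by norm_num : (0 : ℝ) < 2)]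
    have h4 : |Real.sin α| ≤ |α| := Real.abs_sin_le_abs
    linarith

lemma norm_chr_le (b : I → ℝ) (g : Gp I) (θ : ℝ) : ‖chr b g θ‖ ≤ (Fintype.card (Om I) : ℝ) := by
  rw [chr_eq, norm_prod, card_Om]
  have h1 : ∏ k, ‖fac (g k) (θ * b k)‖ ≤ ∏ _k : I, (2 : ℝ) :=
    Finset.prod_le_prod (fun _ _ => norm_nonneg _) fun k _ => norm_fac_le _ _
  refine h1.trans (le_of_eq ?_)
  simp

lemma norm_chr_le' (b : I → ℝ) (g : Gp I) (θ : ℝ) (G : Finset I)
    (hG : ∀ k ∈ G, 1 / 4 ≤ |θ * b k| ∧ |θ * b k| ≤ 1 / 2) :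
    ‖chr b g θ‖ ≤ (Fintype.card (Om I) : ℝ) * Real.cos (1 / 4) ^ #G := by
  have hc : (0 : ℝ) ≤ Real.cos (1 / 4) := by
    have := Real.one_sub_sq_div_two_le_cos (x := 1 / 4)
    linarith [this, show (1 : ℝ) - (1 / 4) ^ 2 / 2 = 31 / 32 by norm_num]
  rw [chr_eq, norm_prod, card_Om]
  have h1 : ∏ k, ‖fac (g k) (θ * b k)‖ ≤ ∏ k, (2 * if k ∈ G then Real.cos (1 / 4) else 1) := by
    refine Finset.prod_le_prod (fun _ _ => norm_nonneg _) fun k _ => ?_
    split_ifs with h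
    · exact norm_fac_le' _ _ (hG k h).1 (hG k h).2
    · rw [mul_one]
      exact norm_fac_le _ _
  refine h1.trans (le_of_eq ?_)
  rw [Finset.prod_mul_distrib, Finset.prod_const, Finset.card_univ, Finset.prod_ite_mem]
  simp

end

/-- the decay rate -/
def rate : ℝ := -Real.log (Real.cos (1 / 4))

lemma cos_pos' : 0 < Real.cos (1 / 4) := by
  have := Real.one_sub_sq_div_two_le_cos (x := 1 / 4)
  linarith [this, show (1 : ℝ) - (1 / 4) ^ 2 / 2 = 31 / 32 by norm_num]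

lemma cos_lt_one' : Real.cos (1 / 4) < 1 := by
  have h := Real.cos_lt_cos_of_nonneg_of_le_pi (x := 0) (y := 1 / 4) le_rfl
    (by linarith [Real.pi_gt_three]) (by norm_num)
  simpa using h

lemma rate_pos : 0 < rate := by
  unfold rate
  have := Real.log_neg cos_pos' cos_lt_one'
  linarith

lemma cos_pow_le {n : ℕ} {x : ℝ} (h : x ≤ n) : Real.cos (1 / 4) ^ n ≤ Real.exp (-(rate * x)) := by
  have h1 : Real.cos (1 / 4) ^ n = Real.exp (-(rate * n)) := by
    unfold rate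
    rw [neg_mul, neg_neg, mul_comm, Real.exp_nat_mul, Real.exp_log cos_pos']
  rw [h1]
  refine Real.exp_le_exp.2 ?_
  have := mul_le_mul_of_nonneg_left h rate_pos.le
  linarith

/-- decay of the characteristic function -/
lemma chr_decay {Λ : ℝ} (N : ℕ) (g : Gp (Fin N × Bool)) (θ : ℝ) (h : 4 * |θ * Λ| ≤ N) :
    ‖chr (bK Λ N) g θ‖ ≤
      (Fintype.card (Om (Fin N × Bool)) : ℝ) * Real.exp (-(rate * (|θ * Λ| - 1))) := by
  set t : ℝ := |θ * Λ| with ht
  have ht0 : 0 ≤ t := abs_nonneg _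
  rcases le_or_gt t 1 with h1 | h1
  · refine (norm_chr_le _ _ _).trans ?_
    have h2 : 1 ≤ Real.exp (-(rate * (t - 1))) := by
      rw [Real.one_le_exp_iff]
      have := rate_pos
      nlinarith
    nlinarith [(Nat.cast_nonneg (Fintype.card (Om (Fin N × Bool))) : (0 : ℝ) ≤ _)]
  · -- the good indices
    set J : Finset ℕ := Icc ⌈2 * t⌉₊ ⌊4 * t⌋₊ with hJ
    have hJ1 : ∀ j ∈ J, 1 ≤ j ∧ j ≤ N ∧ 2 * t ≤ j ∧ (j : ℝ) ≤ 4 * t := by
      intro j hj
      rw [hJ, Finset.mem_Icc] at hj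
      have e1 : 2 * t ≤ j := (Nat.le_ceil _).trans (by exact_mod_cast hj.1)
      have e2 : (j : ℝ) ≤ 4 * t :=
        le_trans (by exact_mod_cast hj.2) (Nat.floor_le (by positivity))
      refine ⟨?_, ?_, e1, e2⟩
      · have : (0 : ℝ) < j := by linarith
        have : 0 < j := by exact_mod_cast this
        omega
      · have : (j : ℝ) ≤ N := e2.trans h
        exact_mod_cast this
    set G : Finset (Fin N × Bool) := J.attach.image
      (fun j => ((⟨j.1 - 1, by have := hJ1 j.1 j.2; omega⟩ : Fin N), true)) with hGdef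
    have hGcard : #G = #J := by
      rw [hGdef, Finset.card_image_of_injOn, Finset.card_attach]
      intro i _ j _ hij
      simp only [Prod.mk.injEq, Fin.mk.injEq, and_true] at hij
      have h3 := hJ1 i.1 i.2
      have h4 := hJ1 j.1 j.2
      exact Subtype.ext (by omega)
    have hG : ∀ k ∈ G, 1 / 4 ≤ |θ * bK Λ N k| ∧ |θ * bK Λ N k| ≤ 1 / 2 := by
      intro k hk
      rw [hGdef, Finset.mem_image] at hk
      obtain ⟨j, _, rfl⟩ := hk
      have h3 := hJ1 j.1 j.2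
      have h4 : |θ * bK Λ N ((⟨j.1 - 1, by omega⟩ : Fin N), true)| = t / j.1 := by
        unfold bK
        have h5 : (((j.1 - 1 : ℕ) : ℝ) + 1) = j.1 := by
          have : j.1 - 1 + 1 = j.1 := by omega
          exact_mod_cast this
        simp only [h5]
        rw [← mul_div_assoc, abs_div, ← ht]
        simp
      have h6 : (0 : ℝ) < j.1 := by linarith
      rw [h4]
      constructor
      · rw [div_le_div_iff₀ (by norm_num) h6]
        linarith
      · rw [div_le_div_iff₀ h6 (by norm_num)]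
        linarith
    refine (norm_chr_le' _ _ _ G hG).trans ?_
    refine mul_le_mul_of_nonneg_left ?_ (Nat.cast_nonneg _)
    refine cos_pow_le ?_
    rw [hGcard, hJ, Nat.card_Icc]
    have e1 : (⌈2 * t⌉₊ : ℝ) < 2 * t + 1 := Nat.ceil_lt_add_one (by positivity)
    have e2 : 4 * t - 1 < ⌊4 * t⌋₊ := Nat.sub_one_lt_floor _
    have e3 : ((⌊4 * t⌋₊ : ℕ) : ℝ) + 1 - (⌈2 * t⌉₊ : ℝ) ≤ ((⌊4 * t⌋₊ + 1 - ⌈2 * t⌉₊ : ℕ) : ℝ) := by
      have := @Nat.le_sub_iff_add_le
      have h7 : ⌊4 * t⌋₊ + 1 ≤ (⌊4 * t⌋₊ + 1 - ⌈2 * t⌉₊) + ⌈2 * t⌉₊ := by omega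
      have h8 : ((⌊4 * t⌋₊ : ℕ) : ℝ) + 1 ≤ ((⌊4 * t⌋₊ + 1 - ⌈2 * t⌉₊ : ℕ) : ℝ) + (⌈2 * t⌉₊ : ℝ) := by
        exact_mod_cast h7
      linarith
    linarith

/-- `x ^ n * exp (-(a x))` is bounded -/
lemma pow_mul_exp_le {a x : ℝ} (ha : 0 < a) (hx : 0 ≤ x) (n : ℕ) :
    x ^ n * Real.exp (-(a * x)) ≤ n.factorial / a ^ n := by
  have h1 := Real.pow_div_factorial_le_exp (a * x) (by positivity) n
  rw [div_le_iff₀ (by positivity)] at h1
  rw [le_div_iff₀ (by positivity), Real.exp_neg]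
  have h2 : 0 < Real.exp (a * x) := Real.exp_pos _
  have : x ^ n * (Real.exp (a * x))⁻¹ * a ^ n = (a * x) ^ n / Real.exp (a * x) := by
    rw [mul_pow]
    field_simp
  rw [this, div_le_iff₀ h2]
  linarith

/-- the constant -/
def Cn (i : ℕ) : ℝ :=
  Real.exp rate * (i.factorial / rate ^ i + (i + 2).factorial / rate ^ (i + 2))

lemma Cn_pos (i : ℕ) : 0 < Cn i := by
  unfold Cn
  have := rate_pos
  positivity

lemma pow_chr_decay {Λ : ℝ} (N : ℕ) (g : Gp (Fin N × Bool)) (θ : ℝ) (h : 4 * |θ * Λ| ≤ N) (i : ℕ) :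
    |θ * Λ| ^ i * ‖chr (bK Λ N) g θ‖ ≤
      (Fintype.card (Om (Fin N × Bool)) : ℝ) * (Cn i * (1 + (θ * Λ) ^ 2)⁻¹) := by
  have h1 := chr_decay (Λ := Λ) N g θ h
  set t : ℝ := |θ * Λ| with ht
  have ht0 : 0 ≤ t := abs_nonneg _
  have ht2 : (θ * Λ) ^ 2 = t ^ 2 := by rw [ht, sq_abs]
  rw [ht2]
  set A : ℝ := (Fintype.card (Om (Fin N × Bool)) : ℝ) with hA
  have hA0 : 0 ≤ A := Nat.cast_nonneg _
  have h2 : t ^ i * Real.exp (-(rate * (t - 1))) * (1 + t ^ 2) ≤ Cn i := by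
    have e1 : Real.exp (-(rate * (t - 1))) = Real.exp rate * Real.exp (-(rate * t)) := by
      rw [← Real.exp_add]
      congr 1
      ring
    have e2 := pow_mul_exp_le rate_pos ht0 i
    have e3 := pow_mul_exp_le rate_pos ht0 (i + 2)
    have e4 : t ^ i * Real.exp (-(rate * (t - 1))) * (1 + t ^ 2) =
        Real.exp rate * (t ^ i * Real.exp (-(rate * t)) + t ^ (i + 2) * Real.exp (-(rate * t))) := by
      rw [e1]
      ring
    rw [e4]
    unfold Cn
    exact mul_le_mul_of_nonneg_left (add_le_add e2 e3) (Real.exp_pos _).le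
  have h3 : t ^ i * Real.exp (-(rate * (t - 1))) ≤ Cn i * (1 + t ^ 2)⁻¹ := by
    rw [← div_eq_mul_inv, le_div_iff₀ (by positivity)]
    exact h2
  calc t ^ i * ‖chr (bK Λ N) g θ‖ ≤ t ^ i * (A * Real.exp (-(rate * (t - 1)))) := by gcongr
    _ = A * (t ^ i * Real.exp (-(rate * (t - 1)))) := by ring
    _ ≤ A * (Cn i * (1 + t ^ 2)⁻¹) := by gcongr

end

end Pool.Hom82.K
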