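import Pool.Agent.Work.MP_8222c7_an.Kern3

/-!
Module K, part 4: Fourier inversion; the derivatives are small in the mean.
-/

set_option autoImplicit false

namespace Pool.Hom82.K

open Finset MeasureTheory Real
open scoped FourierTransform

noncomputable section

/-- complex version -/
def fc (f : ℝ → ℝ) : ℝ → ℂ := fun y => (f y : ℂ)

lemma hasDerivAt_iter {f : ℝ → ℝ} (hf : ContDiff ℝ ((⊤ : ℕ∞) : WithTop ℕ∞) f) (k : ℕ) (y : ℝ) :
    HasDerivAt (iteratedDeriv k f) (iteratedDeriv (k + 1) f y) y := by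
  rw [iteratedDeriv_succ]
  refine (hf.differentiable_iteratedDeriv k ?_ y).hasDerivAt
  exact_mod_cast WithTop.coe_lt_coe.2 (ENat.natCast_lt_top k)

lemma iteratedDeriv_fc {f : ℝ → ℝ} (hf : ContDiff ℝ ((⊤ : ℕ∞) : WithTop ℕ∞) f) (k : ℕ) :
    iteratedDeriv k (fc f) = fc (iteratedDeriv k f) := by
  induction k with
  | zero => simp [iteratedDeriv_zero]
  | succ k ih =>
    rw [iteratedDeriv_succ, ih]
    funext y
    exact (hasDerivAt_iter hf k y).ofReal_comp.deriv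

lemma cont_fc {f : ℝ → ℝ} (hf : ContDiff ℝ ((⊤ : ℕ∞) : WithTop ℕ∞) f) (k : ℕ) :
    Continuous (fc (iteratedDeriv k f)) := by
  have hc : Continuous (iteratedDeriv k f) :=
    hf.continuous_iteratedDeriv k (by exact_mod_cast le_top)
  exact Complex.continuous_ofReal.comp hc

lemma integrable_fc {g : ℝ → ℂ} {ρ : ℝ} (hg : Continuous g) (hs : ∀ y, ρ < |y| → g y = 0) :
    Integrable g := by
  refine hg.integrable_of_hasCompactSupport ?_
  refine HasCompactSupport.intro (isCompact_Icc (a := -ρ) (b := ρ)) fun x hx => hs x ?_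
  by_contra h
  exact hx (abs_le.1 (not_lt.1 h))

lemma norm_fourier_le {g : ℝ → ℂ} {ρ M : ℝ} (hρ : 0 < ρ) (hs : ∀ y, ρ < |y| → g y = 0)
    (hM : ∀ y, ‖g y‖ ≤ M) (ξ : ℝ) : ‖𝓕 g ξ‖ ≤ 2 * ρ * M := by
  rw [Real.fourier_real_eq_integral_exp_smul]
  have h1 : (∫ v : ℝ, Complex.exp (↑(-2 * π * v * ξ) * Complex.I) • g v) =
      ∫ v in Set.Icc (-ρ) ρ, Complex.exp (↑(-2 * π * v * ξ) * Complex.I) • g v := by
    symm
    refine setIntegral_eq_integral_of_forall_compl_eq_zero fun x hx => ?_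
    rw [hs x, smul_zero]
    by_contra h
    exact hx (abs_le.1 (not_lt.1 h))
  rw [h1]
  have h2 := norm_setIntegral_le_of_norm_le_const (μ := volume) (s := Set.Icc (-ρ) ρ) (C := M)
    (f := fun v : ℝ => Complex.exp (↑(-2 * π * v * ξ) * Complex.I) • g v) (by
      simp [Real.volume_Icc]) (by
      intro v _
      rw [norm_smul, Complex.norm_exp_ofReal_mul_I, one_mul]
      exact hM v)
  refine h2.trans (le_of_eq ?_)
  rw [Real.volume_real_Icc_of_le (by linarith)]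
  ring

section

variable {f : ℝ → ℝ} {ρ M : ℝ}

lemma fourier_fc (hf : ContDiff ℝ ((⊤ : ℕ∞) : WithTop ℕ∞) f)
    (hs : ∀ k y, ρ < |y| → iteratedDeriv k f y = 0) (k : ℕ) (ξ : ℝ) :
    𝓕 (fc (iteratedDeriv k f)) ξ = (2 * π * Complex.I * ξ) ^ k • 𝓕 (fc f) ξ := by
  have h1 : ContDiff ℝ ((⊤ : ℕ∞) : WithTop ℕ∞) (fc f) := Complex.ofRealCLM.contDiff.comp hf
  have h2 : ∀ n : ℕ, (n : ℕ∞) ≤ ⊤ → Integrable (iteratedDeriv n (fc f)) := by
    intro n _
    rw [iteratedDeriv_fc hf]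
    refine integrable_fc (ρ := ρ) (cont_fc hf n) fun y hy => ?_
    simp [fc, hs n y hy]
  have h3 := Real.fourier_iteratedDeriv (n := k) h1 h2 le_top
  rw [iteratedDeriv_fc hf] at h3
  rw [h3]

lemma norm_fourier_iter_le (hf : ContDiff ℝ ((⊤ : ℕ∞) : WithTop ℕ∞) f) (hρ : 0 < ρ)
    (hs : ∀ k y, ρ < |y| → iteratedDeriv k f y = 0) (k : ℕ) (hM : ∀ y, |iteratedDeriv k f y| ≤ M)
    (ξ : ℝ) : ‖𝓕 (fc (iteratedDeriv k f)) ξ‖ ≤ 2 * ρ * M := by
  refine norm_fourier_le hρ (fun y hy => ?_) (fun y => ?_) ξ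
  · simp [fc, hs k y hy]
  · simpa [fc] using hM y

/-- Small frequencies. -/
lemma small_freq (hf : ContDiff ℝ ((⊤ : ℕ∞) : WithTop ℕ∞) f) (hρ : 0 < ρ)
    (hs : ∀ k y, ρ < |y| → iteratedDeriv k f y = 0) (i : ℕ) (h0 : ∀ y, |iteratedDeriv 0 f y| ≤ M)
    (ξ : ℝ) : ‖𝓕 (fc (iteratedDeriv i f)) ξ‖ ≤ |2 * π * ξ| ^ i * (2 * ρ * M) := by
  rw [fourier_fc hf hs i ξ, norm_smul, norm_pow]
  have h1 : ‖2 * (π : ℂ) * Complex.I * ξ‖ = |2 * π * ξ| := by
    rw [norm_mul, norm_mul, norm_mul, Complex.norm_I, Complex.norm_real, Complex.norm_real,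
      abs_mul, abs_mul]
    simp
  rw [h1]
  have h2 := norm_fourier_iter_le hf hρ hs 0 h0 ξ
  rw [iteratedDeriv_zero] at h2
  exact mul_le_mul_of_nonneg_left h2 (by positivity)

/-- Large frequencies. -/
lemma large_freq (hf : ContDiff ℝ ((⊤ : ℕ∞) : WithTop ℕ∞) f) (hρ : 0 < ρ)
    (hs : ∀ k y, ρ < |y| → iteratedDeriv k f y = 0) (i : ℕ)
    (h2 : ∀ y, |iteratedDeriv (i + 2) f y| ≤ M) (ξ : ℝ) :
    (2 * π * ξ) ^ 2 * ‖𝓕 (fc (iteratedDeriv i f)) ξ‖ ≤ 2 * ρ * M := by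
  have h3 := norm_fourier_iter_le hf hρ hs (i + 2) h2 ξ
  have h1 : ‖2 * (π : ℂ) * Complex.I * ξ‖ = |2 * π * ξ| := by
    rw [norm_mul, norm_mul, norm_mul, Complex.norm_I, Complex.norm_real, Complex.norm_real,
      abs_mul, abs_mul]
    simp
  rw [fourier_fc hf hs (i + 2) ξ, norm_smul, norm_pow, h1] at h3
  rw [fourier_fc hf hs i ξ, norm_smul, norm_pow, h1]
  refine le_trans (le_of_eq ?_) h3
  rw [← sq_abs (2 * π * ξ)]
  ring

lemma integrable_fourier (hf : ContDiff ℝ ((⊤ : ℕ∞) : WithTop ℕ∞) f) (hρ : 0 < ρ)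
    (hs : ∀ k y, ρ < |y| → iteratedDeriv k f y = 0) (i : ℕ) :
    Integrable (𝓕 (fc (iteratedDeriv i f))) := by
  -- bounds of the derivatives
  have hb : ∀ k, ∃ B : ℝ, 0 ≤ B ∧ ∀ y, |iteratedDeriv k f y| ≤ B := by
    intro k
    have hc : Continuous (iteratedDeriv k f) :=
      hf.continuous_iteratedDeriv k (by exact_mod_cast le_top)
    obtain ⟨B, hB⟩ := (isCompact_Icc (a := -ρ) (b := ρ)).exists_bound_of_continuousOn
      hc.continuousOn
    refine ⟨max B 0, le_max_right _ _, fun y => ?_⟩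
    by_cases hy : ρ < |y|
    · rw [hs k y hy]
      simp
    · exact (hB y (abs_le.1 (not_lt.1 hy))).trans (le_max_left _ _)
  obtain ⟨B0, hB00, hB0⟩ := hb i
  obtain ⟨B2, hB20, hB2⟩ := hb (i + 2)
  have h1 := norm_fourier_iter_le hf hρ hs i hB0
  have h2 := large_freq hf hρ hs i hB2
  have hint : Integrable (fc (iteratedDeriv i f)) :=
    integrable_fc (ρ := ρ) (cont_fc hf i) fun y hy => by simp [fc, hs i y hy]
  have hcont : Continuous (𝓕 (fc (iteratedDeriv i f))) :=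
    VectorFourier.fourierIntegral_continuous Real.continuous_fourierChar
      (by fun_prop) hint
  refine Integrable.mono' (g := fun ξ : ℝ => (2 * ρ * (B0 + B2)) * (1 + ξ ^ 2)⁻¹)
    (integrable_inv_one_add_sq.const_mul _) hcont.aestronglyMeasurable ?_
  refine Filter.Eventually.of_forall fun ξ => ?_
  rw [← div_eq_mul_inv, le_div_iff₀ (by positivity)]
  have h3 := h1 ξ
  have h4 := h2 ξ
  have h5 : ξ ^ 2 * ‖𝓕 (fc (iteratedDeriv i f)) ξ‖ ≤
      (2 * π * ξ) ^ 2 * ‖𝓕 (fc (iteratedDeriv i f)) ξ‖ := by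
    refine mul_le_mul_of_nonneg_right ?_ (norm_nonneg _)
    have : (2 * π * ξ) ^ 2 = (2 * π) ^ 2 * ξ ^ 2 := by ring
    rw [this]
    have h6 : (1 : ℝ) ≤ (2 * π) ^ 2 := by
      have := Real.pi_gt_three
      nlinarith
    nlinarith [sq_nonneg ξ]
  nlinarith

/-- Fourier inversion for the mean. -/
lemma rep {I : Type} [Fintype I] [DecidableEq I] (b : I → ℝ) (g : Gp I)
    (hf : ContDiff ℝ ((⊤ : ℕ∞) : WithTop ℕ∞) f) (hρ : 0 < ρ)
    (hs : ∀ k y, ρ < |y| → iteratedDeriv k f y = 0) (i : ℕ) :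
    ((∑ z : Om I, wR g z * iteratedDeriv i f (Fz b z) : ℝ) : ℂ) =
      ∫ ξ : ℝ, chr b g (2 * π * ξ) * 𝓕 (fc (iteratedDeriv i f)) ξ := by
  have hint : Integrable (fc (iteratedDeriv i f)) :=
    integrable_fc (ρ := ρ) (cont_fc hf i) fun y hy => by simp [fc, hs i y hy]
  have hF := integrable_fourier hf hρ hs i
  have hinv := (cont_fc hf i).fourierInv_fourier_eq hint hF
  have h1 : ∀ x : ℝ, ((iteratedDeriv i f x : ℝ) : ℂ) =
      ∫ ξ : ℝ, Complex.exp (((2 * π * ξ * x : ℝ) : ℂ) * Complex.I) * 𝓕 (fc (iteratedDeriv i f)) ξ := by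
    intro x
    have h2 := congrFun hinv x
    rw [Real.fourierInv_eq'] at h2
    have h3 : fc (iteratedDeriv i f) x = ((iteratedDeriv i f x : ℝ) : ℂ) := rfl
    rw [← h3, ← h2]
    refine integral_congr_ae (Filter.Eventually.of_forall fun ξ => ?_)
    simp only [smul_eq_mul]
    congr 3
    simp
    ring
  have h2 : ∀ x : ℝ, Integrable fun ξ : ℝ =>
      Complex.exp (((2 * π * ξ * x : ℝ) : ℂ) * Complex.I) * 𝓕 (fc (iteratedDeriv i f)) ξ := by
    intro x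
    refine hF.bdd_mul (c := 1) ?_ (Filter.Eventually.of_forall fun ξ => ?_)
    · exact Continuous.aestronglyMeasurable (by fun_prop)
    · rw [Complex.norm_exp_ofReal_mul_I]
  push_cast
  have h3 : ∀ z : Om I, ((wR g z : ℝ) : ℂ) * ((iteratedDeriv i f (Fz b z) : ℝ) : ℂ) =
      ∫ ξ : ℝ, ((wR g z : ℝ) : ℂ) * (Complex.exp (((2 * π * ξ * Fz b z : ℝ) : ℂ) * Complex.I) *
        𝓕 (fc (iteratedDeriv i f)) ξ) := by
    intro z
    rw [h1, integral_const_mul]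
  simp_rw [h3]
  rw [← integral_finset_sum _ fun z _ => (h2 (Fz b z)).const_mul _]
  refine integral_congr_ae (Filter.Eventually.of_forall fun ξ => ?_)
  simp only [chr, Finset.sum_mul]
  refine Finset.sum_congr rfl fun z _ => ?_
  ring

end

end

end Pool.Hom82.K
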