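import Pool.Agent.Work.MP_8222c7_an.Assembly
import Pool.Agent.Work.MP_8222c7_an.Final

/-!
From a tower whose algebra `AA T` is amenable to the two final statements.
-/

set_option autoImplicit false

namespace Pool.Hom82

theorem semisimple_of_tower (T : Tower) (hA : Amenable (AA T)) :
    ∃ (A : Type) (_ : NormedCommRing A) (_ : NormedAlgebra ℂ A) (_ : CompleteSpace A)
      (B : Type) (_ : NormedCommRing B) (_ : NormedAlgebra ℂ B) (_ : CompleteSpace B)
      (φ ψ : A →ₐ[ℂ] B),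
      Amenable A ∧ (⊥ : Ideal A).jacobson = ⊥ ∧ Continuous φ ∧ Continuous ψ ∧
      Function.Surjective φ ∧ (∀ a, ∃ c : ℂ, ψ a = algebraMap ℂ B c) ∧
      (∀ a, φ a - ψ a ∈ (⊥ : Ideal B).jacobson) ∧ φ ≠ ψ :=
  semisimple_of_data hA (ss T) (phi T) (phi_continuous T) (phi_surjective T) (chi T)
    (fun θ a => algHom_phi' T θ a) ⟨_, phi_X0_ne_chi T⟩

theorem frozen_of_tower (T : Tower) (hA : Amenable (AA T)) :
    ¬ (∀ (A : Type) [NonUnitalNormedCommRing A] [NormedSpace ℂ A] [IsScalarTower ℂ A A]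
      [SMulCommClass ℂ A A] [CompleteSpace A],
      (∃ a : A, ¬ quasispectrum ℂ a ⊆ {0}) →
      (∀ (E : Type) [NormedAddCommGroup E] [NormedSpace ℂ E] [CompleteSpace E]
        (l r : A →L[ℂ] (E →L[ℂ] E)),
        (∀ a b : A, l (a * b) = (l a).comp (l b)) →
        (∀ a b : A, r (a * b) = (r b).comp (r a)) →
        (∀ a b : A, (l a).comp (r b) = (r b).comp (l a)) →
        ∀ D : A →L[ℂ] (E →L[ℂ] ℂ),
          (∀ (a b : A) (x : E), D (a * b) x = D b (r a x) + D a (l b x)) →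
          ∃ f : E →L[ℂ] ℂ, ∀ (a : A) (x : E), D a x = f (r a x) - f (l a x)) →
      ∀ (B : Type) [NonUnitalNormedCommRing B] [NormedSpace ℂ B] [IsScalarTower ℂ B B]
        [SMulCommClass ℂ B B] [CompleteSpace B]
        (φ ψ : A →ₙₐ[ℂ] B), Continuous φ → Continuous ψ →
        (∀ a : A, quasispectrum ℂ (φ a - ψ a) ⊆ {0}) → φ = ψ) :=
  frozen_of_data hA (phi T) (phi_continuous T) (chi T)
    (fun θ a => algHom_phi' T θ a) ⟨_, phi_X0_ne_chi T⟩

end Pool.Hom82
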