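import Pool.Agent.Work.MP_8222c7_an.Tow
import Pool.Agent.Work.MP_8222c7_an.Johnson
import Pool.Agent.Work.MP_8222c7_an.DiagFin
import Pool.Agent.Work.MP_8222c7_an.MainOfTower

/-!
Everything from the existence of the kernels.
-/

set_option autoImplicit false

namespace Pool.Hom82

theorem semisimple_of_kern
    (hK : ∀ (L : ℕ) {δ κ : ℝ}, 0 < δ → 0 < κ → Nonempty (Kern L δ κ)) :
    ∃ (A : Type) (_ : NormedCommRing A) (_ : NormedAlgebra ℂ A) (_ : CompleteSpace A)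
      (B : Type) (_ : NormedCommRing B) (_ : NormedAlgebra ℂ B) (_ : CompleteSpace B)
      (φ ψ : A →ₐ[ℂ] B),
      Amenable A ∧ (⊥ : Ideal A).jacobson = ⊥ ∧ Continuous φ ∧ Continuous ψ ∧
      Function.Surjective φ ∧ (∀ a, ∃ c : ℂ, ψ a = algebraMap ℂ B c) ∧
      (∀ a, φ a - ψ a ∈ (⊥ : Ideal B).jacobson) ∧ φ ≠ ψ := by
  obtain ⟨T⟩ := exists_tower_of hK
  exact semisimple_of_tower T (diagAA T).amenable

end Pool.Hom82
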