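import Pool.Agent.Work.MP_8222c7_an.MainOfKern
import Pool.Agent.Work.MP_8222c7_an.Kern
import Pool.Agent.Work.MP_8222c7_an.JohnsonU

/-!
The final statement with Johnson's condition for bimodules in every universe.
-/

set_option autoImplicit false

namespace Pool.Hom82

universe u

theorem semisimple_univ :
    ∃ (A : Type) (_ : NormedCommRing A) (_ : NormedAlgebra ℂ A) (_ : CompleteSpace A)
      (B : Type) (_ : NormedCommRing B) (_ : NormedAlgebra ℂ B) (_ : CompleteSpace B)
      (φ ψ : A →ₐ[ℂ] B),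
      (∀ (E : Type u) [NormedAddCommGroup E] [NormedSpace ℂ E] [CompleteSpace E]
        (l r : A →L[ℂ] (E →L[ℂ] E)),
        (∀ a b : A, l (a * b) = (l a).comp (l b)) →
        (∀ a b : A, r (a * b) = (r b).comp (r a)) →
        (∀ a b : A, (l a).comp (r b) = (r b).comp (l a)) →
        ∀ D : A →L[ℂ] (E →L[ℂ] ℂ),
          (∀ (a b : A) (x : E), D (a * b) x = D b (r a x) + D a (l b x)) →
          ∃ f : E →L[ℂ] ℂ, ∀ (a : A) (x : E), D a x = f (r a x) - f (l a x)) ∧
      (⊥ : Ideal A).jacobson = ⊥ ∧ Continuous φ ∧ Continuous ψ ∧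
      Function.Surjective φ ∧ (∀ a, ∃ c : ℂ, ψ a = algebraMap ℂ B c) ∧
      (∀ a, φ a - ψ a ∈ (⊥ : Ideal B).jacobson) ∧ φ ≠ ψ := by
  obtain ⟨T⟩ := exists_tower_of fun L _ _ h1 h2 => K.exists_kern L h1 h2
  have hU : AmenableU.{u} (AA T) := (diagAA T).amenableU
  refine ⟨AA T, inferInstance, inferInstance, inferInstance, BB T, inferInstance, inferInstance,
    inferInstance, phi T, charHom (BB T) (chi T), hU, jacobson_eq_bot (ss T), phi_continuous T,
    charHom_continuous (chi T), phi_surjective T, fun a => ⟨chi T a, rfl⟩, fun a => ?_, ?_⟩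
  · refine mem_jacobson_of_char _ fun θ => ?_
    rw [map_sub, algHom_phi' T θ a, charHom_apply, AlgHom.commutes]
    exact sub_self _
  · intro heq
    apply phi_X0_ne_chi T
    rw [heq, charHom_apply]

end Pool.Hom82
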