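import Pool.Agent.Work.MP_8222c7_an.St
import Pool.Agent.Work.MP_8222c7_an.Chi

/-!
The functionals of the state step.
-/

set_option autoImplicit false

namespace Pool.Hom82

open Finset MvPolynomial

noncomputable section

variable (S : State) {δ κ : ℝ} (K : Kern S.L δ κ) (m : ℕ)

/-- group of the level -/
abbrev GG := Gp (Fin S.r × K.I)

def nN : ℕ := Fintype.card (GG S K)

def idx : GG S K ≃ Fin (nN S K) := Fintype.equivFin _

/-- index of the new variable of `g` -/
def nv (g : GG S K) : ℕ := S.r + (idx S K g : ℕ)

theorem nv_inj {g g' : GG S K} (h : nv S K g = nv S K g') : g = g' := by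
  have h1 : (idx S K g : ℕ) = idx S K g' := by unfold nv at h; omega
  exact (idx S K).injective (Fin.ext h1)

theorem nv_lt (g : GG S K) : nv S K g < S.r + nN S K := by
  unfold nv
  have := (idx S K g).2
  omega

theorem le_nv (g : GG S K) : S.r ≤ nv S K g := by unfold nv; omega

theorem exists_nv {i : ℕ} (h1 : S.r ≤ i) (h2 : i < S.r + nN S K) : ∃ g, nv S K g = i := by
  refine ⟨(idx S K).symm ⟨i - S.r, by omega⟩, ?_⟩
  unfold nv
  rw [Equiv.apply_symm_apply]
  simp only
  omega

def lev (d : ℕ →₀ ℕ) : ℕ := ∑ g : GG S K, d (nv S K g)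

def grp (d : ℕ →₀ ℕ) : GG S K := ∑ g : GG S K, d (nv S K g) • g

def old (d : ℕ →₀ ℕ) : ℕ →₀ ℕ := d.filter (· < S.r)

def Act (d : ℕ →₀ ℕ) : Prop := ∀ i, S.r + nN S K ≤ i → d i = 0

theorem single_nv (g' g : GG S K) :
    (Finsupp.single (nv S K g') 1 : ℕ →₀ ℕ) (nv S K g) = if g = g' then 1 else 0 := by
  rw [Finsupp.single_apply]
  by_cases h : g = g'
  · simp [h]
  · have : nv S K g' ≠ nv S K g := fun h' => h (nv_inj S K h').symm
    simp [h, this]

theorem lev_new (d : ℕ →₀ ℕ) (g' : GG S K) :
    lev S K (d + Finsupp.single (nv S K g') 1) = lev S K d + 1 := by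
  unfold lev
  simp [Finset.sum_add_distrib, single_nv]

theorem grp_new (d : ℕ →₀ ℕ) (g' : GG S K) :
    grp S K (d + Finsupp.single (nv S K g') 1) = grp S K d + g' := by
  unfold grp
  simp [Finset.sum_add_distrib, single_nv, add_smul]

theorem old_new (d : ℕ →₀ ℕ) (g' : GG S K) :
    old S (d + Finsupp.single (nv S K g') 1) = old S d := by
  unfold old
  rw [Finsupp.filter_add]
  rw [Finsupp.filter_single_of_neg, add_zero]
  have := le_nv S K g'
  omega

theorem act_new (d : ℕ →₀ ℕ) (g' : GG S K) :
    Act S K (d + Finsupp.single (nv S K g') 1) ↔ Act S K d := by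
  unfold Act
  refine forall_congr' fun i => forall_congr' fun hi => ?_
  have h : nv S K g' ≠ i := by have := nv_lt S K g'; omega
  simp [h]

theorem lev_old (d : ℕ →₀ ℕ) {i : ℕ} (hi : i < S.r) :
    lev S K (d + Finsupp.single i 1) = lev S K d := by
  unfold lev
  apply Finset.sum_congr rfl
  intro g _
  have h : i ≠ nv S K g := by have := le_nv S K g; omega
  simp [h]

theorem grp_old (d : ℕ →₀ ℕ) {i : ℕ} (hi : i < S.r) :
    grp S K (d + Finsupp.single i 1) = grp S K d := by
  unfold grp
  apply Finset.sum_congr rfl
  intro g _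
  have h : i ≠ nv S K g := by have := le_nv S K g; omega
  simp [h]

theorem old_old (d : ℕ →₀ ℕ) {i : ℕ} (hi : i < S.r) :
    old S (d + Finsupp.single i 1) = old S d + Finsupp.single i 1 := by
  unfold old
  rw [Finsupp.filter_add]
  congr 1
  exact Finsupp.filter_single_of_pos (fun x => x < S.r) hi

theorem act_old (d : ℕ →₀ ℕ) {i : ℕ} (hi : i < S.r) :
    Act S K (d + Finsupp.single i 1) ↔ Act S K d := by
  unfold Act
  refine forall_congr' fun j => forall_congr' fun hj => ?_
  have h : i ≠ j := by omega
  simp [h]

open Classical in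
/-- value on a monomial -/
def val (b : ℕ) (c : Fin S.r → ℕ) (l : ℕ) (g : GG S K) (d : ℕ →₀ ℕ) : ℂ :=
  if Act S K d then
    ((cutC S.L m b (l + lev S K d) : ℝ) : ℂ) * hh S K c (g + grp S K d) (monomial (old S d) 1)
  else 0

/-- the functionals -/
def Psi (b : ℕ) (c : Fin S.r → ℕ) (l : ℕ) (g : GG S K) : P →ₗ[ℂ] ℂ :=
  (basisMonomials ℕ ℂ).constr ℂ (val S K m b c l g)

theorem Psi_monomial (b : ℕ) (c : Fin S.r → ℕ) (l : ℕ) (g : GG S K) (d : ℕ →₀ ℕ) :
    Psi S K m b c l g (monomial d 1) = val S K m b c l g d := by
  have := (basisMonomials ℕ ℂ).constr_basis ℂ (val S K m b c l g) d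
  rwa [coe_basisMonomials] at this

theorem lin_ext {f g : P →ₗ[ℂ] ℂ} (h : ∀ d, f (monomial d 1) = g (monomial d 1)) (q : P) :
    f q = g q := by
  have : f = g := by
    apply (basisMonomials ℕ ℂ).ext
    intro d
    rw [coe_basisMonomials]
    exact h d
  rw [this]

theorem Psi_new (b : ℕ) (c : Fin S.r → ℕ) (l : ℕ) (g g' : GG S K) (q : P) :
    Psi S K m b c l g (q * X (nv S K g')) = Psi S K m b c (l + 1) (g + g') q := by
  have := lin_ext (f := (Psi S K m b c l g).comp (LinearMap.mulRight ℂ (X (nv S K g') : P)))
    (g := Psi S K m b c (l + 1) (g + g')) (fun d => by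
      simp only [LinearMap.comp_apply, LinearMap.mulRight_apply]
      rw [X, monomial_mul, one_mul, Psi_monomial, Psi_monomial]
      unfold val
      have h1 : l + (lev S K d + 1) = l + 1 + lev S K d := by ring
      have h2 : g + (grp S K d + g') = g + g' + grp S K d := by abel
      by_cases h : Act S K d
      · rw [if_pos h, if_pos ((act_new S K d g').2 h), lev_new, grp_new, old_new, h1, h2]
      · rw [if_neg h, if_neg (fun h' => h ((act_new S K d g').1 h'))]) q
  simpa using this

theorem Psi_b (b : ℕ) (c : Fin S.r → ℕ) (l : ℕ) (g : GG S K) (q : P) :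
    Psi S K m (b + 1) c l g q = Psi S K m b c l g q - Psi S K m b c (l + 1) g q := by
  have := lin_ext (f := Psi S K m (b + 1) c l g)
    (g := Psi S K m b c l g - Psi S K m b c (l + 1) g) (fun d => by
      rw [LinearMap.sub_apply, Psi_monomial, Psi_monomial, Psi_monomial]
      unfold val
      split_ifs with h
      · have h1 : l + 1 + lev S K d = l + lev S K d + 1 := by ring
        rw [h1]
        simp only [cutC]
        push_cast
        ring
      · simp) q
  simpa using this

theorem Psi_c (b : ℕ) (c : Fin S.r → ℕ) (l : ℕ) (g : GG S K) (j : Fin S.r) (q : P) :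
    Psi S K m b (c + Pi.single j 1) l g q = Psi S K m b c l g (q * X (j : ℕ))
      - ∑ k, ((K.b k : ℝ) : ℂ) * Psi S K m b c l (g + uv (j, k)) q := by
  have := lin_ext (f := Psi S K m b (c + Pi.single j 1) l g)
    (g := (Psi S K m b c l g).comp (LinearMap.mulRight ℂ (X (j : ℕ) : P))
      - ∑ k, ((K.b k : ℝ) : ℂ) • Psi S K m b c l (g + uv (j, k))) (fun d => by
      rw [LinearMap.sub_apply, LinearMap.sum_apply]
      simp only [LinearMap.comp_apply, LinearMap.mulRight_apply, LinearMap.smul_apply,
        smul_eq_mul]
      rw [X, monomial_mul, one_mul, Psi_monomial, Psi_monomial]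
      simp only [Psi_monomial]
      unfold val
      by_cases h : Act S K d
      · simp only [if_pos h]
        rw [if_pos ((act_old S K d j.2).2 h), lev_old S K d j.2, grp_old S K d j.2,
          old_old S d j.2]
        rw [hh_succ]
        have h1 : (monomial (old S d + Finsupp.single (j : ℕ) 1) (1 : ℂ) : P)
            = X (j : ℕ) * monomial (old S d) 1 := by
          rw [X, monomial_mul, one_mul, add_comm]
        rw [h1, mul_sub, Finset.mul_sum]
        congr 1
        apply Finset.sum_congr rfl
        intro k _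
        have h2 : g + uv (j, k) + grp S K d = g + grp S K d + uv (j, k) := by abel
        rw [h2]
        ring
      · simp only [if_neg h]
        rw [if_neg (fun h' => h ((act_old S K d j.2).1 h'))]
        simp) q
  rw [this]
  simp

theorem Psi_zero (hL : 1 ≤ S.L) (b : ℕ) (c : Fin S.r → ℕ) {l : ℕ} (hl : m ≤ l) (g : GG S K)
    (q : P) : Psi S K m b c l g q = 0 := by
  have := lin_ext (f := Psi S K m b c l g) (g := 0) (fun d => by
      rw [Psi_monomial]
      unfold val
      split_ifs with h
      · rw [cutC_eq_zero hL b _ (by omega)]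
        simp
      · rfl) q
  simpa using this

theorem Psi_new_pow (b : ℕ) (c : Fin S.r → ℕ) (g' : GG S K) (n : ℕ) :
    ∀ (l : ℕ) (g : GG S K) (q : P), Psi S K m b c l g (q * X (nv S K g') ^ n)
      = Psi S K m b c (l + n) (g + n • g') q := by
  induction n with
  | zero => intro l g q; simp
  | succ n ih =>
    intro l g q
    rw [pow_succ, ← mul_assoc, Psi_new, ih]
    congr 2
    · ring
    · rw [succ_nsmul]; abel

/-- evaluation on old polynomials -/
theorem Psi_eval (b : ℕ) (c : Fin S.r → ℕ) (l : ℕ) (g : GG S K) {a : P}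
    (ha : a ∈ supported ℂ (Set.Iio S.r)) :
    Psi S K m b c l g a = ((cutC S.L m b l : ℝ) : ℂ) * hh S K c g a := by
  have hd : ∀ d ∈ a.support, ∀ i, S.r ≤ i → d i = 0 := by
    intro d hd i hi
    by_contra h
    have h1 : i ∈ a.vars := by
      rw [mem_vars_iff_mem_support]
      exact ⟨d, hd, by simpa using h⟩
    have h2 := (mem_supported.1 ha) h1
    simp only [Set.mem_Iio] at h2
    omega
  have key : ∀ d ∈ a.support, Psi S K m b c l g (monomial d (coeff d a))
      = ((cutC S.L m b l : ℝ) : ℂ) * hh S K c g (monomial d (coeff d a)) := by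
    intro d hd'
    have h0 := hd d hd'
    have e1 : (monomial d (coeff d a) : P) = coeff d a • monomial d (1 : ℂ) := by
      rw [smul_monomial, smul_eq_mul, mul_one]
    rw [e1, map_smul, Psi_monomial, hh_smul]
    have hA : Act S K d := fun i hi => h0 i (by omega)
    have hl : lev S K d = 0 := by
      unfold lev
      exact Finset.sum_eq_zero fun g _ => h0 _ (le_nv S K g)
    have hg : grp S K d = 0 := by
      unfold grp
      exact Finset.sum_eq_zero fun g _ => by rw [h0 _ (le_nv S K g), zero_smul]
    have ho : old S d = d := by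
      unfold old
      rw [Finsupp.filter_eq_self_iff]
      intro i hi
      by_contra h
      exact hi (h0 i (by omega))
    unfold val
    rw [if_pos hA, hl, hg, ho, add_zero, add_zero, smul_eq_mul]
    ring
  have e2 := MvPolynomial.as_sum a
  conv_lhs => rw [e2]
  conv_rhs => rw [e2]
  rw [map_sum, Finset.sum_congr rfl key, ← Finset.mul_sum]
  congr 1
  have : hh S K c g (∑ v ∈ a.support, monomial v (coeff v a))
      = ∑ v ∈ a.support, hh S K c g (monomial v (coeff v a)) := by
    unfold hh
    rw [Finset.mul_sum, map_sum]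
  rw [this]

/-- degree of the old part and level -/
theorem degree_le (d : ℕ →₀ ℕ) (hA : Act S K d) : d.degree ≤ (old S d).degree + lev S K d := by
  classical
  have h1 : d.degree = (old S d).degree + (d.filter (fun i => ¬ i < S.r)).degree := by
    rw [← map_add]
    congr 1
    exact (Finsupp.filter_add_filter_not d (· < S.r)).symm
  rw [h1]
  apply Nat.add_le_add_left
  have h2 : (d.filter (fun i => ¬ i < S.r)).degree
      = ∑ i ∈ (d.filter (fun i => ¬ i < S.r)).support, d i := by
    rw [Finsupp.degree_apply]
    apply Finset.sum_congr rfl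
    intro i hi
    rw [Finsupp.support_filter, Finset.mem_filter] at hi
    rw [Finsupp.filter_apply, if_pos hi.2]
  rw [h2]
  have h3 : (d.filter (fun i => ¬ i < S.r)).support ⊆ Finset.univ.image (nv S K) := by
    intro i hi
    rw [Finsupp.support_filter, Finset.mem_filter] at hi
    have hlt : i < S.r + nN S K := by
      by_contra h
      have := hA i (by omega)
      rw [Finsupp.mem_support_iff] at hi
      exact hi.1 this
    obtain ⟨g, hg⟩ := exists_nv S K (by omega : S.r ≤ i) hlt
    exact Finset.mem_image.2 ⟨g, Finset.mem_univ _, hg⟩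
  refine (Finset.sum_le_sum_of_subset h3).trans ?_
  rw [Finset.sum_image (fun g _ g' _ h => nv_inj S K h)]
  exact le_refl _

theorem Psi_old_pow (b : ℕ) (c : Fin S.r → ℕ) (l : ℕ) (g : GG S K) {i n : ℕ} (hi : i < S.r)
    (hn : S.L ≤ n) (q : P) : Psi S K m b c l g (q * X i ^ n) = 0 := by
  have := lin_ext (f := (Psi S K m b c l g).comp (LinearMap.mulRight ℂ (X i ^ n : P)))
    (g := 0) (fun d => by
      simp only [LinearMap.comp_apply, LinearMap.mulRight_apply]
      rw [X_pow_eq_monomial, monomial_mul, one_mul, Psi_monomial]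
      unfold val
      split_ifs with h
      · rw [hh_kill S K c _ (a := monomial (old S (d + Finsupp.single i n)) 1)]
        · simp
        · intro d' hd'
          have h1 : d' = old S (d + Finsupp.single i n) := by
            have := MvPolynomial.support_monomial_subset hd'
            simpa using this
          have h2 : old S (d + Finsupp.single i n) = old S d + Finsupp.single i n := by
            unfold old
            rw [Finsupp.filter_add]
            congr 1
            exact Finsupp.filter_single_of_pos (fun x => x < S.r) hi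
          rw [h1, h2, map_add, Finsupp.degree_single]
          omega
      · rfl) q
  simpa using this

theorem Psi_kill (hL : 1 ≤ S.L) (b : ℕ) (c : Fin S.r → ℕ) (l : ℕ) (g : GG S K) {q : P}
    (hq : Ord (S.L + m) q) : Psi S K m b c l g q = 0 := by
  have e2 := MvPolynomial.as_sum q
  rw [e2, map_sum]
  apply Finset.sum_eq_zero
  intro d hd
  have e1 : (monomial d (coeff d q) : P) = coeff d q • monomial d (1 : ℂ) := by
    rw [smul_monomial, smul_eq_mul, mul_one]
  rw [e1, map_smul, Psi_monomial]
  unfold val
  split_ifs with hA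
  · have h1 := degree_le S K d hA
    have h2 := hq d hd
    rcases Nat.lt_or_ge (old S d).degree S.L with h3 | h3
    · rw [cutC_eq_zero hL b _ (by omega)]
      simp
    · rw [hh_kill S K c _ (a := monomial (old S d) 1)]
      · simp
      · intro d' hd'
        have : d' = old S d := by
          have := MvPolynomial.support_monomial_subset hd'
          simpa using this
        rw [this]; exact h3
  · simp

end

end Pool.Hom82
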