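import Pool.Agent.Work.MP_8222c7_an.AssemblyDefs
import Pool.Agent.Work.MP_8222c7_an.Ext

/-!
Level maps of the algebra of a `Tower` and semisimplicity.
-/

set_option autoImplicit false

namespace Pool.Hom82

open Finset Filter UniformSpace

noncomputable section

section fin

variable {X : Type} [Fintype X] [DecidableEq X]

theorem AlgSn.mul_single (N : AlgSn (X → ℂ)) (f : X → ℂ) (z : X) :
    ‖f z‖ * N.N (Pi.single z 1) ≤ N.N f * N.N (Pi.single z 1) := by
  by_cases hz : f z = 0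
  · rw [hz, norm_zero, zero_mul]
    exact mul_nonneg (N.nonneg _) (N.nonneg _)
  have h1 : f * Pi.single z 1 = f z • (Pi.single z 1 : X → ℂ) := by
    funext w
    by_cases hw : w = z
    · subst hw; simp
    · simp [Pi.single_eq_of_ne hw]
  have h2 : (Pi.single z 1 : X → ℂ) = (f z)⁻¹ • (f z • (Pi.single z 1 : X → ℂ)) := by
    rw [smul_smul, inv_mul_cancel₀ hz, one_smul]
  have h3 : N.N (Pi.single z 1) ≤ ‖(f z)⁻¹‖ * N.N (f z • (Pi.single z 1 : X → ℂ)) := by
    have := N.smul (f z)⁻¹ (f z • (Pi.single z 1 : X → ℂ))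
    rwa [← h2] at this
  have h4 : N.N (f z • (Pi.single z 1 : X → ℂ)) ≤ N.N f * N.N (Pi.single z 1) := by
    rw [← h1]
    exact N.mul _ _
  have hz' : 0 < ‖f z‖ := norm_pos_iff.mpr hz
  calc ‖f z‖ * N.N (Pi.single z 1)
      ≤ ‖f z‖ * (‖(f z)⁻¹‖ * N.N (f z • (Pi.single z 1 : X → ℂ))) :=
        mul_le_mul_of_nonneg_left h3 (norm_nonneg _)
    _ = N.N (f z • (Pi.single z 1 : X → ℂ)) := by
        rw [norm_inv, ← mul_assoc, mul_inv_cancel₀ hz'.ne', one_mul]
    _ ≤ _ := h4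

theorem AlgSn.eval_le (N : AlgSn (X → ℂ)) (z : X) (hz : N.N (Pi.single z 1) ≠ 0) (f : X → ℂ) :
    ‖f z‖ ≤ N.N f := by
  have hpos : 0 < N.N (Pi.single z 1) := lt_of_le_of_ne (N.nonneg _) (Ne.symm hz)
  exact le_of_mul_le_mul_right (N.mul_single f z) hpos

/-- evaluation as an algebra homomorphism -/
def evalH (z : X) : (X → ℂ) →ₐ[ℂ] ℂ := Pi.evalAlgHom ℂ (fun _ : X => ℂ) z

/-- a function killed by all characters of the completion is zero in the completion -/
theorem AlgSn.fin_ss (N : AlgSn (X → ℂ)) (f : X → ℂ)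
    (h : ∀ θ : N.Comp →ₐ[ℂ] ℂ, θ (N.emb f) = 0) : N.emb f = 0 := by
  have h1 : f = ∑ z, f z • (Pi.single z 1 : X → ℂ) := by
    funext w
    rw [Finset.sum_apply]
    simp [Pi.single_apply]
  rw [h1, map_sum]
  refine Finset.sum_eq_zero fun z _ => ?_
  rw [map_smul]
  by_cases hz : N.N (Pi.single z 1) = 0
  · rw [N.emb_eq_zero hz, smul_zero]
  · have h2 := h (N.ext (evalH z) 1 (fun g => by rw [one_mul]; exact N.eval_le z hz g))
    rw [N.ext_emb] at h2
    have h3 : f z = 0 := h2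
    rw [h3, zero_smul]

/-- the dense image is everything, in finite dimension -/
theorem AlgSn.fin_surj (N : AlgSn (X → ℂ)) : Function.Surjective N.emb := by
  intro x
  have hfd : FiniteDimensional ℂ (LinearMap.range N.emb.toLinearMap) := inferInstance
  have hcl : IsClosed (LinearMap.range N.emb.toLinearMap : Set N.Comp) :=
    Submodule.closed_of_finiteDimensional _
  have hx : x ∈ closure (Set.range N.emb) := N.dense_emb x
  have he : Set.range N.emb = (LinearMap.range N.emb.toLinearMap : Set N.Comp) := by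
    ext y
    simp
  rw [he, hcl.closure_eq] at hx
  obtain ⟨a, ha⟩ := hx
  exact ⟨a, ha⟩

theorem AlgSn.fin_ss' (N : AlgSn (X → ℂ)) (x : N.Comp)
    (h : ∀ θ : N.Comp →ₐ[ℂ] ℂ, θ x = 0) : x = 0 := by
  obtain ⟨f, rfl⟩ := N.fin_surj x
  exact N.fin_ss f h

end fin

variable (T : Tower)

/-- projection of `Afin` to level `n` -/
def prN (n : ℕ) : Afin T →ₐ[ℂ] (Om (T.I n) → ℂ) :=
  ((Pi.evalAlgHom ℂ (fun n => Om (T.I n) → ℂ) n).comp
    (AlgHom.snd ℂ P (∀ n, Om (T.I n) → ℂ))).comp (Afin T).val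

theorem prN_apply (n : ℕ) (x : Afin T) : prN T n x = x.1.2 n := rfl

/-- level maps -/
def lev (n : ℕ) : AA T →ₐ[ℂ] (gn T n).Comp :=
  (NA T).map (gn T n) (prN T n) 1 (fun x => by rw [one_mul]; exact le_NA T x n)

theorem lev_continuous (n : ℕ) : Continuous (lev T n) := (NA T).map_continuous _ _ _ _

theorem lev_emb (n : ℕ) (x : Afin T) : lev T n (emb T x) = (gn T n).emb (x.1.2 n) :=
  (NA T).map_emb _ _ _ _ x

theorem norm_lev_le (n : ℕ) (x : AA T) : ‖lev T n x‖ ≤ ‖x‖ := by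
  have := (NA T).norm_map_le (gn T n) (prN T n) 1
    (fun x => by rw [one_mul]; exact le_NA T x n) x
  rwa [one_mul] at this

theorem norm_lev_emb (n : ℕ) (x : Afin T) : ‖lev T n (emb T x)‖ = (gn T n).N (x.1.2 n) := by
  rw [lev_emb, AlgSn.norm_emb]

theorem norm_le_of_lev (x : AA T) {c : ℝ} (h : ∀ n, ‖lev T n x‖ ≤ c) : ‖x‖ ≤ c := by
  refine le_of_forall_pos_le_add fun ε hε => ?_
  obtain ⟨a, ha⟩ := (dense_emb T).exists_dist_lt x (half_pos hε)
  rw [dist_eq_norm] at ha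
  have h1 : ‖emb T a‖ ≤ c + ε / 2 := by
    rw [norm_emb]
    refine NA_le T a fun n => ?_
    rw [← norm_lev_emb]
    calc ‖lev T n (emb T a)‖ = ‖lev T n x - lev T n (x - emb T a)‖ := by
          rw [map_sub]; congr 1; abel
      _ ≤ ‖lev T n x‖ + ‖lev T n (x - emb T a)‖ := norm_sub_le _ _
      _ ≤ c + ε / 2 := add_le_add (h n) ((norm_lev_le T n _).trans ha.le)
  calc ‖x‖ = ‖emb T a + (x - emb T a)‖ := by congr 1; abel
    _ ≤ ‖emb T a‖ + ‖x - emb T a‖ := norm_add_le _ _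
    _ ≤ c + ε / 2 + ε / 2 := add_le_add h1 ha.le
    _ = c + ε := by ring

/-- semisimplicity -/
theorem ss (x : AA T) (h : ∀ θ : AA T →ₐ[ℂ] ℂ, θ x = 0) : x = 0 := by
  have h1 : ∀ n, lev T n x = 0 := by
    intro n
    exact (gn T n).fin_ss' _ fun θ => h (θ.comp (lev T n))
  have h2 : ‖x‖ ≤ 0 := norm_le_of_lev T x fun n => by rw [h1 n, norm_zero]
  exact norm_le_zero_iff.mp h2

end

end Pool.Hom82
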