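import Pool.Agent.Work.MP_8222c7_an.Defs

/-!
States of the recursion and the kernel polynomials.
-/

set_option autoImplicit false

namespace Pool.Hom82

open Finset MvPolynomial

noncomputable section

/-- all monomials of `q` have degree at least `b` -/
def Ord (b : ℕ) (q : P) : Prop := ∀ d ∈ q.support, b ≤ d.degree

theorem Ord.mono {a b : ℕ} (h : a ≤ b) {q : P} (hq : Ord b q) : Ord a q :=
  fun d hd => h.trans (hq d hd)

theorem Ord.mul {a b : ℕ} {p q : P} (hp : Ord a p) (hq : Ord b q) : Ord (a + b) (p * q) := by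
  classical
  intro d hd
  have := MvPolynomial.support_mul p q hd
  obtain ⟨u, hu, v, hv, rfl⟩ := Finset.mem_add.1 this
  rw [map_add]
  exact add_le_add (hp u hu) (hq v hv)

theorem Ord.mul_left {b : ℕ} {q : P} (p : P) (hq : Ord b q) : Ord b (p * q) := by
  have h : Ord 0 p := fun d _ => Nat.zero_le _
  simpa using h.mul hq

theorem Ord.mul_right {b : ℕ} {q : P} (p : P) (hq : Ord b q) : Ord b (q * p) := by
  rw [mul_comm]; exact hq.mul_left p

theorem ord_X (i : ℕ) : Ord 1 (X i : P) := by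
  intro d hd
  rw [support_X, mem_singleton] at hd
  subst hd
  simp

theorem Ord.pow {b : ℕ} {q : P} (hq : Ord b q) (n : ℕ) : Ord (n * b) (q ^ n) := by
  induction n with
  | zero => intro d _; simp
  | succ n ih =>
    rw [pow_succ, Nat.succ_mul]
    exact ih.mul hq

theorem ord_X_pow (i n : ℕ) : Ord n (X i ^ n : P) := by
  simpa using (ord_X i).pow n

theorem ord_one_of {s : P} (h : constantCoeff s = 0) : Ord 1 s := by
  intro d hd
  rcases Nat.eq_zero_or_pos d.degree with h0 | h0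
  · exfalso
    have : d = 0 := by
      rwa [Finsupp.degree_eq_zero_iff] at h0
    subst this
    rw [mem_support_iff] at hd
    exact hd h
  · exact h0

/-- A state: functional `phi` on polynomials, killing high degrees, bounded on the monoid
generated by `F`. -/
structure State where
  r : ℕ
  hr : 1 ≤ r
  L : ℕ
  hL : 1 ≤ L
  F : Finset P
  phi : P →ₗ[ℂ] ℂ
  C : ℝ
  hX : ∀ i < r, (X i : P) ∈ F
  hF0 : ∀ s ∈ F, constantCoeff s = 0
  hFv : ∀ s ∈ F, s ∈ supported ℂ (Set.Iio r)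
  bound : ∀ s ∈ Submonoid.closure (F : Set P), ‖phi s‖ ≤ C
  kill : ∀ q, Ord L q → phi q = 0

namespace State

variable (S : State)

abbrev M : Submonoid P := Submonoid.closure (S.F : Set P)

theorem X_mem {i : ℕ} (h : i < S.r) : (X i : P) ∈ S.M := Submonoid.subset_closure (S.hX i h)

theorem C_nonneg : 0 ≤ S.C := (norm_nonneg _).trans (S.bound 1 (one_mem _))

end State

section kern

variable {L : ℕ} {δ κ : ℝ} (K : Kern L δ κ)

/-- one variable kernel polynomial -/
def tp (L : ℕ) {δ κ : ℝ} (K : Kern L δ κ) (c : ℕ) (g : Gp K.I) (j : ℕ) : P :=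
  ∑ i ∈ range L, C ((K.tau c i g : ℝ) : ℂ) * X j ^ i

theorem tp_succ (hL : 1 ≤ L) (c : ℕ) (g : Gp K.I) (j : ℕ) :
    tp L K (c + 1) g j = X j * tp L K c g j - ∑ k, C ((K.b k : ℝ) : ℂ) * tp L K c (g + uv k) j
      - C ((K.tau c (L - 1) g : ℝ) : ℂ) * X j ^ L := by
  obtain ⟨m, rfl⟩ : ∃ m, L = m + 1 := ⟨L - 1, by omega⟩
  unfold tp
  simp only [Nat.add_sub_cancel]
  have h1 : ∑ i ∈ range (m + 1), C ((K.tau (c + 1) i g : ℝ) : ℂ) * (X j : P) ^ i
      = ∑ i ∈ range m, C ((K.tau c i g : ℝ) : ℂ) * (X j : P) ^ (i + 1)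
        - ∑ i ∈ range (m + 1), ∑ k, C ((K.b k : ℝ) : ℂ) *
            (C ((K.tau c i (g + uv k) : ℝ) : ℂ) * (X j : P) ^ i) := by
    rw [Finset.sum_range_succ' _ m, Finset.sum_range_succ' _ m]
    rw [K.rec0]
    simp_rw [K.rec1]
    rw [add_comm (∑ k ∈ range m, ∑ k_1, _) _, ← sub_sub, sub_eq_add_neg (∑ i ∈ range m, _),
      add_sub_right_comm, ← Finset.sum_sub_distrib]
    congr 1
    · apply Finset.sum_congr rfl
      intro i _
      push_cast
      simp only [map_sub, map_sum, map_mul, sub_mul, Finset.sum_mul, mul_assoc]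
    · push_cast
      simp only [map_neg, map_sum, map_mul, neg_mul, Finset.sum_mul, mul_assoc]
  rw [h1, Finset.sum_comm]
  simp_rw [← Finset.mul_sum]
  rw [mul_sum, Finset.sum_range_succ _ m]
  have h2 : ∀ i, (X j : P) * (C ((K.tau c i g : ℝ) : ℂ) * X j ^ i)
      = C ((K.tau c i g : ℝ) : ℂ) * (X j : P) ^ (i + 1) := by
    intro i; ring
  simp_rw [h2]
  ring

end kern

section multi

variable {L : ℕ} {δ κ : ℝ} (K : Kern L δ κ) {r : ℕ}

/-- row of a group element -/
def row (g : Gp (Fin r × K.I)) (j : Fin r) : Gp K.I := fun k => g (j, k)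

theorem row_add_uv_same (g : Gp (Fin r × K.I)) (j : Fin r) (k : K.I) :
    row K (g + uv (j, k)) j = row K g j + uv k := by
  funext k'
  simp only [row, uv, Pi.add_apply, Pi.single_apply, Prod.mk.injEq, true_and]

theorem row_add_uv_ne (g : Gp (Fin r × K.I)) {j j' : Fin r} (h : j' ≠ j) (k : K.I) :
    row K (g + uv (j, k)) j' = row K g j' := by
  funext k'
  simp [row, uv, h]

theorem row_zero (j : Fin r) : row K (0 : Gp (Fin r × K.I)) j = 0 := rfl

/-- kernel polynomial in all variables -/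
def Tp (c : Fin r → ℕ) (g : Gp (Fin r × K.I)) : P :=
  ∏ j : Fin r, tp L K (c j) (row K g j) j

theorem Tp_succ (hL : 1 ≤ L) (c : Fin r → ℕ) (g : Gp (Fin r × K.I)) (j : Fin r) :
    ∃ Q : P, Tp K (c + Pi.single j 1) g = X (j : ℕ) * Tp K c g
      - ∑ k, C ((K.b k : ℝ) : ℂ) * Tp K c (g + uv (j, k)) - Q * X (j : ℕ) ^ L := by
  classical
  set R : P := ∏ j' ∈ univ.erase j, tp L K (c j') (row K g j') j' with hR
  have h1 : Tp K (c + Pi.single j 1) g = tp L K (c j + 1) (row K g j) j * R := by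
    rw [Tp, ← Finset.mul_prod_erase univ _ (mem_univ j), hR]
    congr 1
    · simp
    · apply Finset.prod_congr rfl
      intro j' hj'
      have : j' ≠ j := Finset.ne_of_mem_erase hj'
      simp [this]
  have h2 : Tp K c g = tp L K (c j) (row K g j) j * R := by
    rw [Tp, ← Finset.mul_prod_erase univ _ (mem_univ j), hR]
  have h3 : ∀ k, Tp K c (g + uv (j, k)) = tp L K (c j) (row K g j + uv k) j * R := by
    intro k
    rw [Tp, ← Finset.mul_prod_erase univ _ (mem_univ j), hR, row_add_uv_same]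
    congr 1
    apply Finset.prod_congr rfl
    intro j' hj'
    rw [row_add_uv_ne K g (Finset.ne_of_mem_erase hj')]
  refine ⟨C ((K.tau (c j) (L - 1) (row K g j) : ℝ) : ℂ) * R, ?_⟩
  rw [h1, h2, tp_succ K hL]
  simp_rw [h3]
  rw [sub_mul, sub_mul, Finset.sum_mul]
  simp_rw [mul_assoc]
  congr 1
  ring

end multi

section bounds

variable (S : State) {δ κ : ℝ} (K : Kern S.L δ κ)

/-- `h_c(g)(a)` -/
def hh (c : Fin S.r → ℕ) (g : Gp (Fin S.r × K.I)) (a : P) : ℂ := S.phi (Tp K c g * a)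

theorem hh_succ (c : Fin S.r → ℕ) (g : Gp (Fin S.r × K.I)) (j : Fin S.r) (a : P) :
    hh S K (c + Pi.single j 1) g a = hh S K c g (X (j : ℕ) * a)
      - ∑ k, ((K.b k : ℝ) : ℂ) * hh S K c (g + uv (j, k)) a := by
  obtain ⟨Q, hQ⟩ := Tp_succ K S.hL c g j
  unfold hh
  rw [hQ, sub_mul, sub_mul, map_sub, map_sub]
  have h0 : S.phi (Q * X (j : ℕ) ^ S.L * a) = 0 := by
    apply S.kill
    exact ((ord_X_pow _ _).mul_left Q).mul_right a
  rw [h0, sub_zero, Finset.sum_mul, map_sum]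
  congr 1
  · congr 1; ring
  · apply Finset.sum_congr rfl
    intro k _
    rw [mul_assoc, ← MvPolynomial.smul_eq_C_mul, map_smul, smul_eq_mul]

theorem hh_add (c : Fin S.r → ℕ) (g : Gp (Fin S.r × K.I)) (a b : P) :
    hh S K c g (a + b) = hh S K c g a + hh S K c g b := by
  unfold hh; rw [mul_add, map_add]

theorem hh_smul (c : Fin S.r → ℕ) (g : Gp (Fin S.r × K.I)) (t : ℂ) (a : P) :
    hh S K c g (t • a) = t * hh S K c g a := by
  unfold hh; rw [mul_smul_comm, map_smul, smul_eq_mul]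

theorem hh_kill (c : Fin S.r → ℕ) (g : Gp (Fin S.r × K.I)) {a : P} (h : Ord S.L a) :
    hh S K c g a = 0 := S.kill _ (h.mul_left _)

/-- expansion of the kernel polynomial -/
theorem Tp_expand (c : Fin S.r → ℕ) (g : Gp (Fin S.r × K.I)) :
    Tp K c g = ∑ p ∈ Fintype.piFinset (fun _ : Fin S.r => range S.L),
      ((∏ j, ((K.tau (c j) (p j) (row K g j) : ℝ) : ℂ)) • ∏ j : Fin S.r, (X (j : ℕ) : P) ^ p j) := by
  unfold Tp tp
  rw [Finset.prod_univ_sum]
  apply Finset.sum_congr rfl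
  intro p _
  rw [Finset.prod_mul_distrib, MvPolynomial.smul_eq_C_mul, map_prod]

theorem monom_mem (p : Fin S.r → ℕ) : ∏ j : Fin S.r, (X (j : ℕ) : P) ^ p j ∈ S.M :=
  Submonoid.prod_mem _ fun j _ => Submonoid.pow_mem _ (S.X_mem j.2) _

theorem hh_bound (c : Fin S.r → ℕ) (g : Gp (Fin S.r × K.I)) {a : P}
    (ha : a ∈ S.M) : ‖hh S K c g a‖ ≤ S.C * (1 + δ) ^ S.r * κ ^ (∑ j, c j) := by
  unfold hh
  rw [Tp_expand, Finset.sum_mul, map_sum]
  refine (norm_sum_le _ _).trans ?_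
  have h1 : ∀ p ∈ Fintype.piFinset (fun _ : Fin S.r => range S.L),
      ‖S.phi (((∏ j, ((K.tau (c j) (p j) (row K g j) : ℝ) : ℂ)) •
        ∏ j : Fin S.r, (X (j : ℕ) : P) ^ p j) * a)‖
      ≤ S.C * ∏ j, |K.tau (c j) (p j) (row K g j)| := by
    intro p _
    rw [smul_mul_assoc, map_smul, norm_smul, mul_comm S.C]
    have h2 : ‖∏ j, ((K.tau (c j) (p j) (row K g j) : ℝ) : ℂ)‖
        = ∏ j, |K.tau (c j) (p j) (row K g j)| := by
      rw [norm_prod]
      apply Finset.prod_congr rfl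
      intro j _
      rw [Complex.norm_real, Real.norm_eq_abs]
    rw [h2]
    apply mul_le_mul_of_nonneg_left _ (Finset.prod_nonneg fun j _ => abs_nonneg _)
    exact S.bound _ (mul_mem (monom_mem S p) ha)
  refine (Finset.sum_le_sum h1).trans ?_
  rw [← Finset.mul_sum, ← Finset.prod_univ_sum (fun _ : Fin S.r => range S.L)
    (fun j i => |K.tau (c j) i (row K g j)|)]
  rw [mul_assoc]
  apply mul_le_mul_of_nonneg_left _ S.C_nonneg
  calc ∏ j : Fin S.r, ∑ i ∈ range S.L, |K.tau (c j) i (row K g j)|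
      ≤ ∏ j : Fin S.r, ((1 + δ) * κ ^ c j) := by
        apply Finset.prod_le_prod
        · intro j _
          exact Finset.sum_nonneg fun i _ => abs_nonneg _
        · intro j _
          exact K.bound _ _
    _ = (1 + δ) ^ S.r * κ ^ (∑ j, c j) := by
        rw [Finset.prod_mul_distrib, Finset.prod_const, Finset.prod_pow_eq_pow_sum]
        simp

theorem hh_zero_close {a : P} (ha : a ∈ S.M) :
    ‖hh S K 0 0 a - S.phi a‖ ≤ S.C * ((1 + δ) ^ S.r - 1) := by
  classical
  unfold hh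
  rw [Tp_expand, Finset.sum_mul, map_sum]
  have h0 : (0 : Fin S.r → ℕ) ∈ Fintype.piFinset (fun _ : Fin S.r => range S.L) := by
    rw [Fintype.mem_piFinset]
    intro j
    simpa using Nat.lt_of_lt_of_le Nat.zero_lt_one S.hL
  rw [← Finset.add_sum_erase _ _ h0]
  have h1 : S.phi (((∏ j : Fin S.r, ((K.tau ((0 : Fin S.r → ℕ) j) ((0 : Fin S.r → ℕ) j)
      (row K 0 j) : ℝ) : ℂ)) • ∏ j : Fin S.r, (X (j : ℕ) : P) ^ (0 : Fin S.r → ℕ) j) * a)
      = S.phi a := by
    congr 1
    simp [row_zero, K.one]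
  rw [h1, add_sub_cancel_left]
  refine (norm_sum_le _ _).trans ?_
  have h2 : ∀ p ∈ (Fintype.piFinset (fun _ : Fin S.r => range S.L)).erase 0,
      ‖S.phi (((∏ j, ((K.tau ((0 : Fin S.r → ℕ) j) (p j) (row K 0 j) : ℝ) : ℂ)) •
        ∏ j : Fin S.r, (X (j : ℕ) : P) ^ p j) * a)‖
      ≤ S.C * ∏ j : Fin S.r, |K.tau 0 (p j) 0| := by
    intro p _
    rw [smul_mul_assoc, map_smul, norm_smul, mul_comm S.C]
    have h2 : ‖∏ j : Fin S.r, ((K.tau ((0 : Fin S.r → ℕ) j) (p j) (row K 0 j) : ℝ) : ℂ)‖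
        = ∏ j : Fin S.r, |K.tau 0 (p j) 0| := by
      rw [norm_prod]
      apply Finset.prod_congr rfl
      intro j _
      rw [Complex.norm_real, Real.norm_eq_abs, row_zero, Pi.zero_apply]
    rw [h2]
    apply mul_le_mul_of_nonneg_left _ (Finset.prod_nonneg fun j _ => abs_nonneg _)
    exact S.bound _ (mul_mem (monom_mem S p) ha)
  refine (Finset.sum_le_sum h2).trans ?_
  rw [← Finset.mul_sum]
  apply mul_le_mul_of_nonneg_left _ S.C_nonneg
  have h3 : ∑ p ∈ Fintype.piFinset (fun _ : Fin S.r => range S.L),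
      ∏ j : Fin S.r, |K.tau 0 (p j) 0| ≤ (1 + δ) ^ S.r := by
    rw [← Finset.prod_univ_sum (fun _ : Fin S.r => range S.L) (fun _ i => |K.tau 0 i 0|)]
    rw [Finset.prod_const, Finset.card_univ, Fintype.card_fin]
    apply pow_le_pow_left₀ (Finset.sum_nonneg fun i _ => abs_nonneg _)
    simpa using K.bound 0 0
  rw [← Finset.add_sum_erase _ _ h0] at h3
  have h4 : ∏ j : Fin S.r, |K.tau 0 ((0 : Fin S.r → ℕ) j) 0| = 1 := by
    simp [K.one]
  rw [h4] at h3
  linarith

end bounds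

end

end Pool.Hom82
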