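import Pool.Agent.Work.MP_8222c7_an.Psi

/-!
The state step.
-/

set_option autoImplicit false

namespace Pool.Hom82

open Finset MvPolynomial

noncomputable section

theorem State.M_supported (S : State) {a : P} (ha : a ∈ S.M) :
    a ∈ supported ℂ (Set.Iio S.r) := by
  have h : S.M ≤ (supported ℂ (Set.Iio S.r) : Subalgebra ℂ P).toSubmonoid := by
    rw [Submonoid.closure_le]
    exact S.hFv
  exact h ha

variable (S : State) {δ ε : ℝ} (K : Kern S.L δ ε) (m : ℕ)

theorem Psi_base (hδ : 0 ≤ δ) (hε : 0 < ε) (hm0 : 0 < m) (hm : S.L ≤ m) (hm' : (S.L : ℝ) ≤ ε * m)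
    (b : ℕ) (c : Fin S.r → ℕ) (l : ℕ) (g : GG S K) {a : P} (ha : a ∈ S.M) (hb : Ord b a) :
    ‖Psi S K m b c l g a‖ ≤ S.C * (1 + δ) ^ S.r * ε ^ (b + ∑ j, c j) := by
  rw [Psi_eval S K m b c l g (S.M_supported ha)]
  have hC : 0 ≤ S.C * (1 + δ) ^ S.r := mul_nonneg S.C_nonneg (by positivity)
  rcases Nat.lt_or_ge b S.L with h | h
  · rw [norm_mul, Complex.norm_real, Real.norm_eq_abs]
    calc |cutC S.L m b l| * ‖hh S K c g a‖
        ≤ ε ^ b * (S.C * (1 + δ) ^ S.r * ε ^ (∑ j, c j)) :=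
          mul_le_mul (cutC_bound hε hm hm' hm0 b h l) (hh_bound S K c g ha) (norm_nonneg _)
            (by positivity)
      _ = S.C * (1 + δ) ^ S.r * ε ^ (b + ∑ j, c j) := by rw [pow_add]; ring
  · rw [hh_kill S K c g (hb.mono h), mul_zero, norm_zero]
    exact mul_nonneg hC (by positivity)

/-- the generators of the next state -/
inductive NewGen (e c : ℂ) : P → Prop
  | old (s : P) (hs : s ∈ S.F) : NewGen e c s
  | new (g : GG S K) : NewGen e c (X (nv S K g))
  | d1 (i : ℕ) (hi : i < S.r) : NewGen e c (e • (((1 : P) - X (nv S K 0)) * X i))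
  | d2 (j : Fin S.r) (g : GG S K) : NewGen e c (e • ((X (nv S K g) : P) * X (j : ℕ)
      - ∑ k, ((K.b k : ℝ) : ℂ) • X (nv S K (g + uv (j, k)))))
  | d3 (g : GG S K) : NewGen e c (e • ((X (nv S K g) : P) * X (nv S K g)
      - X (nv S K 0) * X (nv S K 0)))
  | nil (i : ℕ) (hi : i < S.r + nN S K) : NewGen e c (c ^ (S.L + m) • (X i : P) ^ (S.L + m))

theorem newGen_finite (e c : ℂ) : {s : P | NewGen S K m e c s}.Finite := by
  classical
  have h1 : {s : P | NewGen S K m e c s} ⊆ (S.F : Set P)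
      ∪ Set.range (fun g : GG S K => (X (nv S K g) : P))
      ∪ Set.range (fun i : Fin S.r => e • (((1 : P) - X (nv S K 0)) * X (i : ℕ)))
      ∪ Set.range (fun p : Fin S.r × GG S K => e • ((X (nv S K p.2) : P) * X (p.1 : ℕ)
        - ∑ k, ((K.b k : ℝ) : ℂ) • X (nv S K (p.2 + uv (p.1, k)))))
      ∪ Set.range (fun g : GG S K => e • ((X (nv S K g) : P) * X (nv S K g)
        - X (nv S K 0) * X (nv S K 0)))
      ∪ Set.range (fun i : Fin (S.r + nN S K) => c ^ (S.L + m) • (X (i : ℕ) : P) ^ (S.L + m)) := by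
    intro s hs
    rcases hs with ⟨s, hs⟩ | g | ⟨i, hi⟩ | ⟨j, g⟩ | g | ⟨i, hi⟩
    · exact Or.inl (Or.inl (Or.inl (Or.inl (Or.inl hs))))
    · exact Or.inl (Or.inl (Or.inl (Or.inl (Or.inr ⟨g, rfl⟩))))
    · exact Or.inl (Or.inl (Or.inl (Or.inr ⟨⟨i, hi⟩, rfl⟩)))
    · exact Or.inl (Or.inl (Or.inr ⟨(j, g), rfl⟩))
    · exact Or.inl (Or.inr ⟨g, rfl⟩)
    · exact Or.inr ⟨⟨i, hi⟩, rfl⟩
  refine Set.Finite.subset ?_ h1
  refine Set.Finite.union (Set.Finite.union (Set.Finite.union (Set.Finite.union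
    (Set.Finite.union ?_ ?_) ?_) ?_) ?_) ?_
  · exact S.F.finite_toSet
  · exact Set.finite_range _
  · exact Set.finite_range _
  · exact Set.finite_range _
  · exact Set.finite_range _
  · exact Set.finite_range _

theorem gg_two (g : GG S K) : g + g = 0 := by
  funext k
  exact CharTwo.add_self_eq_zero (g k)

/-- main estimate -/
theorem Psi_bound (hδ : 0 ≤ δ) (hε : 0 < ε) (hm0 : 0 < m) (hm : S.L ≤ m)
    (hm' : (S.L : ℝ) ≤ ε * m) {e : ℂ} (he : ‖e‖ * ε ≤ 1) (κ' : ℂ) {s : P}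
    (hs : s ∈ Submonoid.closure {s : P | NewGen S K m e κ' s}) :
    ∀ (b : ℕ) (c : Fin S.r → ℕ) (l : ℕ) (g : GG S K) (a : P), a ∈ S.M → Ord b a →
      ‖Psi S K m b c l g (s * a)‖ ≤ S.C * (1 + δ) ^ S.r * ε ^ (b + ∑ j, c j) := by
  have hC : 0 ≤ S.C * (1 + δ) ^ S.r := mul_nonneg S.C_nonneg (by positivity)
  induction hs using Submonoid.closure_induction_right with
  | one =>
    intro b c l g a ha hb
    rw [one_mul]
    exact Psi_base S K m hδ hε hm0 hm hm' b c l g ha hb
  | mul_right x hx y hy ih =>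
    intro b c l g a ha hb
    have hscale : ∀ (N : ℕ) (w : ℂ), ‖w‖ ≤ S.C * (1 + δ) ^ S.r * ε ^ (N + 1) →
        ‖e * w‖ ≤ S.C * (1 + δ) ^ S.r * ε ^ N := by
      intro N w hw
      rw [norm_mul]
      calc ‖e‖ * ‖w‖ ≤ ‖e‖ * (S.C * (1 + δ) ^ S.r * ε ^ (N + 1)) :=
            mul_le_mul_of_nonneg_left hw (norm_nonneg _)
        _ = (‖e‖ * ε) * (S.C * (1 + δ) ^ S.r * ε ^ N) := by rw [pow_succ]; ring
        _ ≤ 1 * (S.C * (1 + δ) ^ S.r * ε ^ N) :=
            mul_le_mul_of_nonneg_right he (mul_nonneg hC (by positivity))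
        _ = _ := one_mul _
    rcases hy with ⟨y, hy⟩ | g' | ⟨i, hi⟩ | ⟨j, g'⟩ | g' | ⟨i, hi⟩
    · rw [mul_assoc]
      exact ih b c l g (y * a) (mul_mem (Submonoid.subset_closure hy) ha) (hb.mul_left y)
    · have e1 : x * X (nv S K g') * a = (x * a) * X (nv S K g') := by ring
      rw [e1, Psi_new]
      exact ih b c (l + 1) (g + g') a ha hb
    · have e1 : x * (e • (((1 : P) - X (nv S K 0)) * X i)) * a
          = e • (x * (X i * a) - (x * (X i * a)) * X (nv S K 0)) := by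
        rw [mul_smul_comm, smul_mul_assoc]
        congr 1
        ring
      rw [e1, map_smul, smul_eq_mul, map_sub, Psi_new, add_zero, ← Psi_b]
      apply hscale
      have h1 := ih (b + 1) c l g (X i * a) (mul_mem (S.X_mem hi) ha) (by
        rw [add_comm]; exact (ord_X i).mul hb)
      have e2 : b + 1 + ∑ j, c j = b + ∑ j, c j + 1 := by ring
      rwa [e2] at h1
    · have e1 : x * (e • ((X (nv S K g') : P) * X (j : ℕ)
          - ∑ k, ((K.b k : ℝ) : ℂ) • X (nv S K (g' + uv (j, k))))) * a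
          = e • ((x * a) * X (j : ℕ) * X (nv S K g')
            - ∑ k, ((K.b k : ℝ) : ℂ) • ((x * a) * X (nv S K (g' + uv (j, k))))) := by
        rw [mul_smul_comm, smul_mul_assoc]
        congr 1
        simp_rw [← mul_smul_comm]
        rw [← Finset.mul_sum]
        ring
      rw [e1, map_smul, smul_eq_mul, map_sub, Psi_new, map_sum]
      have e2 : ∀ k, Psi S K m b c l g (((K.b k : ℝ) : ℂ) • ((x * a) * X (nv S K (g' + uv (j, k)))))
          = ((K.b k : ℝ) : ℂ) * Psi S K m b c (l + 1) (g + g' + uv (j, k)) (x * a) := by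
        intro k
        rw [map_smul, smul_eq_mul, Psi_new, add_assoc]
      simp_rw [e2]
      rw [← Psi_c]
      apply hscale
      have h1 := ih b (c + Pi.single j 1) (l + 1) (g + g') a ha hb
      have e3 : b + ∑ j', (c + Pi.single j 1 : Fin S.r → ℕ) j' = b + ∑ j, c j + 1 := by
        simp [Finset.sum_add_distrib, add_assoc]
      rwa [e3] at h1
    · have e1 : x * (e • ((X (nv S K g') : P) * X (nv S K g')
          - X (nv S K 0) * X (nv S K 0))) * a
          = e • ((x * a) * X (nv S K g') ^ 2 - (x * a) * X (nv S K 0) ^ 2) := by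
        rw [mul_smul_comm, smul_mul_assoc]
        congr 1
        ring
      rw [e1, map_smul, map_sub, Psi_new_pow, Psi_new_pow]
      have e2 : (2 : ℕ) • g' = (2 : ℕ) • (0 : GG S K) := by
        rw [two_nsmul, gg_two, smul_zero]
      rw [e2, sub_self, smul_zero, norm_zero]
      exact mul_nonneg hC (by positivity)
    · have e1 : x * (κ' ^ (S.L + m) • (X i : P) ^ (S.L + m)) * a
          = κ' ^ (S.L + m) • (x * (X i ^ (S.L + m) * a)) := by
        rw [mul_smul_comm, smul_mul_assoc]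
        congr 1
        ring
      have e2 : Psi S K m b c l g (x * (X i ^ (S.L + m) * a)) = 0 := by
        rcases Nat.lt_or_ge i S.r with h | h
        · have e3 : x * (X i ^ (S.L + m) * a) = (x * a) * X i ^ (S.L + m) := by
            ring
          rw [e3]
          exact Psi_old_pow S K m b c l g h (Nat.le_add_right _ _) _
        · obtain ⟨g', rfl⟩ := exists_nv S K h hi
          have e3 : x * (X (nv S K g') ^ (S.L + m) * a) = (x * a) * X (nv S K g') ^ (S.L + m) := by
            ring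
          rw [e3, Psi_new_pow]
          exact Psi_zero S K m S.hL b c (by omega) _ _
      rw [e1, map_smul, e2, smul_zero, norm_zero]
      exact mul_nonneg hC (by positivity)

/-- the next state and what we know about it -/
structure Link (S S' : State) (e : ℂ) (c : ℂ) where
  hr : S.r < S'.r
  hF : (S.F : Set P) ⊆ (S'.F : Set P)
  nil : ∀ i < S'.r, ∃ L : ℕ, 1 ≤ L ∧ c ^ L • (X i : P) ^ L ∈ (S'.F : Set P)
  H : Type
  finH : Fintype H
  decH : DecidableEq H
  en : Gp H → ℕ
  hen : ∀ g, en g < S'.r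
  d1 : ∀ i < S.r, e • (((1 : P) - X (en 0)) * X i) ∈ (S'.F : Set P)
  d2 : ∀ i < S.r, ∃ (c : H → ℂ), ∀ g, e • ((X (en g) : P) * X i
      - ∑ k, c k • X (en (g + uv k))) ∈ (S'.F : Set P)
  d3 : ∀ g : Gp H, e • ((X (en g) : P) * X (en g) - X (en 0) * X (en 0)) ∈ (S'.F : Set P)

theorem supp_X {r i : ℕ} (h : i < r) : (X i : P) ∈ supported ℂ (Set.Iio r) := by
  rw [X_mem_supported]
  exact h

include K in
theorem exists_step (hδ : 0 ≤ δ) (hε : 0 < ε) {e : ℂ} (he : ‖e‖ * ε ≤ 1) (κ' : ℂ) :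
    ∃ S' : State, S'.C = S.C * (1 + δ) ^ S.r ∧
      ‖S'.phi (X 0) - S.phi (X 0)‖ ≤ S.C * ((1 + δ) ^ S.r - 1) ∧
      Nonempty (Link S S' e κ') := by
  classical
  obtain ⟨m, hm0, hm, hm'⟩ := exists_cut S.L hε
  set F' : Finset P := (newGen_finite S K m e κ').toFinset with hF'
  have hmem : ∀ s, s ∈ F' ↔ NewGen S K m e κ' s := by
    intro s
    rw [hF', Set.Finite.mem_toFinset]
    rfl
  have hcoe : (F' : Set P) = {s : P | NewGen S K m e κ' s} := by
    ext s
    exact hmem s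
  have hsup : ∀ i, i < S.r → (X i : P) ∈ supported ℂ (Set.Iio (S.r + nN S K)) :=
    fun i hi => supp_X (by omega)
  have hsup' : ∀ g, (X (nv S K g) : P) ∈ supported ℂ (Set.Iio (S.r + nN S K)) :=
    fun g => supp_X (nv_lt S K g)
  refine ⟨{ r := S.r + nN S K, hr := by have := S.hr; omega, L := S.L + m,
            hL := by have := S.hL; omega, F := F', phi := Psi S K m 0 0 0 0,
            C := S.C * (1 + δ) ^ S.r, hX := ?_, hF0 := ?_, hFv := ?_, bound := ?_, kill := ?_ },
    rfl, ?_, ⟨?_⟩⟩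
  · intro i hi
    rw [hmem]
    rcases Nat.lt_or_ge i S.r with h | h
    · exact NewGen.old _ (S.hX i h)
    · obtain ⟨g, rfl⟩ := exists_nv S K h hi
      exact NewGen.new g
  · intro s hs
    rw [hmem] at hs
    rcases hs with ⟨s, hs⟩ | g | ⟨i, hi⟩ | ⟨j, g⟩ | g | ⟨i, hi⟩
    · exact S.hF0 s hs
    · simp
    · simp [MvPolynomial.smul_eq_C_mul]
    · simp [MvPolynomial.smul_eq_C_mul]
    · simp [MvPolynomial.smul_eq_C_mul]
    · have := S.hL
      have h0 : S.L + m ≠ 0 := by omega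
      have h1 : constantCoeff ((X i : P) ^ (S.L + m)) = 0 := by
        rw [map_pow, constantCoeff_X, zero_pow h0]
      rw [MvPolynomial.smul_eq_C_mul, map_mul, h1, mul_zero]
  · intro s hs
    rw [hmem] at hs
    rcases hs with ⟨s, hs⟩ | g | ⟨i, hi⟩ | ⟨j, g⟩ | g | ⟨i, hi⟩
    · exact supported_mono (by intro x hx; simp only [Set.mem_Iio] at hx ⊢; omega) (S.hFv s hs)
    · exact hsup' g
    · exact Subalgebra.smul_mem _ (mul_mem (sub_mem (one_mem _) (hsup' 0)) (hsup i hi)) _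
    · exact Subalgebra.smul_mem _ (sub_mem (mul_mem (hsup' g) (hsup j j.2))
        (sum_mem fun k _ => Subalgebra.smul_mem _ (hsup' _) _)) _
    · exact Subalgebra.smul_mem _ (sub_mem (mul_mem (hsup' g) (hsup' g))
        (mul_mem (hsup' 0) (hsup' 0))) _
    · exact Subalgebra.smul_mem _ (pow_mem (supp_X hi) _) _
  · intro s hs
    rw [hcoe] at hs
    have := Psi_bound S K m hδ hε hm0 hm hm' he κ' hs 0 0 0 0 1 (one_mem _)
      (fun d _ => Nat.zero_le _)
    simpa using this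
  · intro q hq
    exact Psi_kill S K m S.hL 0 0 0 0 hq
  · have hX0 : (X 0 : P) ∈ S.M := S.X_mem (by have := S.hr; omega)
    show ‖Psi S K m 0 0 0 0 (X 0) - S.phi (X 0)‖ ≤ _
    rw [Psi_eval S K m 0 0 0 0 (S.M_supported hX0), cutC_zero_zero hm]
    simpa using hh_zero_close S K hX0
  · refine { hr := ?_, hF := ?_, nil := ?_, H := Fin S.r × K.I, finH := inferInstance,
             decH := inferInstance, en := nv S K, hen := nv_lt S K, d1 := ?_, d2 := ?_, d3 := ?_ }
    · show S.r < S.r + nN S K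
      have : 0 < nN S K := Fintype.card_pos
      omega
    · intro s hs
      show s ∈ (F' : Set P)
      rw [hcoe]
      exact NewGen.old _ hs
    · intro i hi
      refine ⟨S.L + m, by have := S.hL; omega, ?_⟩
      show _ ∈ (F' : Set P)
      rw [hcoe]
      exact NewGen.nil i hi
    · intro i hi
      show _ ∈ (F' : Set P)
      rw [hcoe]
      exact NewGen.d1 i hi
    · intro i hi
      refine ⟨fun p => if p.1 = ⟨i, hi⟩ then ((K.b p.2 : ℝ) : ℂ) else 0, fun g => ?_⟩
      show _ ∈ (F' : Set P)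
      rw [hcoe]
      have h1 : ∑ k : Fin S.r × K.I, (if k.1 = ⟨i, hi⟩ then ((K.b k.2 : ℝ) : ℂ) else 0) •
          (X (nv S K (g + uv k)) : P)
          = ∑ k, ((K.b k : ℝ) : ℂ) • X (nv S K (g + uv ((⟨i, hi⟩ : Fin S.r), k))) := by
        rw [Fintype.sum_prod_type, Finset.sum_eq_single (⟨i, hi⟩ : Fin S.r)]
        · simp
        · intro j _ hj
          simp [hj]
        · intro h
          exact absurd (Finset.mem_univ _) h
      rw [h1]
      exact NewGen.d2 (⟨i, hi⟩ : Fin S.r) g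
    · intro g
      show _ ∈ (F' : Set P)
      rw [hcoe]
      exact NewGen.d3 g

end

end Pool.Hom82
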