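import Pool.Agent.Work.MP_8222c7_an.BStep

/-!
The tower.
-/

set_option autoImplicit false

namespace Pool.Hom82

open Finset MvPolynomial Filter Topology

noncomputable section

theorem exists_small_pow (N : ℕ) {η : ℝ} (hη : 0 < η) : ∃ δ : ℝ, 0 < δ ∧ (1 + δ) ^ N ≤ 1 + η := by
  have h1 : Tendsto (fun x : ℝ => (1 + x) ^ N) (𝓝 0) (𝓝 ((1 + 0) ^ N)) :=
    (Continuous.tendsto (by fun_prop) 0)
  have h2 : Tendsto (fun x : ℝ => (1 + x) ^ N) (𝓝[>] 0) (𝓝 1) := by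
    have := h1.mono_left (nhdsWithin_le_nhds (a := (0 : ℝ)) (s := Set.Ioi 0))
    simpa using this
  have h3 : ∀ᶠ x : ℝ in 𝓝[>] 0, (1 + x) ^ N < 1 + η :=
    h2.eventually (gt_mem_nhds (by linarith))
  obtain ⟨δ, hδ1, hδ2⟩ := (h3.and self_mem_nhdsWithin).exists
  exact ⟨δ, hδ2, hδ1.le⟩

theorem exists_small_wt (F : Finset P) {θ : ℝ} (hθ : 0 < θ) :
    ∃ κ : ℝ, 0 < κ ∧ κ ≤ 1 / 16 ∧ ∀ s ∈ F, (1 + θ) * wt κ s ≤ θ := by
  have h1 : ∀ s : P, Tendsto (fun κ : ℝ => (1 + θ) * wt κ s) (𝓝[>] 0) (𝓝 0) := by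
    intro s
    have h2 : Tendsto (fun κ : ℝ => (1 + θ) * wt κ s) (𝓝 0) (𝓝 ((1 + θ) * wt 0 s)) := by
      apply Continuous.tendsto
      unfold wt
      fun_prop
    have h3 : wt 0 s = 0 := by
      unfold wt
      simp
    rw [h3, mul_zero] at h2
    exact h2.mono_left nhdsWithin_le_nhds
  have h4 : ∀ᶠ κ : ℝ in 𝓝[>] 0, ∀ s ∈ F, (1 + θ) * wt κ s ≤ θ := by
    rw [Filter.eventually_all_finset]
    intro s _
    filter_upwards [(h1 s).eventually (gt_mem_nhds hθ)] with κ hκ using hκ.le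
  have h5 : ∀ᶠ κ : ℝ in 𝓝[>] 0, κ < 1 / 16 :=
    nhdsWithin_le_nhds (gt_mem_nhds (by norm_num))
  obtain ⟨κ, ⟨h6, h7⟩, h8⟩ := ((h4.and h5).and self_mem_nhdsWithin).exists
  exact ⟨κ, h8, h7.le, h6⟩

/-- what the tower needs from one state -/
structure Chart (S : State) where
  I : Type
  finI : Fintype I
  decI : DecidableEq I
  σ : P →ₐ[ℂ] (Om I → ℂ)
  hσ : ∀ i, S.r ≤ i → σ (X i) = 0
  z : Om I
  hz : ∀ i, σ (X i) z = 0
  Φ : (Om I → ℂ) →ₗ[ℂ] ℂ
  hΦ : ∀ s ∈ Submonoid.closure (Set.range (walsh (I := I)) ∪ σ '' (S.F : Set P)), ‖Φ s‖ ≤ 2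
  hΦ0 : 1 / 2 ≤ ‖Φ (σ (X 0))‖

theorem exists_chart (hK : ∀ (L : ℕ) {δ κ : ℝ}, 0 < δ → 0 < κ → Nonempty (Kern L δ κ))
    (S : State) (hC : S.C ≤ 5 / 4) (h0 : 3 / 4 ≤ ‖S.phi (X 0)‖) : Nonempty (Chart S) := by
  classical
  obtain ⟨δ, hδ, hδ'⟩ := exists_small_pow S.r (η := 1 / 16) (by norm_num)
  obtain ⟨θ, hθ, hθ'⟩ := exists_small_pow S.L (η := 1 / 16) (by norm_num)
  obtain ⟨κ, hκ, hκ', hw⟩ := exists_small_wt S.F hθ
  obtain ⟨K⟩ := hK S.L hδ hκ
  have hC0 := S.C_nonneg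
  have hr := S.hr
  have hone : 1 ≤ (1 + δ) ^ S.r := one_le_pow₀ (by linarith)
  refine ⟨{ I := Fin S.r × K.I, finI := inferInstance, decI := inferInstance, σ := sg S K,
            hσ := fun i hi => sg_X_ge S K hi, z := zz S K, hz := sg_zz S K,
            Φ := Ph S K 0 0 1, hΦ := ?_, hΦ0 := ?_ }⟩
  · intro s hs
    have h1 := Ph_bound S K hδ.le hκ.le hθ.le hw hs 0 0 0 1 (one_mem _) (fun d _ => Nat.zero_le _)
    refine h1.trans ?_
    simp only [Pi.zero_apply, Finset.sum_const_zero, pow_zero, mul_one, Nat.sub_zero]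
    calc S.C * (1 + δ) ^ S.r * (1 + θ) ^ S.L ≤ 5 / 4 * (1 + 1 / 16) * (1 + 1 / 16) := by
          gcongr
      _ ≤ 2 := by norm_num
  · have hX0 : (X 0 : P) ∈ S.M := S.X_mem (by omega)
    have h1 : Ph S K 0 0 1 (sg S K (X 0))
        = hh S K 0 0 (X 0) - hh S K (0 + Pi.single (⟨0, by omega⟩ : Fin S.r) 1) 0 1 := by
      have := Ph_mul_X S K 0 0 1 (⟨0, by omega⟩ : Fin S.r) 1
      rw [one_mul, mul_one, Ph_one, Ph_one] at this
      exact this
    have h2 := hh_zero_close S K hX0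
    have h3 := hh_bound S K (0 + Pi.single (⟨0, by omega⟩ : Fin S.r) 1) 0 (one_mem S.M)
    have h4 : ∑ j, (0 + Pi.single (⟨0, by omega⟩ : Fin S.r) 1 : Fin S.r → ℕ) j = 1 := by
      simp
    rw [h4, pow_one] at h3
    have h5 : S.C * ((1 + δ) ^ S.r - 1) ≤ 5 / 4 * (1 / 16) := by
      apply mul_le_mul hC (by linarith) (by linarith) (by norm_num)
    have h6 : S.C * (1 + δ) ^ S.r * κ ≤ 5 / 4 * (1 + 1 / 16) * (1 / 16) := by
      gcongr
    rw [h1]
    set x := hh S K 0 0 (X 0)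
    set y := hh S K (0 + Pi.single (⟨0, by omega⟩ : Fin S.r) 1) 0 1
    have h7 : ‖S.phi (X 0)‖ ≤ ‖x - y‖ + ‖y‖ + ‖x - S.phi (X 0)‖ := by
      have e : S.phi (X 0) = (x - y) + y - (x - S.phi (X 0)) := by ring
      calc ‖S.phi (X 0)‖ = ‖(x - y) + y - (x - S.phi (X 0))‖ := by rw [← e]
        _ ≤ ‖(x - y) + y‖ + ‖x - S.phi (X 0)‖ := norm_sub_le _ _
        _ ≤ _ := by linarith [norm_add_le (x - y) y]
    norm_num at h5 h6 ⊢
    linarith

/-- induction hypothesis -/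
structure GoodSt (n : ℕ) (S : State) : Prop where
  C : S.C ≤ 5 / 4 - 1 / 4 * (1 / 2) ^ n
  p : 3 / 4 + 1 / 4 * (1 / 2) ^ n ≤ ‖S.phi (X 0)‖
  nil : ∀ i < S.r, ∃ L : ℕ, 1 ≤ L ∧ (((n + 1 : ℕ) : ℂ)) ^ L • (X i : P) ^ L ∈ (S.F : Set P)

theorem exists_good_zero : ∃ S : State, GoodSt 0 S := by
  classical
  have hpow : ∀ s ∈ Submonoid.closure ((({X 0, X 0 ^ 2} : Finset P)) : Set P),
      ∃ k : ℕ, s = X 0 ^ k := by
    intro s hs
    induction hs using Submonoid.closure_induction with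
    | mem x hx =>
      simp only [Finset.coe_insert, Finset.coe_singleton, Set.mem_insert_iff,
        Set.mem_singleton_iff] at hx
      rcases hx with rfl | rfl
      · exact ⟨1, (pow_one _).symm⟩
      · exact ⟨2, rfl⟩
    | one => exact ⟨0, (pow_zero _).symm⟩
    | mul x y _ _ hx hy =>
      obtain ⟨k, rfl⟩ := hx
      obtain ⟨l, rfl⟩ := hy
      exact ⟨k + l, (pow_add _ _ _).symm⟩
  refine ⟨{ r := 1, hr := le_refl _, L := 2, hL := by norm_num, F := {X 0, X 0 ^ 2},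
            phi := lcoeff ℂ (Finsupp.single 0 1), C := 1, hX := ?_, hF0 := ?_, hFv := ?_,
            bound := ?_, kill := ?_ }, ?_, ?_, ?_⟩
  · intro i hi
    have : i = 0 := by omega
    subst this
    simp
  · intro s hs
    simp only [Finset.mem_insert, Finset.mem_singleton] at hs
    rcases hs with rfl | rfl
    · simp
    · simp
  · intro s hs
    simp only [Finset.mem_insert, Finset.mem_singleton] at hs
    rcases hs with rfl | rfl
    · exact supp_X (by norm_num)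
    · exact pow_mem (supp_X (by norm_num)) _
  · intro s hs
    obtain ⟨k, rfl⟩ := hpow s hs
    rw [lcoeff_apply, coeff_X_pow]
    split_ifs <;> simp
  · intro q hq
    rw [lcoeff_apply]
    by_contra h
    have := hq _ (mem_support_iff.2 h)
    rw [Finsupp.degree_single] at this
    omega
  · norm_num
  · show _ ≤ ‖lcoeff ℂ (Finsupp.single 0 1) (X 0 : P)‖
    rw [lcoeff_apply, coeff_X]
    norm_num
  · intro i hi
    have : i = 0 := by
      have : i < 1 := hi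
      omega
    subst this
    refine ⟨2, by norm_num, ?_⟩
    simp

theorem exists_good_succ (hK : ∀ (L : ℕ) {δ κ : ℝ}, 0 < δ → 0 < κ → Nonempty (Kern L δ κ))
    (n : ℕ) (S : State) (hS : GoodSt n S) :
    ∃ S' : State, GoodSt (n + 1) S' ∧
      Nonempty (Link S S' (((n + 1 : ℕ) : ℂ)) (((n + 1 + 1 : ℕ) : ℂ))) := by
  have hp0 : (0 : ℝ) < (1 / 2) ^ n := by positivity
  have hp1 : ((1 : ℝ) / 2) ^ n ≤ 1 := pow_le_one₀ (by norm_num) (by norm_num)
  obtain ⟨δ, hδ, hδ'⟩ := exists_small_pow S.r (η := 1 / 16 * (1 / 2) ^ n) (by positivity)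
  have hn : (0 : ℝ) < ((n + 1 : ℕ) : ℝ) := by positivity
  obtain ⟨K⟩ := hK S.L hδ (inv_pos.2 hn)
  obtain ⟨S', h1, h2, ⟨l⟩⟩ := exists_step S K hδ.le (inv_pos.2 hn)
    (e := (((n + 1 : ℕ) : ℂ))) (by
      rw [Complex.norm_natCast]
      exact (mul_inv_cancel₀ hn.ne').le) (((n + 1 + 1 : ℕ) : ℂ))
  refine ⟨S', ⟨?_, ?_, l.nil⟩, ⟨l⟩⟩
  · rw [h1]
    have hC := hS.C
    have hC0 := S.C_nonneg
    calc S.C * (1 + δ) ^ S.r ≤ (5 / 4 - 1 / 4 * (1 / 2) ^ n) * (1 + 1 / 16 * (1 / 2) ^ n) := by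
          apply mul_le_mul hC hδ' (by positivity) (by linarith)
      _ ≤ 5 / 4 - 1 / 4 * (1 / 2) ^ (n + 1) := by
          rw [pow_succ]
          nlinarith
  · have hC := hS.C
    have hC0 := S.C_nonneg
    have hp := hS.p
    have h3 : S.C * ((1 + δ) ^ S.r - 1) ≤ 5 / 4 * (1 / 16 * (1 / 2) ^ n) := by
      apply mul_le_mul (by linarith) (by linarith) _ (by norm_num)
      have : 1 ≤ (1 + δ) ^ S.r := one_le_pow₀ (by linarith)
      linarith
    have h4 : ‖S.phi (X 0)‖ ≤ ‖S'.phi (X 0)‖ + ‖S'.phi (X 0) - S.phi (X 0)‖ := by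
      have e : S.phi (X 0) = S'.phi (X 0) - (S'.phi (X 0) - S.phi (X 0)) := by ring
      calc ‖S.phi (X 0)‖ = ‖S'.phi (X 0) - (S'.phi (X 0) - S.phi (X 0))‖ := by rw [← e]
        _ ≤ _ := norm_sub_le _ _
    rw [pow_succ]
    linarith

section tower

variable (hK : ∀ (L : ℕ) {δ κ : ℝ}, 0 < δ → 0 < κ → Nonempty (Kern L δ κ))

/-- the sequence of states -/
def seq : (n : ℕ) → {S : State // GoodSt n S}
  | 0 => ⟨exists_good_zero.choose, exists_good_zero.choose_spec⟩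
  | n + 1 => ⟨(exists_good_succ hK n (seq n).1 (seq n).2).choose,
      (exists_good_succ hK n (seq n).1 (seq n).2).choose_spec.1⟩

def lk (n : ℕ) : Link (seq hK n).1 (seq hK (n + 1)).1 (((n + 1 : ℕ) : ℂ))
    (((n + 1 + 1 : ℕ) : ℂ)) :=
  Classical.choice (exists_good_succ hK n (seq hK n).1 (seq hK n).2).choose_spec.2

theorem chart_nonempty (n : ℕ) : Nonempty (Chart (seq hK n).1) := by
  have h := (seq hK n).2
  have hp : (0 : ℝ) < (1 / 2) ^ n := by positivity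
  exact exists_chart hK _ (by linarith [h.C]) (by linarith [h.p])

def ch (n : ℕ) : Chart (seq hK n).1 := Classical.choice (chart_nonempty hK n)

/-- the tower -/
def tower : Tower :=
  { r := fun n => (seq hK n).1.r
    hr := fun n => (lk hK n).hr
    F := fun n => ((seq hK n).1.F : Set P)
    hF := fun n => (lk hK n).hF
    hX := fun n i hi => (seq hK n).1.hX i hi
    hF0 := fun n s hs => (seq hK n).1.hF0 s hs
    I := fun n => (ch hK n).I
    finI := fun n => (ch hK n).finI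
    decI := fun n => (ch hK n).decI
    σ := fun n => (ch hK n).σ
    hσ := fun n => (ch hK n).hσ
    z := fun n => (ch hK n).z
    hz := fun n => (ch hK n).hz
    Φ := fun n => (ch hK n).Φ
    hΦ := fun n => (ch hK n).hΦ
    hΦ0 := fun n => (ch hK n).hΦ0
    nil := fun n => (seq hK n).2.nil
    H := fun n => (lk hK n).H
    finH := fun n => (lk hK n).finH
    decH := fun n => (lk hK n).decH
    e := fun n => (lk hK n).en
    he := fun n => (lk hK n).hen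
    d1 := fun n => (lk hK n).d1
    d2 := fun n => (lk hK n).d2
    d3 := fun n => (lk hK n).d3 }

end tower

theorem exists_tower_of (hK : ∀ (L : ℕ) {δ κ : ℝ}, 0 < δ → 0 < κ → Nonempty (Kern L δ κ)) :
    Nonempty Tower := ⟨tower hK⟩

end

end Pool.Hom82
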